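import Pool.Agent.Helper84.CopyLang

set_option autoImplicit false

namespace Pool.Agent.Helper84.CaseNTwo

open Pool.Agent.Helper84.CopyLang

universe u

/-- The fixed point of the 5-uniform morphism `0 → 01010`, `1 → 01001`. -/
def xw (k : ℕ) : Bool :=
  if k % 5 = 0 then false
  else if k % 5 = 1 then true
  else if k % 5 = 2 then false
  else if k % 5 = 3 then !(xw (k / 5))
  else xw (k / 5)
termination_by k
decreasing_by all_goals omega

lemma x0 (k : ℕ) : xw (5 * k) = false := by
  rw [xw]; simp

lemma x1 (k : ℕ) : xw (5 * k + 1) = true := by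
  rw [xw]
  have : (5 * k + 1) % 5 = 1 := by omega
  simp [this]

lemma x2 (k : ℕ) : xw (5 * k + 2) = false := by
  rw [xw]
  have : (5 * k + 2) % 5 = 2 := by omega
  simp [this]

lemma x3 (k : ℕ) : xw (5 * k + 3) = !(xw k) := by
  rw [xw]
  have : (5 * k + 3) % 5 = 3 := by omega
  have h2 : (5 * k + 3) / 5 = k := by omega
  simp [this, h2]

lemma x4 (k : ℕ) : xw (5 * k + 4) = xw k := by
  rw [xw]
  have : (5 * k + 4) % 5 = 4 := by omega
  have h2 : (5 * k + 4) / 5 = k := by omega
  simp [this, h2]

lemma no11 (c : ℕ) (h1 : xw c = true) (h2 : xw (c + 1) = true) : False := by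
  obtain ⟨a, r, hr, rfl⟩ : ∃ a r, r < 5 ∧ c = 5 * a + r := ⟨c / 5, c % 5, by omega, by omega⟩
  interval_cases r
  · rw [Nat.add_zero, x0] at h1; simp at h1
  · rw [show 5 * a + 1 + 1 = 5 * a + 2 by ring, x2] at h2; simp at h2
  · rw [x2] at h1; simp at h1
  · rw [x3] at h1
    rw [show 5 * a + 3 + 1 = 5 * a + 4 by ring, x4] at h2
    simp [h2] at h1
  · rw [show 5 * a + 4 + 1 = 5 * (a + 1) by ring, x0] at h2; simp at h2

/-- `M` consecutive coincidences of `xw` with its shift by `q`, starting at `i`. -/
def Match (q i M : ℕ) : Prop := ∀ k, k < M → xw (i + k) = xw (i + k + q)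

lemma Match.at {q i M : ℕ} (h : Match q i M) (j : ℕ) (h1 : i ≤ j) (h2 : j < i + M) :
    xw j = xw (j + q) := by
  have := h (j - i) (by omega)
  rwa [show i + (j - i) = j by omega] at this

lemma match_bound : ∀ q : ℕ, 1 ≤ q → ∀ i M : ℕ, Match q i M → 8 * M + 6 ≤ 23 * q := by
  intro q
  induction q using Nat.strong_induction_on with
  | _ q ih =>
    intro hq i M h
    obtain ⟨r, s, hs, rfl⟩ : ∃ r s, s < 5 ∧ q = 5 * r + s := ⟨q / 5, q % 5, by omega, by omega⟩
    interval_cases s
    · -- q = 5 r
      simp only [Nat.add_zero] at h ih hq ⊢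
      rcases Nat.eq_zero_or_pos M with hM | hM
      · omega
      obtain ⟨a, b, hb, rfl⟩ : ∃ a b, b < 5 ∧ i = 5 * a + b := ⟨i / 5, i % 5, by omega, by omega⟩
      have hm : Match r a ((b + M + 1) / 5) := by
        intro k hk
        by_cases hc : b = 4 ∧ k = 0
        · obtain ⟨rfl, rfl⟩ := hc
          have h1 := h.at (5 * a + 4) (by omega) (by omega)
          rw [show 5 * a + 4 + 5 * r = 5 * (a + r) + 4 by ring, x4, x4] at h1
          simpa using h1
        · have h1 := h.at (5 * (a + k) + 3) (by omega) (by omega)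
          rw [show 5 * (a + k) + 3 + 5 * r = 5 * (a + k + r) + 3 by ring, x3, x3] at h1
          simpa using h1
      have := ih r (by omega) (by omega) a _ hm
      omega
    · -- q = 5 r + 1
      have key : ∀ c, i ≤ 5 * c → 5 * c < i + M → False := by
        intro c h1 h2
        have h3 := h.at (5 * c) h1 h2
        rw [show 5 * c + (5 * r + 1) = 5 * (c + r) + 1 by ring, x0, x1] at h3
        simp at h3
      rcases Nat.eq_zero_or_pos r with hr | hr
      · subst hr
        by_contra hM
        have hM3 : 3 ≤ M := by omega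
        obtain ⟨a, b, hb, rfl⟩ : ∃ a b, b < 5 ∧ i = 5 * a + b := ⟨i / 5, i % 5, by omega, by omega⟩
        interval_cases b
        · exact key a (by omega) (by omega)
        · have h3 := h.at (5 * a + 1) (by omega) (by omega)
          rw [show 5 * a + 1 + (5 * 0 + 1) = 5 * a + 2 by ring, x1, x2] at h3
          simp at h3
        · have h3 := h.at (5 * a + 3) (by omega) (by omega)
          rw [show 5 * a + 3 + (5 * 0 + 1) = 5 * a + 4 by ring, x3, x4] at h3
          cases h4 : xw a <;> simp [h4] at h3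
        · exact key (a + 1) (by omega) (by omega)
        · exact key (a + 1) (by omega) (by omega)
      · by_contra hM
        exact key (i / 5 + 1) (by omega) (by omega)
    · -- q = 5 r + 2
      have k3 : ∀ c, i ≤ 5 * c + 3 → 5 * c + 3 < i + M → xw c = true := by
        intro c h1 h2
        have h3 := h.at (5 * c + 3) h1 h2
        rw [show 5 * c + 3 + (5 * r + 2) = 5 * (c + r + 1) by ring, x3, x0] at h3
        simpa using h3
      rcases Nat.eq_zero_or_pos r with hr | hr
      · subst hr
        by_contra hM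
        have hM6 : 6 ≤ M := by omega
        -- choose c with 5c+2, 5c+3 both in the window
        obtain ⟨c, hc1, hc2⟩ : ∃ c, i ≤ 5 * c + 2 ∧ 5 * c + 3 < i + 6 := ⟨(i + 2) / 5, by omega, by omega⟩
        have h1 := k3 c (by omega) (by omega)
        have h3 := h.at (5 * c + 2) (by omega) (by omega)
        rw [show 5 * c + 2 + (5 * 0 + 2) = 5 * c + 4 by ring, x2, x4, h1] at h3
        simp at h3
      · by_contra hM
        obtain ⟨c, hc1, hc2⟩ : ∃ c, i ≤ 5 * c + 3 ∧ 5 * (c + 1) + 3 < i + 11 :=
          ⟨(i + 1) / 5, by omega, by omega⟩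
        exact no11 c (k3 c (by omega) (by omega)) (k3 (c + 1) (by omega) (by omega))
    · -- q = 5 r + 3
      have k0 : ∀ c, i ≤ 5 * c → 5 * c < i + M → xw (c + r) = true := by
        intro c h1 h2
        have h3 := h.at (5 * c) h1 h2
        rw [show 5 * c + (5 * r + 3) = 5 * (c + r) + 3 by ring, x0, x3] at h3
        simpa using h3.symm
      rcases Nat.eq_zero_or_pos r with hr | hr
      · subst hr
        by_contra hM
        have hM8 : 8 ≤ M := by omega
        obtain ⟨c, hc1, hc2⟩ : ∃ c, i ≤ 5 * c + 1 ∧ 5 * c + 3 < i + 8 := ⟨(i + 3) / 5, by omega, by omega⟩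
        have h1 := h.at (5 * c + 1) (by omega) (by omega)
        rw [show 5 * c + 1 + (5 * 0 + 3) = 5 * c + 4 by ring, x1, x4] at h1
        have h3 := h.at (5 * c + 3) (by omega) (by omega)
        rw [show 5 * c + 3 + (5 * 0 + 3) = 5 * (c + 1) + 1 by ring, x3, x1, ← h1] at h3
        simp at h3
      · by_contra hM
        obtain ⟨c, hc1, hc2⟩ : ∃ c, i ≤ 5 * c ∧ 5 * (c + 1) < i + 10 := ⟨(i + 4) / 5, by omega, by omega⟩
        refine no11 (c + r) (k0 c (by omega) (by omega)) ?_
        have := k0 (c + 1) (by omega) (by omega)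
        rwa [show c + r + 1 = c + 1 + r by ring]
    · -- q = 5 r + 4
      have key : ∀ c, i ≤ 5 * c + 1 → 5 * c + 1 < i + M → False := by
        intro c h1 h2
        have h3 := h.at (5 * c + 1) h1 h2
        rw [show 5 * c + 1 + (5 * r + 4) = 5 * (c + r + 1) by ring, x1, x0] at h3
        simp at h3
      by_contra hM
      exact key ((i + 3) / 5) (by omega) (by omega)

lemma xw_bounded {A : Type u} {e : Bool → A} (he : Function.Injective e) {N : ℕ} (hN : 4 ≤ N) :
    Bounded (fun k => e (xw k)) 8 N := by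
  intro i q o hq h
  have h1 : 4 * q ≤ N * q := Nat.mul_le_mul_right q hN
  have e : 8 * N * q = 8 * (N * q) := by ring
  rcases Nat.lt_or_ge o q with ho | ho
  · omega
  · have h2 := match_bound q hq i (o - q) (fun k hk => he (h k (by omega)))
    omega

/-- every position `t ≥ 87` is the end of a factor of exponent larger than two -/
def Good (t : ℕ) : Prop :=
  ∃ p, 1 ≤ p ∧ 2 * p ≤ t ∧ ∀ j, t ≤ j + 2 * p → j + p ≤ t → xw j = xw (j + p)

lemma good_lift {t s : ℕ} (hs : s < 5) (h : Good t) : Good (5 * t + s) := by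
  obtain ⟨p, h1, h2, h3⟩ := h
  refine ⟨5 * p, by omega, by omega, ?_⟩
  intro j hj1 hj2
  obtain ⟨a, b, hb, rfl⟩ : ∃ a b, b < 5 ∧ j = 5 * a + b := ⟨j / 5, j % 5, by omega, by omega⟩
  have h4 := h3 a (by omega) (by omega)
  interval_cases b
  · rw [show 5 * a + 0 + 5 * p = 5 * (a + p) by ring, Nat.add_zero, x0, x0]
  · rw [show 5 * a + 1 + 5 * p = 5 * (a + p) + 1 by ring, x1, x1]
  · rw [show 5 * a + 2 + 5 * p = 5 * (a + p) + 2 by ring, x2, x2]
  · rw [show 5 * a + 3 + 5 * p = 5 * (a + p) + 3 by ring, x3, x3, h4]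
  · rw [show 5 * a + 4 + 5 * p = 5 * (a + p) + 4 by ring, x4, x4, h4]

/-- fuel version of `xw` for kernel evaluation -/
def xf : ℕ → ℕ → Bool
  | 0, _ => false
  | f + 1, k =>
    if k % 5 = 0 then false
    else if k % 5 = 1 then true
    else if k % 5 = 2 then false
    else if k % 5 = 3 then !(xf f (k / 5))
    else xf f (k / 5)

lemma xf_eq : ∀ f k, k < 5 ^ f → xf f k = xw k := by
  intro f
  induction f with
  | zero =>
    intro k hk
    have : k = 0 := by simpa using hk
    subst this
    rw [xw]; simp [xf]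
  | succ f ih =>
    intro k hk
    rw [xw, xf, ih (k / 5) (by rw [pow_succ] at hk; omega)]

/-- maximal repetitions `(start, period, end)` -/
def reps : List (ℕ × ℕ × ℕ) :=
  [(83, 2, 89), (60, 15, 107), (0, 50, 142), (137, 3, 145), (125, 10, 152), (100, 25, 167),
   (135, 15, 182), (177, 3, 185), (165, 10, 202), (50, 75, 292), (260, 15, 307), (200, 50, 392),
   (387, 3, 395), (375, 10, 402), (350, 25, 417), (385, 15, 432), (427, 3, 434)]

def chk (r : ℕ × ℕ × ℕ) : Bool :=
  (List.range (r.2.2 + 1 - r.2.1 - r.1)).all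
    (fun k => xf 4 (r.1 + k) == xf 4 (r.1 + k + r.2.1))

lemma chk_all : reps.all chk = true := by decide

lemma good_base (t : ℕ) (h1 : 87 ≤ t) (h2 : t < 435) : Good t := by
  have hcov : ∃ r ∈ reps, 1 ≤ r.2.1 ∧ r.1 + 2 * r.2.1 ≤ t ∧ t ≤ r.2.2 ∧ r.2.2 < 625 := by
    simp only [reps, List.mem_cons, List.not_mem_nil, or_false, exists_eq_or_imp,
      exists_eq_left]
    omega
  obtain ⟨⟨s, p, e⟩, hr, hp, hs, he, he'⟩ := hcov
  simp only at hp hs he he'
  have hc := List.all_eq_true.mp chk_all _ hr
  simp only [chk, List.all_eq_true, List.mem_range, beq_iff_eq] at hc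
  refine ⟨p, hp, by omega, ?_⟩
  intro j hj1 hj2
  have h3 := hc (j - s) (by omega)
  rw [show s + (j - s) = j by omega] at h3
  rwa [xf_eq 4 j (by norm_num; omega), xf_eq 4 (j + p) (by norm_num; omega)] at h3

lemma good_all : ∀ t, 87 ≤ t → Good t := by
  intro t
  induction t using Nat.strong_induction_on with
  | _ t ih =>
    intro ht
    by_cases h : t < 435
    · exact good_base t ht h
    · have h1 := ih (t / 5) (by omega) (by omega)
      have h2 := good_lift (s := t % 5) (by omega) h1
      rwa [show 5 * (t / 5) + t % 5 = t by omega] at h2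

/-- the infinite word `xw` written with the letters `e false`, `e true` -/
def xe {A : Type u} (e : Bool → A) (k : ℕ) : A := e (xw k)

/-- the starting word: the prefix of length 87 -/
def start {A : Type u} (e : Bool → A) : List A := seg (xe e) 0 87

lemma prefixes {A : Type u} (e : Bool → A) {m : ℕ} (hm : 1 ≤ m) :
    ∀ l, ∃ v, seg (xe e) 0 (87 + l) ++ v ∈ L 2 m (start e) := by
  intro l
  induction l with
  | zero => exact ⟨[], by simpa [start] using self_mem_L 2 m (start e)⟩
  | succ l ih =>
    obtain ⟨v, hv⟩ := ih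
    obtain ⟨p, hp1, hp2, hp3⟩ := good_all (87 + l) (by omega)
    have hp3' : ∀ j, 87 + l ≤ j + 2 * p → j + p ≤ 87 + l → xe e j = xe e (j + p) := by
      intro j h1 h2
      unfold xe
      rw [hp3 j h1 h2]
    clear hp3
    obtain ⟨m', rfl⟩ : ∃ m', m = m' + 1 := ⟨m - 1, by omega⟩
    obtain ⟨c, hc⟩ : ∃ c, 87 + l = c + 2 * p := ⟨87 + l - 2 * p, by omega⟩
    rw [hc] at hv hp3'
    have hz : seg (xe e) (c + p) p = seg (xe e) c p := by
      apply List.ext_getElem?
      intro j
      by_cases hj : j < p
      · rw [getElem?_seg _ _ _ _ hj, getElem?_seg _ _ _ _ hj]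
        have := hp3' (c + j) (by omega) (by omega)
        rw [this]
        congr 2
        ring
      · rw [List.getElem?_eq_none (by simp; omega), List.getElem?_eq_none (by simp; omega)]
    have hsplit : seg (xe e) 0 (c + 2 * p) = seg (xe e) 0 c ++ wpow (seg (xe e) c p) 2 := by
      rw [show c + 2 * p = c + (p + p) by ring, seg_add, seg_add, Nat.zero_add, hz,
        show (2 : ℕ) = 1 + 1 by rfl, wpow_succ, wpow_one]
    have hfirst : ∃ rest, seg (xe e) c p = xe e (c + 2 * p) :: rest := by
      obtain ⟨p', rfl⟩ : ∃ p', p = p' + 1 := ⟨p - 1, by omega⟩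
      refine ⟨seg (xe e) (c + 1) p', ?_⟩
      have h1 := hp3' c (by omega) (by omega)
      have h2 := hp3' (c + (p' + 1)) (by omega) (by omega)
      rw [show c + 2 * (p' + 1) = c + (p' + 1) + (p' + 1) by ring, ← h2, ← h1,
        show p' + 1 = 1 + p' by ring, seg_add]
      simp [seg]
    obtain ⟨rest, hrest⟩ := hfirst
    refine ⟨rest ++ (wpow (seg (xe e) c p) m' ++ v), ?_⟩
    refine Relation.ReflTransGen.tail hv ⟨seg (xe e) 0 c, seg (xe e) c p, v, ?_, ?_⟩
    · rw [hsplit]
    · rw [show 87 + (l + 1) = c + 2 * p + 1 by omega, seg_succ, hsplit, Nat.zero_add,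
        show 2 + (m' + 1) = 2 + (1 + m') by ring, wpow_add _ 2, wpow_add _ 1, wpow_one]
      conv_rhs => rw [hrest]
      simp [List.append_assoc, hrest]

/-- For `n = 2`, `m ≥ 2`: all languages `L(w)` over the finite alphabet `A` are regular iff `A`
has at most one letter. -/
theorem result (m : ℕ) (hm : 2 ≤ m) (A : Type u) [Fintype A] :
    (∀ w : List A, (L 2 m w).IsRegular) ↔ Fintype.card A ≤ 1 := by
  constructor
  · intro hall
    by_contra hcard
    obtain ⟨a, b, hab⟩ := Fintype.one_lt_card_iff.mp (Nat.lt_of_not_le hcard)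
    have he : Function.Injective (fun c : Bool => if c then a else b) := by
      intro c d h
      cases c <;> cases d <;> simp at h ⊢
      · exact hab h.symm
      · exact hab h
    refine not_regular (D := 8) (n := 2) (m := m) (x := xe (fun c : Bool => if c then a else b))
      (by norm_num) (by omega)
      (xw_bounded he (N := 2 + m) (by omega)) (start (fun c : Bool => if c then a else b)) []
      ?_ (hall _)
    intro l
    obtain ⟨v, hv⟩ := prefixes (fun c : Bool => if c then a else b) (m := m) (by omega) l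
    refine ⟨seg (xe (fun c : Bool => if c then a else b)) (0 + l) 87 ++ v, ?_⟩
    rw [show 87 + l = l + 87 by ring, seg_add] at hv
    simpa [List.append_assoc] using hv
  · intro hcard w
    refine one_letter_regular (by norm_num) (by omega) w ?_
    intro a _ b _
    exact (Fintype.card_le_one_iff.mp hcard) a b

end Pool.Agent.Helper84.CaseNTwo
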