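import Mathlib

set_option autoImplicit false

/-!
Common definitions and the main counting lemma for the copying systems `x^n → x^(n+m)`.
-/

namespace Pool.Agent.Helper84.CopyLang

universe u

/-- the word `x` repeated `k` times -/
def wpow {A : Type u} (x : List A) (k : ℕ) : List A := (List.replicate k x).flatten

/-- one-step derivation: a factor `x^n` is replaced by `x^(n+m)` -/
def Step {A : Type u} (n m : ℕ) (s t : List A) : Prop :=
  ∃ u x v : List A, s = u ++ wpow x n ++ v ∧ t = u ++ wpow x (n + m) ++ v

/-- the language `L(w)` of all words obtainable from `w` -/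
def L {A : Type u} (n m : ℕ) (w : List A) : Language A :=
  {v | Relation.ReflTransGen (Step n m) w v}

section basic
variable {A : Type u}

lemma self_mem_L (n m : ℕ) (w : List A) : w ∈ L n m w := Relation.ReflTransGen.refl

@[simp] lemma wpow_zero (x : List A) : wpow x 0 = [] := rfl

lemma wpow_succ (x : List A) (k : ℕ) : wpow x (k + 1) = x ++ wpow x k := by
  simp [wpow, List.replicate_succ]

lemma wpow_add (x : List A) (j k : ℕ) : wpow x (j + k) = wpow x j ++ wpow x k := by
  induction j with
  | zero => simp
  | succ j ih => rw [Nat.succ_add, wpow_succ, ih, wpow_succ, List.append_assoc]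

@[simp] lemma wpow_one (x : List A) : wpow x 1 = x := by simp [wpow]

lemma wpow_succ' (x : List A) (k : ℕ) : wpow x (k + 1) = wpow x k ++ x := by
  rw [wpow_add, wpow_one]

@[simp] lemma wpow_nil (k : ℕ) : wpow ([] : List A) k = [] := by
  induction k with
  | zero => rfl
  | succ k ih => rw [wpow_succ, ih]; rfl

@[simp] lemma length_wpow (x : List A) (k : ℕ) : (wpow x k).length = k * x.length := by
  induction k with
  | zero => simp
  | succ k ih => rw [wpow_succ, List.length_append, ih]; ring

lemma wpow_period (x : List A) (N k : ℕ) (h : k + x.length < N * x.length) :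
    (wpow x N)[k]? = (wpow x N)[k + x.length]? := by
  obtain ⟨M, rfl⟩ : ∃ M, N = M + 1 := by
    rcases N with _ | M
    · simp at h
    · exact ⟨M, rfl⟩
  have h' : k < M * x.length := by
    have : (M + 1) * x.length = M * x.length + x.length := by ring
    omega
  have e1 : (wpow x (M + 1))[k]? = (wpow x M)[k]? := by
    rw [wpow_succ', List.getElem?_append_left]
    simpa using h'
  have e2 : (wpow x (M + 1))[k + x.length]? = (wpow x M)[k]? := by
    rw [wpow_succ, List.getElem?_append_right (by omega)]
    congr 1
    omega
  rw [e1, e2]

/-- the factor of length `l` of the infinite word `x`, starting at position `i` -/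
def seg (x : ℕ → A) (i l : ℕ) : List A := (List.range' i l).map x

@[simp] lemma length_seg (x : ℕ → A) (i l : ℕ) : (seg x i l).length = l := by simp [seg]

lemma seg_add (x : ℕ → A) (i a b : ℕ) : seg x i (a + b) = seg x i a ++ seg x (i + a) b := by
  simp [seg, ← List.range'_append_1]

lemma seg_succ (x : ℕ → A) (i a : ℕ) : seg x i (a + 1) = seg x i a ++ [x (i + a)] := by
  rw [seg_add]; simp [seg]

lemma getElem?_seg (x : ℕ → A) (i l k : ℕ) (h : k < l) : (seg x i l)[k]? = some (x (i + k)) := by
  simp [seg, h]

/-- both parts of a splitting of a segment are segments -/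
lemma seg_split {x : ℕ → A} {i l : ℕ} {a b : List A} (h : seg x i l = a ++ b) :
    a = seg x i a.length ∧ b = seg x (i + a.length) b.length := by
  have hl : l = a.length + b.length := by
    have := congrArg List.length h
    simpa using this
  rw [hl, seg_add] at h
  exact ⟨(List.append_inj_left h (by simp)).symm, (List.append_inj_right h (by simp)).symm⟩

end basic

/-- The infinite word `x` has all its repetitions of exponent at most `N - 1/D`. -/
def Bounded {A : Type u} (x : ℕ → A) (D N : ℕ) : Prop :=
  ∀ i q o : ℕ, 1 ≤ q → (∀ k, k + q < o → x (i + k) = x (i + k + q)) → D * o + q ≤ D * N * q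

section main
variable {A : Type u}

/-- Periodicity of the overlap of a factor of `x` with a power. -/
lemma overlap {x : ℕ → A} {p v s al be : List A} {N i l : ℕ}
    (h : p ++ wpow v N ++ s = al ++ seg x i l ++ be) (d o : ℕ)
    (hd : p.length ≤ al.length + d) (ho : d + o ≤ l)
    (hend : al.length + d + o ≤ p.length + N * v.length) :
    ∀ k, k + v.length < o → x (i + d + k) = x (i + d + k + v.length) := by
  intro k hk
  have key : ∀ j, j < o → (wpow v N)[al.length + d - p.length + j]? = some (x (i + d + j)) := by
    intro j hj
    have e1 : (p ++ wpow v N ++ s)[al.length + d + j]?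
        = (wpow v N)[al.length + d - p.length + j]? := by
      rw [List.append_assoc, List.getElem?_append_right (by omega),
        List.getElem?_append_left (by simp; omega)]
      congr 1
      omega
    have e2 : (al ++ seg x i l ++ be)[al.length + d + j]? = some (x (i + d + j)) := by
      rw [List.append_assoc, List.getElem?_append_right (by omega),
        List.getElem?_append_left (by simp; omega), getElem?_seg _ _ _ _ (by omega)]
      congr 2
      omega
    rw [← e1, h, e2]
  have h1 := key k (by omega)
  have h2 := key (k + v.length) hk
  have h3 := wpow_period v N (al.length + d - p.length + k) (by omega)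
  rw [h1, show al.length + d - p.length + k + v.length
    = al.length + d - p.length + (k + v.length) by ring, h2] at h3
  have := Option.some.inj h3
  rw [this]
  congr 1
  omega

lemma left_shift {x : ℕ → A} {X Y al be p : List A} {i l : ℕ}
    (h : X ++ Y = al ++ (seg x i l ++ be)) (hY : be.length ≤ Y.length)
    (hp : p.length < al.length) (hpX : p.length < X.length) :
    ∃ al' i' l', p ++ Y = al' ++ seg x i' l' ++ be ∧ al'.length < al.length := by
  rcases List.append_eq_append_iff.mp h with ⟨a', h1, h2⟩ | ⟨c', h1, h2⟩
  · refine ⟨p ++ a', i, l, ?_, ?_⟩
    · rw [h2]; simp [List.append_assoc]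
    · rw [h1]; simp; omega
  · rcases List.append_eq_append_iff.mp h2 with ⟨a'', h3, h4⟩ | ⟨b'', h3, h4⟩
    · have : a''.length = 0 := by
        have := congrArg List.length h4
        simp at this; omega
      have ha : a'' = [] := List.length_eq_zero_iff.mp this
      subst ha
      refine ⟨p, i, 0, ?_, hp⟩
      simp at h4
      simp [h4, seg]
    · refine ⟨p, i + c'.length, b''.length, ?_, hp⟩
      rw [← (seg_split h3).2, h4, List.append_assoc]

lemma right_shift {x : ℕ → A} {X Y al be s : List A} {i l : ℕ}
    (h : X ++ Y = (al ++ seg x i l) ++ be) (hX : al.length ≤ X.length)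
    (hs : s.length < be.length) (hsY : s.length < Y.length) :
    ∃ i' l' be', X ++ s = al ++ seg x i' l' ++ be' ∧ be'.length < be.length := by
  rcases List.append_eq_append_iff.mp h with ⟨a', h1, h2⟩ | ⟨c', h1, h2⟩
  · rcases List.append_eq_append_iff.mp h1 with ⟨a'', h3, h4⟩ | ⟨b'', h3, h4⟩
    · refine ⟨i, a''.length, s, ?_, hs⟩
      rw [h3, ← (seg_split h4).1]
    · have : b''.length = 0 := by
        have := congrArg List.length h3
        simp at this; omega
      have hb : b'' = [] := List.length_eq_zero_iff.mp this
      subst hb
      refine ⟨i, 0, s, ?_, hs⟩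
      simp at h3
      simp [h3, seg]
  · refine ⟨i, l, c' ++ s, ?_, ?_⟩
    · rw [h1]; simp [List.append_assoc]
    · rw [h2]; simp; omega

/-- the main counting lemma -/
theorem main {n m D : ℕ} (hn : 1 ≤ n) (hm : 1 ≤ m) {x : ℕ → A} (hx : Bounded x D (n + m))
    (w : List A) (z : List A)
    (hz : Relation.ReflTransGen (Step n m) w z) :
    ∀ (al be : List A) (i l : ℕ), z = al ++ seg x i l ++ be →
      z.length ≤ w.length + (2 * D * (n + m) + 1) * (al.length + be.length) ^ 2 := by
  induction hz with
  | refl => intro al be i l _; omega
  | @tail y z hy hyz ih =>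
    intro al be i l hz
    obtain ⟨p, v, s, rfl, rfl⟩ := hyz
    rcases Nat.eq_zero_or_pos v.length with hv0 | hv
    · have : v = [] := List.length_eq_zero_iff.mp hv0
      subst this
      simp only [wpow_nil] at hz ih ⊢
      exact ih al be i l hz
    obtain ⟨N, hN⟩ : ∃ N, N = n + m := ⟨_, rfl⟩
    rw [← hN] at hz hx ih ⊢
    have hlen := congrArg List.length hz
    simp only [List.length_append, length_wpow, length_seg] at hlen
    have hNq : N * v.length = n * v.length + m * v.length := by rw [hN]; ring
    have hnq : v.length ≤ n * v.length := Nat.le_mul_of_pos_left _ hn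
    have hmq : v.length ≤ m * v.length := Nat.le_mul_of_pos_left _ hm
    have hmD : m * v.length ≤ N * v.length := by omega
    have eDN : D * N * v.length = D * (N * v.length) := by ring
    have hfin : ∀ j q' : ℕ, 1 ≤ j → q' ≤ D * j → 
        (2 * D * N + 1) * (j - 1) ^ 2 + N * q' ≤ (2 * D * N + 1) * j ^ 2 := by
      intro j q' hj hq
      obtain ⟨r, rfl⟩ : ∃ r, j = r + 1 := ⟨j - 1, by omega⟩
      simp only [Nat.add_sub_cancel]
      have h1 : N * q' ≤ N * (D * (r + 1)) := Nat.mul_le_mul_left N hq
      nlinarith [Nat.zero_le (D * N * r), Nat.zero_le (D * N), Nat.zero_le r]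
    by_cases hL : p.length < al.length
    · by_cases hR : s.length < be.length
      · -- the power covers the whole factor
        have ho := overlap hz 0 l (by omega) (by omega) (by omega)
        simp only [add_zero] at ho
        have h1 := hx i v.length l hv ho
        have h2 : N * v.length ≤ al.length + l + be.length := by omega
        have h3 : v.length ≤ D * (al.length + be.length) := by
          have : D * (N * v.length) ≤ D * (al.length + l + be.length) := Nat.mul_le_mul_left D h2
          have e2 : D * (al.length + l + be.length) = D * (al.length + be.length) + D * l := by ring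
          omega
        simp only [List.length_append, length_wpow]
        have hD : 1 ≤ D := by
          rcases Nat.eq_zero_or_pos D with h | h
          · subst h; simp at h3; simp [h3] at hv
          · exact h
        have h4 : l ≤ N * v.length := by
          have : D * l ≤ D * (N * v.length) := by omega
          exact Nat.le_of_mul_le_mul_left this hD
        have h5 : N * v.length ≤ N * (D * (al.length + be.length)) := Nat.mul_le_mul_left N h3
        have h6 : (al.length + be.length) ≤ (al.length + be.length) ^ 2 := by nlinarith
        have h7 : p.length + N * v.length + s.length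
            ≤ (al.length + be.length) + N * (D * (al.length + be.length)) := by omega
        calc p.length + N * v.length + s.length
              ≤ (al.length + be.length) + N * (D * (al.length + be.length)) := h7
          _ = (D * N + 1) * (al.length + be.length) := by ring
          _ ≤ (2 * D * N + 1) * (al.length + be.length) ^ 2 := by
            apply Nat.mul_le_mul _ h6
            have : D * N ≤ 2 * D * N := by nlinarith [Nat.zero_le (D * N)]
            omega
          _ ≤ w.length + (2 * D * N + 1) * (al.length + be.length) ^ 2 := Nat.le_add_left _ _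
      · -- left case
        have hR' : be.length ≤ s.length := Nat.le_of_not_lt hR
        have hz' : (p ++ wpow v m) ++ (wpow v n ++ s) = al ++ (seg x i l ++ be) := by
          have e : wpow v N = wpow v m ++ wpow v n := by rw [hN, Nat.add_comm, wpow_add]
          rw [← List.append_assoc al, ← hz, e]
          simp [List.append_assoc]
        obtain ⟨al', i', l', hy', hlt⟩ := left_shift (p := p) hz'
          (by simp; omega) hL (by simp; omega)
        have hIH := ih al' be i' l' (by rw [List.append_assoc]; exact hy')
        -- bound on the period
        have hq : v.length ≤ D * al.length := by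
          rcases Nat.lt_or_ge (p.length + N * v.length) al.length with hc | hc
          · -- power entirely to the left; q ≤ |al| ≤ D |al|
            have h1 := hx i v.length 0 hv (by intro k hk; omega)
            have hD : 1 ≤ D := by
              rcases Nat.eq_zero_or_pos D with h | h
              · subst h; simp at h1; simp [h1] at hv
              · exact h
            have : al.length ≤ D * al.length := Nat.le_mul_of_pos_left _ hD
            omega
          · obtain ⟨o, ho⟩ : ∃ o, o = p.length + N * v.length - al.length := ⟨_, rfl⟩
            have hov := overlap hz 0 o (by omega) (by omega) (by omega)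
            simp only [add_zero] at hov
            have h1 := hx i v.length o hv hov
            have h2 : N * v.length ≤ al.length + o := by omega
            have h3 : D * (N * v.length) ≤ D * (al.length + o) := Nat.mul_le_mul_left D h2
            have e2 : D * (al.length + o) = D * al.length + D * o := by ring
            omega
        simp only [List.length_append, length_wpow] at hIH ⊢
        have h8 := hfin (al.length + be.length) v.length (by omega)
          (le_trans hq (Nat.mul_le_mul_left D (Nat.le_add_right _ _)))
        have h9 : (al'.length + be.length) ^ 2 ≤ (al.length + be.length - 1) ^ 2 :=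
          Nat.pow_le_pow_left (by omega) 2
        have h10 : (2 * D * N + 1) * (al'.length + be.length) ^ 2
            ≤ (2 * D * N + 1) * (al.length + be.length - 1) ^ 2 := Nat.mul_le_mul_left _ h9
        omega
    · -- right case
      have hL' : al.length ≤ p.length := Nat.le_of_not_lt hL
      have hR : s.length < be.length := by
        by_contra hR
        have hov := overlap hz (p.length - al.length) (N * v.length)
          (by omega) (by omega) (by omega)
        have h1 := hx (i + (p.length - al.length)) v.length (N * v.length) hv hov
        omega
      have hz' : (p ++ wpow v n) ++ (wpow v m ++ s) = (al ++ seg x i l) ++ be := by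
        have e : wpow v N = wpow v n ++ wpow v m := by rw [hN, wpow_add]
        rw [← hz, e]
        simp [List.append_assoc]
      obtain ⟨i', l', be', hy', hlt⟩ := right_shift (s := s) hz'
        (by simp; omega) hR (by simp; omega)
      have hIH := ih al be' i' l' hy'
      have hq : v.length ≤ D * be.length := by
        rcases Nat.lt_or_ge (al.length + l) p.length with hc | hc
        · have h1 := hx i v.length 0 hv (by intro k hk; omega)
          have hD : 1 ≤ D := by
            rcases Nat.eq_zero_or_pos D with h | h
            · subst h; simp at h1; simp [h1] at hv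
            · exact h
          have : be.length ≤ D * be.length := Nat.le_mul_of_pos_left _ hD
          omega
        · obtain ⟨o, ho⟩ : ∃ o, o = al.length + l - p.length := ⟨_, rfl⟩
          have hov := overlap hz (p.length - al.length) o (by omega) (by omega) (by omega)
          have h1 := hx _ v.length o hv hov
          have h2 : N * v.length ≤ be.length + o := by omega
          have h3 : D * (N * v.length) ≤ D * (be.length + o) := Nat.mul_le_mul_left D h2
          have e2 : D * (be.length + o) = D * be.length + D * o := by ring
          omega
      simp only [List.length_append, length_wpow] at hIH ⊢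
      have h8 := hfin (al.length + be.length) v.length (by omega)
        (le_trans hq (Nat.mul_le_mul_left D (Nat.le_add_left _ _)))
      have h9 : (al.length + be'.length) ^ 2 ≤ (al.length + be.length - 1) ^ 2 :=
        Nat.pow_le_pow_left (by omega) 2
      have h10 : (2 * D * N + 1) * (al.length + be'.length) ^ 2
          ≤ (2 * D * N + 1) * (al.length + be.length - 1) ^ 2 := Nat.mul_le_mul_left _ h9
      omega

end main

/-- A regular language has bounded completions. -/
lemma bounded_completion {A : Type u} {K : Language A} (h : K.IsRegular) :
    ∃ B : ℕ, ∀ u v : List A, u ++ v ∈ K → ∃ v' : List A, v'.length ≤ B ∧ u ++ v' ∈ K := by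
  have hf := h.finite_range_leftQuotient
  classical
  have : ∀ Q : Set.range K.leftQuotient, ∃ B : ℕ, (∃ v, v ∈ (Q : Language A)) →
      ∃ v, v ∈ (Q : Language A) ∧ v.length ≤ B := by
    intro Q
    by_cases hQ : ∃ v, v ∈ (Q : Language A)
    · obtain ⟨v, hv⟩ := hQ
      exact ⟨v.length, fun _ => ⟨v, hv, le_rfl⟩⟩
    · exact ⟨0, fun h => absurd h hQ⟩
  choose B hB using this
  have := hf.fintype
  refine ⟨Finset.univ.sup B, ?_⟩
  intro u v huv
  obtain ⟨v', hv', hle⟩ := hB ⟨K.leftQuotient u, ⟨u, rfl⟩⟩ ⟨v, huv⟩
  exact ⟨v', le_trans hle (Finset.le_sup (f := B) (Finset.mem_univ _)), hv'⟩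

/-- The non-regularity criterion. -/
theorem not_regular {A : Type u} {n m D : ℕ} (hn : 1 ≤ n) (hm : 1 ≤ m) {x : ℕ → A}
    (hx : Bounded x D (n + m)) (w al : List A)
    (hpre : ∀ l, ∃ v, al ++ seg x 0 l ++ v ∈ L n m w) : ¬ (L n m w).IsRegular := by
  intro hreg
  obtain ⟨B, hB⟩ := bounded_completion hreg
  obtain ⟨l, hl⟩ : ∃ l, l = w.length + (2 * D * (n + m) + 1) * (al.length + B) ^ 2 + 1 := ⟨_, rfl⟩
  obtain ⟨v, hv⟩ := hpre l
  obtain ⟨v', hv'l, hv'⟩ := hB _ _ hv
  have h1 := main hn hm hx w _ hv' al v' 0 l rfl
  simp only [List.length_append, length_seg] at h1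
  have h2 : (al.length + v'.length) ^ 2 ≤ (al.length + B) ^ 2 := Nat.pow_le_pow_left (by omega) 2
  have h3 : (2 * D * (n + m) + 1) * (al.length + v'.length) ^ 2
      ≤ (2 * D * (n + m) + 1) * (al.length + B) ^ 2 := Nat.mul_le_mul_left _ h2
  omega

section unary
variable {A : Type u}

lemma wpow_replicate (a : A) (j r : ℕ) :
    wpow (List.replicate j a) r = List.replicate (r * j) a := by
  induction r with
  | zero => simp
  | succ r ihr =>
    rw [wpow_succ, ihr, List.replicate_append_replicate]
    congr 1
    ring

/-- The language of a word with one letter. -/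
lemma unary {n m : ℕ} (hn : 1 ≤ n) (a : A) (k : ℕ) (z : List A) :
    z ∈ L n m (List.replicate k a) ↔
      ∃ j, z = List.replicate (k + j * m) a ∧ (k < n → j = 0) := by
  constructor
  · intro hz
    change Relation.ReflTransGen (Step n m) _ z at hz
    induction hz with
    | refl => exact ⟨0, by simp, fun _ => rfl⟩
    | @tail y z _ hyz ih =>
      obtain ⟨j, hj, hk⟩ := ih
      obtain ⟨p, v, s, h1, h2⟩ := hyz
      rw [h1] at hj
      have hpv := List.append_eq_replicate_iff.mp hj
      have hpv2 := List.append_eq_replicate_iff.mp hpv.2.1
      have hp := hpv2.2.1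
      have hvn := hpv2.2.2
      have hs := hpv.2.2
      have hv : v = List.replicate v.length a := by
        obtain ⟨n', rfl⟩ : ∃ n', n = n' + 1 := ⟨n - 1, by omega⟩
        rw [wpow_succ] at hvn
        exact (List.append_eq_replicate_iff.mp hvn).2.1
      have hlen : p.length + n * v.length + s.length = k + j * m := by
        have := hpv.1
        simp at this
        omega
      refine ⟨j + v.length, ?_, ?_⟩
      · rw [h2, hp, hs, hv, wpow_replicate]
        simp only [List.length_replicate, List.replicate_append_replicate]
        congr 1
        have : (n + m) * v.length = n * v.length + m * v.length := by ring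
        have e : (j + v.length) * m = j * m + m * v.length := by ring
        omega
      · intro hk0
        have h3 := hk hk0
        subst h3
        by_contra hne
        have : 1 ≤ v.length := by omega
        have : n * 1 ≤ n * v.length := Nat.mul_le_mul_left n this
        omega
  · rintro ⟨j, rfl, hk⟩
    by_cases h0 : k < n
    · have := hk h0
      subst this
      simpa using self_mem_L n m (List.replicate k a)
    · clear hk
      induction j with
      | zero => simpa using self_mem_L n m (List.replicate k a)
      | succ j ih =>
        refine Relation.ReflTransGen.tail ih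
          ⟨[], List.replicate 1 a, List.replicate (k + j * m - n) a, ?_, ?_⟩
        · rw [wpow_replicate, List.nil_append, List.replicate_append_replicate]
          congr 1
          omega
        · rw [wpow_replicate, List.nil_append, List.replicate_append_replicate]
          congr 1
          have : (j + 1) * m = j * m + m := by ring
          omega

lemma unary_regular {n m : ℕ} (hn : 1 ≤ n) (hm : 1 ≤ m) (a : A) (k : ℕ) :
    (L n m (List.replicate k a)).IsRegular := by
  classical
  apply Language.IsRegular.of_finite_range_leftQuotient
  let T : Set ℕ := {r | ∃ j, r = k + j * m ∧ (k < n → j = 0)}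
  let Q : ℕ → Language A := fun r => {z | ∃ s, r + s ∈ T ∧ z = List.replicate s a}
  have hT : ∀ r, k + 1 ≤ r → (r + m ∈ T ↔ r ∈ T) := by
    intro r hr
    constructor
    · rintro ⟨j, h1, h2⟩
      rcases j with _ | j
      · simp at h1; omega
      · refine ⟨j, ?_, fun h => absurd (h2 h) (by omega)⟩
        have : (j + 1) * m = j * m + m := by ring
        omega
    · rintro ⟨j, h1, h2⟩
      refine ⟨j + 1, ?_, ?_⟩
      · have : (j + 1) * m = j * m + m := by ring
        omega
      · intro h
        have := h2 h
        subst this
        simp at h1
        omega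
  have hQ : ∀ r, k + 1 ≤ r → Q (r + m) = Q r := by
    intro r hr
    ext z
    constructor
    · rintro ⟨s, h1, h2⟩
      refine ⟨s, ?_, h2⟩
      rw [← hT (r + s) (by omega)]
      rwa [show r + s + m = r + m + s by ring]
    · rintro ⟨s, h1, h2⟩
      refine ⟨s, ?_, h2⟩
      rw [← hT (r + s) (by omega)] at h1
      rwa [show r + m + s = r + s + m by ring]
  have hQ' : ∀ r, ∃ r', r' < k + 1 + m ∧ Q r = Q r' := by
    intro r
    induction r using Nat.strong_induction_on with
    | _ r ih =>
      by_cases h : r < k + 1 + m
      · exact ⟨r, h, rfl⟩
      · obtain ⟨r', h1, h2⟩ := ih (r - m) (by omega)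
        refine ⟨r', h1, ?_⟩
        rw [← h2, ← hQ (r - m) (by omega)]
        congr 1
        omega
  have hfin : (insert (0 : Language A) (Q '' Set.Iio (k + 1 + m))).Finite :=
    Set.Finite.insert _ (Set.Finite.image _ (Set.finite_Iio _))
  refine hfin.subset ?_
  rintro _ ⟨u, rfl⟩
  by_cases hu : u = List.replicate u.length a
  · right
    obtain ⟨r', h1, h2⟩ := hQ' u.length
    refine ⟨r', h1, ?_⟩
    rw [← h2]
    ext z
    rw [Language.mem_leftQuotient, unary hn]
    constructor
    · rintro ⟨s, ⟨j, h3, h4⟩, rfl⟩
      refine ⟨j, ?_, h4⟩
      conv_lhs => rw [hu]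
      rw [List.replicate_append_replicate, h3]
    · rintro ⟨j, h3, h4⟩
      have h5 := List.append_eq_replicate_iff.mp h3
      refine ⟨z.length, ⟨j, h5.1, h4⟩, h5.2.2⟩
  · left
    ext z
    rw [Language.mem_leftQuotient, unary hn]
    constructor
    · rintro ⟨j, h3, h4⟩
      exact hu (List.append_eq_replicate_iff.mp h3).2.1
    · intro h
      exact absurd h (Language.notMem_zero _)

/-- If all letters of `w` are equal, then `L(w)` is regular. -/
lemma one_letter_regular {n m : ℕ} (hn : 1 ≤ n) (hm : 1 ≤ m) (w : List A)
    (h : ∀ a ∈ w, ∀ b ∈ w, a = b) : (L n m w).IsRegular := by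
  rcases w with _ | ⟨a, w'⟩
  · by_cases hA : Nonempty A
    · obtain ⟨a⟩ := hA
      have := unary_regular hn hm a 0
      simpa using this
    · have hE : IsEmpty A := not_nonempty_iff.mp hA
      apply Language.IsRegular.of_finite_range_leftQuotient
      refine (Set.finite_singleton (L n m ([] : List A))).subset ?_
      rintro _ ⟨u, rfl⟩
      rcases u with _ | ⟨c, _⟩
      · rfl
      · exact hE.elim c
  · have : (a :: w') = List.replicate (a :: w').length a := by
      rw [List.eq_replicate_iff]
      exact ⟨rfl, fun b hb => h b hb a (by simp)⟩
    rw [this]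
    exact unary_regular hn hm a _

end unary

end Pool.Agent.Helper84.CopyLang
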