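import Mathlib

set_option autoImplicit false

/-!
Abstract part of the OneMax (1+1)-elitist analysis: lower bound and additive drift theorem.
-/

namespace Pool.Agent.Helper84.OneMaxAbs

open scoped ENNReal

/-- one step of the chain -/
noncomputable def ker {n : ℕ} (step : (Fin n → Bool) → PMF ((Fin n → Bool) × Bool))
    (z : Fin n → Bool) (x : Fin n → Bool) : PMF (Fin n → Bool) :=
  (step x).bind (fun yb =>
    PMF.pure (if (Finset.univ.filter (fun i => x i = z i)).card
          < (Finset.univ.filter (fun i => yb.1 i = z i)).card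
        ∨ ((Finset.univ.filter (fun i => x i = z i)).card
          = (Finset.univ.filter (fun i => yb.1 i = z i)).card ∧ yb.2 = true)
      then yb.1 else x))

section chain
variable {S : Type} [Fintype S] [DecidableEq S]

noncomputable def iter (K : S → PMF S) (k : ℕ) (μ : PMF S) : PMF S :=
  Nat.iterate (fun p : PMF S => p.bind K) k μ

/-- expectation -/
noncomputable def Ex (μ : PMF S) (V : S → ℝ≥0∞) : ℝ≥0∞ := ∑ x, μ x * V x

lemma Ex_bind (μ : PMF S) (K : S → PMF S) (V : S → ℝ≥0∞) :
    Ex (μ.bind K) V = ∑ x, μ x * Ex (K x) V := by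
  unfold Ex
  simp only [PMF.bind_apply, tsum_fintype]
  calc ∑ y, (∑ x, μ x * K x y) * V y = ∑ y, ∑ x, μ x * K x y * V y := by
        refine Finset.sum_congr rfl fun y _ => ?_
        rw [Finset.sum_mul]
    _ = ∑ x, ∑ y, μ x * K x y * V y := Finset.sum_comm
    _ = _ := by
        refine Finset.sum_congr rfl fun x _ => ?_
        rw [Finset.mul_sum]
        refine Finset.sum_congr rfl fun y _ => ?_
        ring

lemma iter_succ (K : S → PMF S) (k : ℕ) (μ : PMF S) :
    iter K (k + 1) μ = iter K k (μ.bind K) := rfl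

lemma iter_succ' (K : S → PMF S) (k : ℕ) (μ : PMF S) :
    iter K (k + 1) μ = (iter K k μ).bind K := by
  unfold iter
  rw [Function.iterate_succ_apply']

lemma sum_one (μ : PMF S) : ∑ x, μ x = 1 := by
  have := μ.tsum_coe
  rwa [tsum_fintype] at this

/-- additive drift theorem -/
theorem drift (K : S → PMF S) (z : S) (V : S → ℝ≥0∞) (hz : K z = PMF.pure z)
    (hV : ∀ x, x ≠ z → 1 + Ex (K x) V ≤ V x) (μ : PMF S) :
    ∑' k : ℕ, (1 - (iter K k μ) z) ≤ Ex μ V := by
  have key : ∀ (ν : PMF S), (1 - ν z) + Ex (ν.bind K) V ≤ Ex ν V := by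
    intro ν
    have h1 : 1 - ν z = ∑ x ∈ Finset.univ.erase z, ν x := by
      have h2 : ν z + ∑ x ∈ Finset.univ.erase z, ν x = 1 := by
        rw [Finset.add_sum_erase _ _ (Finset.mem_univ z)]
        exact sum_one ν
      have h3 : ν z ≠ ∞ := PMF.apply_ne_top ν z
      rw [← h2]
      exact ENNReal.add_sub_cancel_left h3
    have hpure : Ex (PMF.pure z) V = V z := by
      unfold Ex
      simp [PMF.pure_apply]
    rw [Ex_bind, h1]
    unfold Ex
    rw [← Finset.add_sum_erase _ _ (Finset.mem_univ z),
      ← Finset.add_sum_erase Finset.univ (fun x => ν x * V x) (Finset.mem_univ z), hz]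
    have h4 : (∑ x, (PMF.pure z) x * V x) = V z := hpure
    rw [h4]
    calc ∑ x ∈ Finset.univ.erase z, ν x
          + (ν z * V z + ∑ x ∈ Finset.univ.erase z, ν x * ∑ y, (K x) y * V y)
        = ν z * V z + ∑ x ∈ Finset.univ.erase z, ν x * (1 + ∑ y, (K x) y * V y) := by
          simp only [mul_add, mul_one, Finset.sum_add_distrib]
          ring
      _ ≤ ν z * V z + ∑ x ∈ Finset.univ.erase z, ν x * V x := by
          gcongr with x hx
          exact hV x (Finset.ne_of_mem_erase hx)
  have hfin : ∀ N : ℕ, ∑ k ∈ Finset.range N, (1 - (iter K k μ) z) + Ex (iter K N μ) V ≤ Ex μ V := by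
    intro N
    induction N with
    | zero => simp [iter]
    | succ N ih =>
      rw [Finset.sum_range_succ, iter_succ']
      calc ∑ k ∈ Finset.range N, (1 - (iter K k μ) z) + (1 - (iter K N μ) z)
            + Ex ((iter K N μ).bind K) V
          = ∑ k ∈ Finset.range N, (1 - (iter K k μ) z)
            + ((1 - (iter K N μ) z) + Ex ((iter K N μ).bind K) V) := by ring
        _ ≤ ∑ k ∈ Finset.range N, (1 - (iter K k μ) z) + Ex (iter K N μ) V := by
            gcongr
            exact key _
        _ ≤ _ := ih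
  rw [ENNReal.tsum_eq_iSup_nat]
  refine iSup_le fun N => ?_
  exact le_trans (le_add_right le_rfl) (hfin N)

end chain

lemma iter_eq_bind {S : Type} [Fintype S] [DecidableEq S] (K : S → PMF S) (k : ℕ) (μ : PMF S) :
    iter K k μ = μ.bind (fun y => iter K k (PMF.pure y)) := by
  induction k generalizing μ with
  | zero => simp [iter]
  | succ k ih =>
    rw [iter_succ, ih (μ.bind K), PMF.bind_bind]
    congr 1
    funext y
    rw [iter_succ, PMF.pure_bind, ← ih (K y)]

/-- The lower bound: every algorithm needs linear time. -/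
theorem lower (n : ℕ) (init : PMF (Fin n → Bool))
    (step : (Fin n → Bool) → PMF ((Fin n → Bool) × Bool)) :
    ∃ z : Fin n → Bool,
      ENNReal.ofReal ((1 / 2 : ℝ) * (n : ℝ)) ≤ 1 + ∑' k : ℕ, (1 - (iter (ker step z) k init) z) := by
  classical
  have hF : ∀ k : ℕ, ∀ x : Fin n → Bool,
      ∑ z : Fin n → Bool, (iter (ker step z) k (PMF.pure x)) z ≤ (2 : ℝ≥0∞) ^ k := by
    intro k
    induction k with
    | zero =>
      intro x
      simp only [iter, Function.iterate_zero, id_eq, _root_.pow_zero]
      exact le_of_eq (sum_one (PMF.pure x))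
    | succ k ih =>
      intro x
      have h1 : ∀ z : Fin n → Bool, (iter (ker step z) (k + 1) (PMF.pure x)) z
          ≤ ∑ yb, (step x) yb * ((iter (ker step z) k (PMF.pure yb.1)) z
            + (iter (ker step z) k (PMF.pure x)) z) := by
        intro z
        rw [iter_succ, PMF.pure_bind, iter_eq_bind, ker, PMF.bind_bind, PMF.bind_apply,
          tsum_fintype]
        refine Finset.sum_le_sum fun yb _ => ?_
        gcongr
        rw [PMF.pure_bind]
        split
        · exact le_add_right le_rfl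
        · exact le_add_left le_rfl
      calc ∑ z : Fin n → Bool, (iter (ker step z) (k + 1) (PMF.pure x)) z
          ≤ ∑ z : Fin n → Bool, ∑ yb, (step x) yb * ((iter (ker step z) k (PMF.pure yb.1)) z
            + (iter (ker step z) k (PMF.pure x)) z) := Finset.sum_le_sum fun z _ => h1 z
        _ = ∑ yb, (step x) yb * (∑ z : Fin n → Bool, (iter (ker step z) k (PMF.pure yb.1)) z
            + ∑ z : Fin n → Bool, (iter (ker step z) k (PMF.pure x)) z) := by
            rw [Finset.sum_comm]
            refine Finset.sum_congr rfl fun yb _ => ?_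
            rw [← Finset.mul_sum, Finset.sum_add_distrib]
        _ ≤ ∑ yb, (step x) yb * (2 ^ k + 2 ^ k) := by
            gcongr with yb _
            · exact ih _
            · exact ih _
        _ = 2 ^ (k + 1) := by
            rw [← Finset.sum_mul, sum_one, one_mul, pow_succ]
            ring
  have hG : ∀ k : ℕ, ∑ z : Fin n → Bool, (iter (ker step z) k init) z ≤ (2 : ℝ≥0∞) ^ k := by
    intro k
    calc ∑ z : Fin n → Bool, (iter (ker step z) k init) z
        = ∑ z : Fin n → Bool, ∑ x, init x * (iter (ker step z) k (PMF.pure x)) z := by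
          refine Finset.sum_congr rfl fun z _ => ?_
          rw [iter_eq_bind, PMF.bind_apply, tsum_fintype]
      _ = ∑ x, init x * ∑ z : Fin n → Bool, (iter (ker step z) k (PMF.pure x)) z := by
          rw [Finset.sum_comm]
          refine Finset.sum_congr rfl fun x _ => ?_
          rw [Finset.mul_sum]
      _ ≤ ∑ x, init x * 2 ^ k := by
          gcongr with x _
          exact hF k x
      _ = 2 ^ k := by rw [← Finset.sum_mul, sum_one, one_mul]
  have hH : ∀ k, k < n → (2 : ℝ≥0∞) ^ n / 2 ≤ ∑ z : Fin n → Bool, (1 - (iter (ker step z) k init) z) := by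
    intro k hk
    have h1 : (2 : ℝ≥0∞) ^ n ≤ ∑ z : Fin n → Bool, (1 - (iter (ker step z) k init) z) + 2 ^ k := by
      calc (2 : ℝ≥0∞) ^ n = ∑ z : Fin n → Bool, 1 := by simp
        _ ≤ ∑ z : Fin n → Bool, ((1 - (iter (ker step z) k init) z) + (iter (ker step z) k init) z) :=
          Finset.sum_le_sum fun z _ => le_tsub_add
        _ = ∑ z : Fin n → Bool, (1 - (iter (ker step z) k init) z)
            + ∑ z : Fin n → Bool, (iter (ker step z) k init) z := Finset.sum_add_distrib
        _ ≤ _ := by gcongr; exact hG k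
    have h2 : (2 : ℝ≥0∞) ^ k ≤ 2 ^ n / 2 := by
      rw [ENNReal.le_div_iff_mul_le (by simp) (by simp), ← pow_succ]
      exact pow_le_pow_right₀ (by norm_num) hk
    have h3 : (2 : ℝ≥0∞) ^ n / 2 + 2 ^ n / 2 ≤
        ∑ z : Fin n → Bool, (1 - (iter (ker step z) k init) z) + 2 ^ n / 2 := by
      rw [ENNReal.add_halves]
      exact le_trans h1 (by gcongr)
    have h4 : (2 : ℝ≥0∞) ^ n / 2 ≠ ∞ := by
      have : (2 : ℝ≥0∞) ^ n ≠ ∞ := by simp
      exact ne_of_lt (lt_of_le_of_lt (ENNReal.half_le_self) (lt_top_iff_ne_top.mpr this))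
    exact (ENNReal.add_le_add_iff_right h4).mp h3
  have hI : ∑ z : Fin n → Bool, ((n : ℝ≥0∞) / 2) ≤
      ∑ z : Fin n → Bool, ∑ k ∈ Finset.range n, (1 - (iter (ker step z) k init) z) := by
    rw [Finset.sum_comm]
    calc ∑ z : Fin n → Bool, ((n : ℝ≥0∞) / 2) = ∑ k ∈ Finset.range n, (2 : ℝ≥0∞) ^ n / 2 := by
          simp only [Finset.sum_const, Finset.card_univ, Fintype.card_fun, Fintype.card_bool,
            Fintype.card_fin, nsmul_eq_mul, Finset.card_range, Nat.cast_pow, Nat.cast_ofNat]
          rw [← mul_div_assoc, ← mul_div_assoc, mul_comm]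
      _ ≤ _ := Finset.sum_le_sum fun k hk => hH k (Finset.mem_range.mp hk)
  obtain ⟨z, _, hz⟩ := ENNReal.exists_le_of_sum_le (Finset.univ_nonempty) hI
  refine ⟨z, ?_⟩
  have h5 : ENNReal.ofReal ((1 / 2 : ℝ) * (n : ℝ)) = (n : ℝ≥0∞) / 2 := by
    rw [ENNReal.ofReal_mul (by norm_num), ENNReal.ofReal_natCast,
      ENNReal.ofReal_div_of_pos (by norm_num)]
    simp [ENNReal.div_eq_inv_mul]
  rw [h5]
  refine le_trans hz (le_trans ?_ (le_add_left le_rfl))
  exact ENNReal.sum_le_tsum _

end Pool.Agent.Helper84.OneMaxAbs
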