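import Pool.Agent.Helper84.OneMaxAbs

set_option autoImplicit false
set_option linter.unusedSectionVars false

/-!
Algorithms given by finitely many weighted moves.
-/

namespace Pool.Agent.Helper84.OneMaxAbs

open scoped ENNReal

section alg
variable {n : ℕ} {Λ : Type} [Fintype Λ]

abbrev St (n : ℕ) := Fin n → Bool

/-- weights including the idle move -/
noncomputable def wt (p : St n → Λ → ℝ) (x : St n) : Option Λ → ℝ≥0∞
  | none => ENNReal.ofReal (1 - ∑ l, p x l)
  | some l => ENNReal.ofReal (p x l)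

lemma wt_sum (p : St n → Λ → ℝ) (x : St n) (h0 : ∀ l, 0 ≤ p x l) (h1 : ∑ l, p x l ≤ 1) :
    ∑ o, wt p x o = 1 := by
  rw [Fintype.sum_option]
  simp only [wt]
  rw [← ENNReal.ofReal_sum_of_nonneg (fun l _ => h0 l), ← ENNReal.ofReal_add (by linarith)
    (Finset.sum_nonneg fun l _ => h0 l)]
  simp

/-- the move distribution -/
noncomputable def mv (p : St n → Λ → ℝ) (h0 : ∀ x l, 0 ≤ p x l) (h1 : ∀ x, ∑ l, p x l ≤ 1)
    (x : St n) : PMF (Option Λ) :=
  PMF.ofFintype (wt p x) (wt_sum p x (h0 x) (h1 x))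

/-- the step of the algorithm; ties are always accepted -/
noncomputable def stp (p : St n → Λ → ℝ) (y : St n → Λ → St n) (h0 : ∀ x l, 0 ≤ p x l)
    (h1 : ∀ x, ∑ l, p x l ≤ 1) (x : St n) : PMF (St n × Bool) :=
  (mv p h0 h1 x).bind (fun o => PMF.pure (o.elim x (y x), true))

/-- accepted result of proposing `y` at `x` -/
def res (z x y : St n) : St n :=
  if (Finset.univ.filter (fun i => x i = z i)).card
    ≤ (Finset.univ.filter (fun i => y i = z i)).card then y else x

lemma Ex_pure {S : Type} [Fintype S] [DecidableEq S] (a : S) (V : S → ℝ≥0∞) :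
    Ex (PMF.pure a) V = V a := by
  unfold Ex
  rw [Finset.sum_eq_single_of_mem a (Finset.mem_univ a)]
  · simp [PMF.pure_apply]
  · intro b _ hb
    simp [PMF.pure_apply, hb]

lemma Ex_bind' {S T : Type} [Fintype S] [Fintype T] [DecidableEq S] [DecidableEq T]
    (μ : PMF T) (K : T → PMF S) (V : S → ℝ≥0∞) :
    Ex (μ.bind K) V = ∑ x, μ x * Ex (K x) V := by
  unfold Ex
  simp only [PMF.bind_apply, tsum_fintype]
  calc ∑ y, (∑ x, μ x * K x y) * V y = ∑ y, ∑ x, μ x * K x y * V y := by
        refine Finset.sum_congr rfl fun y _ => ?_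
        rw [Finset.sum_mul]
    _ = ∑ x, ∑ y, μ x * K x y * V y := Finset.sum_comm
    _ = _ := by
        refine Finset.sum_congr rfl fun x _ => ?_
        rw [Finset.mul_sum]
        refine Finset.sum_congr rfl fun y _ => ?_
        ring

lemma ker_eq (p : St n → Λ → ℝ) (y : St n → Λ → St n) (h0 : ∀ x l, 0 ≤ p x l)
    (h1 : ∀ x, ∑ l, p x l ≤ 1) (z x : St n) :
    ker (stp p y h0 h1) z x = (mv p h0 h1 x).bind (fun o => PMF.pure (res z x (o.elim x (y x)))) := by
  unfold ker stp
  rw [PMF.bind_bind]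
  congr 1
  funext o
  rw [PMF.pure_bind]
  congr 1
  unfold res
  simp only [and_true]
  congr 1
  apply propext
  constructor
  · rintro (h | h)
    · exact h.le
    · exact h.le
  · intro h
    rcases h.lt_or_eq with h | h
    · exact Or.inl h
    · exact Or.inr h

lemma res_self (z x : St n) : res z x x = x := by
  unfold res; simp

lemma res_z (z y : St n) : res z z y = z := by
  unfold res
  split
  · rename_i h
    have h2 : (Finset.univ.filter (fun i => z i = z i)) = Finset.univ := by simp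
    rw [h2] at h
    have h3 : Finset.univ.filter (fun i => y i = z i) = Finset.univ :=
      Finset.eq_univ_of_card _ (le_antisymm (Finset.card_le_univ _) (by simpa using h))
    funext i
    have := Finset.mem_univ i
    rw [← h3, Finset.mem_filter] at this
    exact this.2
  · rfl

/-- the main abstract upper bound -/
theorem upper_abs (p : St n → Λ → ℝ) (y : St n → Λ → St n) (h0 : ∀ x l, 0 ≤ p x l)
    (h1 : ∀ x, ∑ l, p x l ≤ 1) (z : St n) (V : St n → ℝ) (hV0 : ∀ x, 0 ≤ V x)
    (hV : ∀ x, x ≠ z → 1 ≤ ∑ l, p x l * (V x - V (res z x (y x l))))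
    {Ω : Type} [Fintype Ω] [Nonempty Ω] (g : Ω → St n) (B : ℝ)
    (hB : (∑ ω, V (g ω)) ≤ B * Fintype.card Ω) :
    1 + ∑' k : ℕ, (1 - (iter (ker (stp p y h0 h1) z) k
      ((PMF.uniformOfFintype Ω).bind (fun ω => PMF.pure (g ω)))) z) ≤ ENNReal.ofReal (1 + B) := by
  classical
  have hcard : (0 : ℝ) < Fintype.card Ω := by exact_mod_cast Fintype.card_pos
  have hB0 : 0 ≤ B := by
    have : 0 ≤ B * Fintype.card Ω := le_trans (Finset.sum_nonneg fun ω _ => hV0 _) hB
    by_contra hneg
    push Not at hneg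
    nlinarith
  rw [ENNReal.ofReal_add (by norm_num) hB0, ENNReal.ofReal_one]
  gcongr
  refine le_trans (drift (ker (stp p y h0 h1) z) z (fun x => ENNReal.ofReal (V x)) ?_ ?_ _) ?_
  · rw [ker_eq]
    simp only [res_z, PMF.bind_const]
  · intro x hx
    rw [ker_eq, Ex_bind']
    simp only [Ex_pure]
    rw [Fintype.sum_option]
    simp only [mv, PMF.ofFintype_apply, wt, Option.elim, res_self]
    have e1 : ∀ l, ENNReal.ofReal (p x l) * ENNReal.ofReal (V (res z x (y x l)))
        = ENNReal.ofReal (p x l * V (res z x (y x l))) := fun l =>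
      (ENNReal.ofReal_mul (h0 x l)).symm
    simp only [e1]
    rw [← ENNReal.ofReal_mul (by linarith [h1 x]),
      ← ENNReal.ofReal_sum_of_nonneg (fun l _ => mul_nonneg (h0 x l) (hV0 _)),
      ← ENNReal.ofReal_add (mul_nonneg (by linarith [h1 x]) (hV0 _))
        (Finset.sum_nonneg fun l _ => mul_nonneg (h0 x l) (hV0 _)),
      ← ENNReal.ofReal_one, ← ENNReal.ofReal_add (by norm_num)
        (add_nonneg (mul_nonneg (by linarith [h1 x]) (hV0 _))
          (Finset.sum_nonneg fun l _ => mul_nonneg (h0 x l) (hV0 _)))]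
    apply ENNReal.ofReal_le_ofReal
    have h2 := hV x hx
    have h3 : ∑ l, p x l * (V x - V (res z x (y x l)))
        = (∑ l, p x l) * V x - ∑ l, p x l * V (res z x (y x l)) := by
      rw [Finset.sum_mul, ← Finset.sum_sub_distrib]
      refine Finset.sum_congr rfl fun l _ => ?_
      ring
    rw [h3] at h2
    linarith
  · rw [Ex_bind']
    simp only [Ex_pure, PMF.uniformOfFintype_apply]
    rw [← Finset.mul_sum, ← ENNReal.ofReal_sum_of_nonneg (fun ω _ => hV0 _)]
    calc (↑(Fintype.card Ω))⁻¹ * ENNReal.ofReal (∑ ω, V (g ω))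
        ≤ (↑(Fintype.card Ω))⁻¹ * ENNReal.ofReal (B * Fintype.card Ω) := by gcongr
      _ = ENNReal.ofReal B := by
        rw [ENNReal.ofReal_mul hB0, ENNReal.ofReal_natCast, mul_comm (ENNReal.ofReal B),
          ← mul_assoc, ENNReal.inv_mul_cancel (by simp) (by simp), one_mul]

end alg

end Pool.Agent.Helper84.OneMaxAbs
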