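import Pool.Agent.Helper84.OneMaxGoal

set_option autoImplicit false
set_option linter.unusedSectionVars false
set_option linter.unusedVariables false

/-!
Anti-concentration of the Hamming distance.
-/

namespace Pool.Agent.Helper84.OneMax

lemma central_bound (w : ℕ) : (2 * w + 1) * (Nat.centralBinom w) ^ 2 ≤ 16 ^ w := by
  induction w with
  | zero => simp
  | succ w ih =>
    have h1 := Nat.succ_mul_centralBinom_succ w
    have h2 : (w + 1) ^ 2 * ((2 * (w + 1) + 1) * (Nat.centralBinom (w + 1)) ^ 2) ≤
        (w + 1) ^ 2 * 16 ^ (w + 1) := by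
      calc (w + 1) ^ 2 * ((2 * (w + 1) + 1) * (Nat.centralBinom (w + 1)) ^ 2)
          = (2 * w + 3) * ((w + 1) * Nat.centralBinom (w + 1)) ^ 2 := by ring
        _ = 4 * ((2 * w + 3) * (2 * w + 1)) * ((2 * w + 1) * (Nat.centralBinom w) ^ 2) := by
            rw [h1]; ring
        _ ≤ 4 * (4 * (w + 1) ^ 2) * 16 ^ w := by
            apply Nat.mul_le_mul _ ih
            apply Nat.mul_le_mul_left
            nlinarith
        _ = _ := by ring
    exact Nat.le_of_mul_le_mul_left h2 (by positivity)

lemma card_hd_eq (L v : ℕ) (z : Fin L → Bool) :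
    ((Finset.univ : Finset (Fin L → Bool)).filter (fun x => hd x z = v)).card ≤ L.choose v := by
  have h1 : (Finset.powersetCard v (Finset.univ : Finset (Fin L))).card = L.choose v := by
    rw [Finset.card_powersetCard, Finset.card_univ, Fintype.card_fin]
  rw [← h1]
  apply Finset.card_le_card_of_injOn (fun x => Finset.univ.filter (fun i => x i ≠ z i))
  · intro x hx
    rw [Finset.mem_coe, Finset.mem_filter] at hx
    rw [Finset.mem_coe, Finset.mem_powersetCard]
    refine ⟨Finset.subset_univ _, ?_⟩
    rw [← hx.2]
    unfold hd wr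
    rw [Finset.card_filter]
    refine Finset.sum_congr rfl fun i _ => ?_
    by_cases h : x i = z i <;> simp [h]
  · intro x _ y _ hxy
    simp only at hxy
    funext i
    have := Finset.ext_iff.mp hxy i
    simp only [Finset.mem_filter, Finset.mem_univ, true_and] at this
    revert this
    cases x i <;> cases y i <;> cases z i <;> simp

lemma hd_compl {L : ℕ} (x z : Fin L → Bool) : hd (fun i => !(x i)) z + hd x z = L := by
  unfold hd wr
  rw [← Finset.sum_add_distrib]
  have : ∀ i : Fin L, ((if (!(x i)) = z i then 0 else 1) + (if x i = z i then 0 else 1)) = 1 := by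
    intro i
    cases x i <;> cases z i <;> simp
  rw [Finset.sum_congr rfl fun i _ => this i]
  simp

theorem block : BlockGoal := by
  intro w g hg z
  classical
  set A := (Finset.univ : Finset (Fin (2 * w) → Bool)).filter (fun x => 2 * w + g ≤ 2 * hd x z) with hA
  set B := (Finset.univ : Finset (Fin (2 * w) → Bool)).filter (fun x => 2 * hd x z + g ≤ 2 * w) with hB
  set M := (Finset.univ : Finset (Fin (2 * w) → Bool)).filter
    (fun x => 2 * hd x z < 2 * w + g ∧ 2 * w < 2 * hd x z + g) with hM
  have hBA : B.card ≤ A.card := by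
    apply Finset.card_le_card_of_injOn (fun x i => !(x i))
    · intro x hx
      rw [Finset.mem_coe, hB, Finset.mem_filter] at hx
      rw [Finset.mem_coe, hA, Finset.mem_filter]
      refine ⟨Finset.mem_univ _, ?_⟩
      have := hd_compl x z
      have h2 := hx.2
      change 2 * w + g ≤ 2 * hd (fun i => !(x i)) z
      omega
    · intro x _ y _ hxy
      funext i
      have := congrFun hxy i
      simpa using this
  have hcov : (Finset.univ : Finset (Fin (2 * w) → Bool)) ⊆ A ∪ B ∪ M := by
    intro x _
    rw [Finset.mem_union, Finset.mem_union, hA, hB, hM, Finset.mem_filter, Finset.mem_filter,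
      Finset.mem_filter]
    by_cases h1 : 2 * w + g ≤ 2 * hd x z
    · left; left; exact ⟨Finset.mem_univ _, h1⟩
    · by_cases h2 : 2 * hd x z + g ≤ 2 * w
      · left; right; exact ⟨Finset.mem_univ _, h2⟩
      · right; exact ⟨Finset.mem_univ _, by omega, by omega⟩
  have hcard : 2 ^ (2 * w) ≤ 2 * A.card + M.card := by
    have h1 := Finset.card_le_card hcov
    have h2 := Finset.card_union_le (A ∪ B) M
    have h3 := Finset.card_union_le A B
    rw [Finset.card_univ, Fintype.card_fun, Fintype.card_bool, Fintype.card_fin] at h1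
    omega
  have hMc : M.card ≤ g * Nat.centralBinom w := by
    rcases Nat.eq_zero_or_pos g with h0 | h0
    · have : M = ∅ := by
        rw [hM, Finset.filter_eq_empty_iff]
        intro x _
        omega
      rw [this]; simp
    · have h1 : M ⊆ (Finset.Icc (w - (g - 1) / 2) (w + (g - 1) / 2)).biUnion
          (fun v => (Finset.univ : Finset (Fin (2 * w) → Bool)).filter (fun x => hd x z = v)) := by
        intro x hx
        rw [hM, Finset.mem_filter] at hx
        rw [Finset.mem_biUnion]
        refine ⟨hd x z, ?_, ?_⟩
        · rw [Finset.mem_Icc]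
          omega
        · rw [Finset.mem_filter]
          exact ⟨Finset.mem_univ _, rfl⟩
      refine (Finset.card_le_card h1).trans (Finset.card_biUnion_le.trans ?_)
      have h2 : ∀ v ∈ Finset.Icc (w - (g - 1) / 2) (w + (g - 1) / 2),
          ((Finset.univ : Finset (Fin (2 * w) → Bool)).filter (fun x => hd x z = v)).card ≤ Nat.centralBinom w := by
        intro v _
        exact (card_hd_eq (2 * w) v z).trans (Nat.choose_le_centralBinom v w)
      refine (Finset.sum_le_sum h2).trans ?_
      rw [Finset.sum_const, smul_eq_mul, Nat.card_Icc]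
      apply Nat.mul_le_mul_right
      omega
  have hfin : 2 * M.card ≤ 2 ^ (2 * w) := by
    have h1 : 2 * M.card ≤ 2 * (g * Nat.centralBinom w) := Nat.mul_le_mul_left _ hMc
    refine h1.trans ?_
    have h2 : (2 * (g * Nat.centralBinom w)) ^ 2 ≤ (2 ^ (2 * w)) ^ 2 := by
      calc (2 * (g * Nat.centralBinom w)) ^ 2 = (4 * g ^ 2) * (Nat.centralBinom w) ^ 2 := by ring
        _ ≤ (2 * w + 1) * (Nat.centralBinom w) ^ 2 := Nat.mul_le_mul_right _ hg
        _ ≤ 16 ^ w := central_bound w
        _ = _ := by
          rw [← pow_mul, show (16 : ℕ) = 2 ^ 4 by norm_num, ← pow_mul]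
          congr 1
          ring
    exact (Nat.pow_le_pow_iff_left (by norm_num)).mp h2
  have hfin2 : 2 ^ (2 * w) ≤ 4 * A.card := by omega
  exact_mod_cast hfin2

end Pool.Agent.Helper84.OneMax
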