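import Mathlib

set_option autoImplicit false
set_option linter.unusedSectionVars false
set_option linter.unusedVariables false

/-!
The algorithm: index type, moves, rates; Hamming distances; harmonic numbers.
-/

namespace Pool.Agent.Helper84.OneMax

/-! ### Hamming distance on Boolean vectors -/

section hd
variable {ι κ : Type} [Fintype ι] [DecidableEq ι] [Fintype κ] [DecidableEq κ]

def wr (x z : ι → Bool) (i : ι) : ℕ := if x i = z i then 0 else 1

def hd (x z : ι → Bool) : ℕ := ∑ i, wr x z i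

/-- flip `x` on `f` -/
def fx (x f : ι → Bool) : ι → Bool := fun i => xor (x i) (f i)

/-- singleton indicator -/
def sg (i : ι) : ι → Bool := fun i' => decide (i' = i)

omit [Fintype ι] in
lemma fx_sg_self (x : ι → Bool) (i : ι) : fx x (sg i) i = !(x i) := by
  simp [fx, sg]

omit [Fintype ι] in
lemma fx_sg_ne (x : ι → Bool) (i i' : ι) (h : i' ≠ i) : fx x (sg i) i' = x i' := by
  simp [fx, sg, h]

lemma hd_sg_wrong (x z : ι → Bool) (i : ι) (h : x i ≠ z i) :
    hd (fx x (sg i)) z + 1 = hd x z := by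
  unfold hd
  rw [← Finset.add_sum_erase _ _ (Finset.mem_univ i),
    ← Finset.add_sum_erase Finset.univ (wr x z) (Finset.mem_univ i)]
  have h1 : ∑ a ∈ Finset.univ.erase i, wr (fx x (sg i)) z a = ∑ a ∈ Finset.univ.erase i, wr x z a := by
    refine Finset.sum_congr rfl fun a ha => ?_
    unfold wr
    rw [fx_sg_ne x i a (Finset.ne_of_mem_erase ha)]
  have h2 : wr (fx x (sg i)) z i = 0 := by
    unfold wr
    rw [fx_sg_self, if_pos]
    revert h
    cases x i <;> cases z i <;> simp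
  have h3 : wr x z i = 1 := by
    unfold wr
    rw [if_neg h]
  rw [h1, h2, h3]; ring

lemma hd_sg_right (x z : ι → Bool) (i : ι) (h : x i = z i) :
    hd (fx x (sg i)) z = hd x z + 1 := by
  unfold hd
  rw [← Finset.add_sum_erase _ _ (Finset.mem_univ i),
    ← Finset.add_sum_erase Finset.univ (wr x z) (Finset.mem_univ i)]
  have h1 : ∑ a ∈ Finset.univ.erase i, wr (fx x (sg i)) z a = ∑ a ∈ Finset.univ.erase i, wr x z a := by
    refine Finset.sum_congr rfl fun a ha => ?_
    unfold wr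
    rw [fx_sg_ne x i a (Finset.ne_of_mem_erase ha)]
  have h2 : wr (fx x (sg i)) z i = 1 := by
    unfold wr
    rw [fx_sg_self, if_neg]
    revert h
    cases x i <;> cases z i <;> simp
  have h3 : wr x z i = 0 := by
    unfold wr
    rw [if_pos h]
  rw [h1, h2, h3]; ring

lemma hd_eq_zero (x z : ι → Bool) (h : hd x z = 0) : x = z := by
  funext i
  unfold hd at h
  rw [Finset.sum_eq_zero_iff] at h
  have := h i (Finset.mem_univ i)
  unfold wr at this
  by_contra hne
  rw [if_neg hne] at this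
  omega

lemma hd_pos (x z : ι → Bool) (i : ι) (h : x i ≠ z i) : 1 ≤ hd x z := by
  rw [← hd_sg_wrong x z i h]; omega

lemma hd_le_card (x z : ι → Bool) : hd x z ≤ Fintype.card ι := by
  unfold hd
  calc ∑ i, wr x z i ≤ ∑ i : ι, 1 := Finset.sum_le_sum fun i _ => by unfold wr; split <;> omega
    _ = _ := by simp

lemma hd_exists (x z : ι → Bool) (h : 1 ≤ hd x z) : ∃ i, x i ≠ z i := by
  by_contra hne
  push Not at hne
  unfold hd at h
  have : ∑ i, wr x z i = 0 := Finset.sum_eq_zero fun i _ => by unfold wr; rw [if_pos (hne i)]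
  omega

/-- splitting the distance over a sum type -/
lemma hd_sum (x z : ι ⊕ κ → Bool) :
    hd x z = hd (x ∘ Sum.inl) (z ∘ Sum.inl) + hd (x ∘ Sum.inr) (z ∘ Sum.inr) := by
  unfold hd
  rw [Fintype.sum_sum_type]
  rfl

lemma hd_cast (x z : ι → Bool) : ((hd x z : ℕ) : ℝ) = ∑ i, (if x i = z i then (0 : ℝ) else 1) := by
  unfold hd wr
  push_cast
  rfl

omit [Fintype ι] [Fintype κ] in
lemma fx_sg_inl_inl (x : ι ⊕ κ → Bool) (i : ι) :
    (fx x (sg (Sum.inl i))) ∘ Sum.inl = fx (x ∘ Sum.inl) (sg i) := by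
  funext a
  simp [fx, sg]

omit [Fintype ι] [Fintype κ] in
lemma fx_sg_inl_inr (x : ι ⊕ κ → Bool) (i : ι) :
    (fx x (sg (Sum.inl i))) ∘ Sum.inr = x ∘ Sum.inr := by
  funext a
  simp [fx, sg]

omit [Fintype ι] [Fintype κ] in
lemma fx_sg_inr_inr (x : ι ⊕ κ → Bool) (i : κ) :
    (fx x (sg (Sum.inr i))) ∘ Sum.inr = fx (x ∘ Sum.inr) (sg i) := by
  funext a
  simp [fx, sg]

omit [Fintype ι] [Fintype κ] in
lemma fx_sg_inr_inl (x : ι ⊕ κ → Bool) (i : κ) :
    (fx x (sg (Sum.inr i))) ∘ Sum.inl = x ∘ Sum.inl := by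
  funext a
  simp [fx, sg]

end hd

/-! ### Harmonic numbers -/

noncomputable def hm (n : ℕ) : ℝ := ∑ i ∈ Finset.range n, 1 / ((i : ℝ) + 1)

lemma hm_succ (n : ℕ) : hm (n + 1) = hm n + 1 / ((n : ℝ) + 1) := by
  unfold hm; rw [Finset.sum_range_succ]

lemma hm_zero : hm 0 = 0 := by simp [hm]

lemma hm_nonneg (n : ℕ) : 0 ≤ hm n := Finset.sum_nonneg fun i _ => by positivity

lemma hm_mono {a b : ℕ} (h : a ≤ b) : hm a ≤ hm b := by
  unfold hm
  refine Finset.sum_le_sum_of_subset_of_nonneg (Finset.range_mono h) fun i _ _ => by positivity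

lemma hm_sub {a b : ℕ} (h : a + 1 = b) : hm b - hm a = 1 / (b : ℝ) := by
  subst h
  rw [hm_succ]; push_cast; ring

lemma hm_one_le {n : ℕ} (h : 1 ≤ n) : 1 ≤ hm n := by
  refine le_trans ?_ (hm_mono h)
  rw [show (1 : ℕ) = 0 + 1 from rfl, hm_succ, hm_zero]; norm_num

lemma hm_pow_two (k : ℕ) : hm (2 ^ k) ≤ (k : ℝ) + 1 := by
  induction k with
  | zero => simp [hm]
  | succ k ih =>
    have h1 : hm (2 ^ (k + 1)) = hm (2 ^ k) + ∑ i ∈ Finset.range (2 ^ k), 1 / (((2 ^ k + i : ℕ) : ℝ) + 1) := by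
      unfold hm
      rw [pow_succ, mul_two, Finset.sum_range_add]
    rw [h1]
    have h2 : ∑ i ∈ Finset.range (2 ^ k), 1 / (((2 ^ k + i : ℕ) : ℝ) + 1)
        ≤ ∑ i ∈ Finset.range (2 ^ k), 1 / ((2 : ℝ) ^ k) := by
      refine Finset.sum_le_sum fun i _ => ?_
      apply one_div_le_one_div_of_le (by positivity)
      push_cast
      have : (0 : ℝ) ≤ i := Nat.cast_nonneg i
      linarith
    rw [Finset.sum_const, Finset.card_range, nsmul_eq_mul] at h2
    push_cast at h2
    have h3 : (2 : ℝ) ^ k * (1 / 2 ^ k) = 1 := by field_simp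
    rw [h3] at h2
    push_cast
    linarith

/-! ### Parameters, indices, states -/

structure NP where
  m : ℕ
  b : ℕ
  Nb : ℕ
  l : ℕ
  M : ℕ
  nr : ℕ
  k : ℕ
  enc : Option (ℕ × ℕ × ℕ) → (Fin M → Bool)
  dec : (Fin M → Bool) → Option (ℕ × ℕ × ℕ)
  dec_enc_none : dec (enc none) = none
  dec_enc : ∀ j t h, j < m → t < b → h ≤ 2 * b → dec (enc (some (j, t, h))) = some (j, t, h)
  dec_some : ∀ v j t h, dec v = some (j, t, h) → j < m ∧ t < b ∧ h ≤ 2 * b

abbrev AI (P : NP) : Type := Fin P.m × Fin P.b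
abbrev CI (P : NP) : Type := Fin 3 × Fin P.k
abbrev QI (P : NP) : Type := (Bool × Fin P.M) ⊕ Fin P.nr
abbrev SI (P : NP) : Type := ((Fin P.Nb × Fin P.l) ⊕ Unit) ⊕ (QI P ⊕ CI P)
abbrev Idx (P : NP) : Type := AI P ⊕ SI P
instance instDSI (P : NP) : DecidableEq (SI P) := inferInstance
instance instDIdx (P : NP) : DecidableEq (Idx P) :=
  @instDecidableEqSum (AI P) (SI P) inferInstance (instDSI P)
abbrev Sta (P : NP) : Type := Idx P → Bool
abbrev Mv (P : NP) : Type := Idx P ⊕ (Fin P.Nb ⊕ Bool)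

@[match_pattern] abbrev iA {P : NP} (a : AI P) : Idx P := Sum.inl a
@[match_pattern] abbrev iP {P : NP} (a : Fin P.Nb) (b : Fin P.l) : Idx P := Sum.inr (Sum.inl (Sum.inl (a, b)))
@[match_pattern] abbrev iG {P : NP} : Idx P := Sum.inr (Sum.inl (Sum.inr ()))
@[match_pattern] abbrev iQ {P : NP} (s : Bool) (a : Fin P.M) : Idx P := Sum.inr (Sum.inr (Sum.inl (Sum.inl (s, a))))
@[match_pattern] abbrev iR {P : NP} (a : Fin P.nr) : Idx P := Sum.inr (Sum.inr (Sum.inl (Sum.inr a)))
@[match_pattern] abbrev iC {P : NP} (a : Fin 3) (b : Fin P.k) : Idx P := Sum.inr (Sum.inr (Sum.inr (a, b)))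

def flg {P : NP} (x : Sta P) : Prop := ∀ a a' : Fin 3, ∀ j : Fin P.k, x (iC a j) = x (iC a' j)

instance {P : NP} (x : Sta P) : Decidable (flg x) := by unfold flg; infer_instance

def mem {P : NP} (x : Sta P) : Option (ℕ × ℕ × ℕ) := P.dec (fun j => x (iQ true j))

/-! ### Moves -/

def fl2 {P : NP} (x : Sta P) (fa : AI P → Bool) (fr : ℕ → Bool) (v : Fin P.M → Bool) : Idx P → Bool
  | Sum.inl a => fa a
  | Sum.inr (Sum.inl _) => false
  | Sum.inr (Sum.inr (Sum.inl (Sum.inl (_, j)))) => xor (x (iQ true j)) (v j)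
  | Sum.inr (Sum.inr (Sum.inl (Sum.inr j))) => fr j.val
  | Sum.inr (Sum.inr (Sum.inr _)) => false

def flTr {P : NP} (x : Sta P) (j : Fin P.Nb) : Idx P → Bool
  | Sum.inl _ => false
  | Sum.inr (Sum.inl (Sum.inl (j', _))) => decide (j' = j)
  | Sum.inr (Sum.inl (Sum.inr _)) => true
  | Sum.inr (Sum.inr (Sum.inl (Sum.inl (true, i)))) =>
      xor (x (iQ true i)) (P.enc (some (0, 0, P.b)) i)
  | Sum.inr (Sum.inr (Sum.inl (Sum.inl (false, i)))) =>
      !(xor (x (iQ true i)) (P.enc (some (0, 0, P.b)) i))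
  | Sum.inr (Sum.inr (Sum.inl (Sum.inr i))) => decide (i.val < P.b)
  | Sum.inr (Sum.inr (Sum.inr _)) => false

/-- next position -/
def nxt (P : NP) (j t h : ℕ) : Option (ℕ × ℕ × ℕ) :=
  if t + 1 < P.b then some (j, t + 1, h) else if j + 1 < P.m then some (j + 1, 0, h) else none

def eA {P : NP} (j t : ℕ) : AI P → Bool := fun a => decide (a.1.val = j ∧ a.2.val = t)

def flT {P : NP} (x : Sta P) : Option (ℕ × ℕ × ℕ) → (Idx P → Bool)
  | none => fun _ => false
  | some (j, t, h) =>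
    if t = 0 ∧ P.b < h then
      fl2 x (fun _ => false) (fun i => decide (P.b ≤ i ∧ i < h)) (P.enc (some (j, t, P.b)))
    else fl2 x (eA j t) (fun i => decide (i = h)) (P.enc (nxt P j t (h + 1)))

def flF {P : NP} (x : Sta P) : Option (ℕ × ℕ × ℕ) → (Idx P → Bool)
  | none => fun _ => false
  | some (j, t, h) => fl2 x (eA j t) (fun i => decide (i + 1 = h)) (P.enc (some (j, t, h - 1)))

def fl {P : NP} (x : Sta P) : Mv P → (Idx P → Bool)
  | Sum.inl i => sg i
  | Sum.inr (Sum.inl j) => flTr x j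
  | Sum.inr (Sum.inr true) => flT x (mem x)
  | Sum.inr (Sum.inr false) => flF x (mem x)

/-- accepted result -/
def rs {P : NP} (z x : Sta P) (l : Mv P) : Sta P :=
  if hd (fx x (fl x l)) z ≤ hd x z then fx x (fl x l) else x

/-! ### Rates -/

/-- real parameters -/
structure RP where
  ρN : ℝ   -- rate of A-bits, flagged
  aN : ℝ   -- rate of A-bits and reflagging bits, unflagged
  aS : ℝ   -- rate of other bits, unflagged
  r : ℝ
  rq : ℝ   -- rate of Q,R-bits in mode 1
  κ : ℝ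
  κe : ℝ   -- rate of C-bits at the end
  τb : ℝ

noncomputable def rtS {P : NP} (R : RP) (x : Sta P) : SI P → ℝ
  | Sum.inl _ => R.r
  | Sum.inr (Sum.inl _) => if x iG = true then R.r else R.rq
  | Sum.inr (Sum.inr _) => if x iG = true ∧ mem x = none then R.κe else R.κ

noncomputable def rt {P : NP} (R : RP) (x : Sta P) : Idx P → ℝ
  | Sum.inl _ => if flg x then R.ρN else R.aN
  | Sum.inr s => if flg x then rtS R x s else
      if flg (fx x (sg (Sum.inr s))) then R.aN else R.aS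

noncomputable def pT (P : NP) : Option (ℕ × ℕ × ℕ) → ℝ
  | none => 0
  | some (_, t, h) => if t = 0 ∧ P.b < h then 1 / 2 else if h < 2 * P.b then 31 / 64 else 0

noncomputable def pF (P : NP) : Option (ℕ × ℕ × ℕ) → ℝ
  | none => 0
  | some (_, t, h) => if (t = 0 ∧ P.b < h) ∨ h = 0 then 0 else 1 / 64

noncomputable def pr {P : NP} (R : RP) (x : Sta P) : Mv P → ℝ
  | Sum.inl i => rt R x i
  | Sum.inr (Sum.inl _) => if flg x ∧ x iG = false then R.τb else 0
  | Sum.inr (Sum.inr true) => if flg x ∧ x iG = true then pT P (mem x) else 0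
  | Sum.inr (Sum.inr false) => if flg x ∧ x iG = true then pF P (mem x) else 0

end Pool.Agent.Helper84.OneMax
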