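import Pool.Agent.Helper84.OneMaxScan

set_option autoImplicit false
set_option linter.unusedSectionVars false
set_option linter.unusedVariables false

/-!
The drift inequality for the full potential.
-/

namespace Pool.Agent.Helper84.OneMax

variable {P : NP} {R : RP} {Q : Pot}

lemma sum_all (f : Mv P → ℝ) : ∑ l, f l = ∑ a : AI P, f (Sum.inl (Sum.inl a)) +
    (∑ s : (Fin P.Nb × Fin P.l) ⊕ Unit, f (Sum.inl (Sum.inr (Sum.inl s))) +
      (∑ q : QI P, f (Sum.inl (Sum.inr (Sum.inr (Sum.inl q)))) +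
        ∑ c : CI P, f (Sum.inl (Sum.inr (Sum.inr (Sum.inr c)))))) +
    (∑ j : Fin P.Nb, f (Sum.inr (Sum.inl j)) + (f (Sum.inr (Sum.inr true)) + f (Sum.inr (Sum.inr false)))) := by
  have e1 := Fintype.sum_sum_type f
  have e2 := Fintype.sum_sum_type (fun i : Idx P => f (Sum.inl i))
  have e3 := Fintype.sum_sum_type (fun s : SI P => f (Sum.inl (Sum.inr s)))
  have e4 := Fintype.sum_sum_type (fun s : QI P ⊕ CI P => f (Sum.inl (Sum.inr (Sum.inr s))))
  have e5 := Fintype.sum_sum_type (fun l : Fin P.Nb ⊕ Bool => f (Sum.inr l))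
  have e6 := Fintype.sum_bool (fun l => f (Sum.inr (Sum.inr l)))
  rw [e1, e2, e3, e4, e5, e6]

lemma V_rs_le_Bc (hG : HG P R Q) (z x : Sta P) (hf : flg x) (hc : Cb z x) (l : Mv P) :
    V R Q z (rs z x l) ≤ Q.Bc :=
  (V_le_rob z _).trans (Vrob_rs_le_Bc hG.toHR z x hf hc l)

lemma term_lower {p Vx V' B : ℝ} (hp : 0 ≤ p) (hV : 0 ≤ Vx) (hV' : V' ≤ B) :
    -(p * B) ≤ p * (Vx - V') := by
  have : p * (-B) ≤ p * (Vx - V') := mul_le_mul_of_nonneg_left (by linarith) hp
  linarith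

lemma PG_sum (hG : HG P R Q) (z x : Sta P) (hf : flg x) (hc : Cb z x) :
    -((Fintype.card ((Fin P.Nb × Fin P.l) ⊕ Unit) : ℝ) * (R.r * Q.Bc)) ≤
      ∑ s : (Fin P.Nb × Fin P.l) ⊕ Unit, pr R x (Sum.inl (Sum.inr (Sum.inl s))) *
        (V R Q z x - V R Q z (rs z x (Sum.inl (Sum.inr (Sum.inl s))))) := by
  have h1 : ∀ s : (Fin P.Nb × Fin P.l) ⊕ Unit, -(R.r * Q.Bc) ≤ pr R x (Sum.inl (Sum.inr (Sum.inl s))) *
        (V R Q z x - V R Q z (rs z x (Sum.inl (Sum.inr (Sum.inl s))))) := by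
    intro s
    have h2 : pr R x (Sum.inl (Sum.inr (Sum.inl s))) = R.r := by
      simp only [pr, rt, rtS]; rw [if_pos hf]
    rw [h2]
    exact term_lower hG.r_pos.le (V_nonneg hG z x) (V_rs_le_Bc hG z x hf hc _)
  refine le_trans ?_ (Finset.sum_le_sum fun s _ => h1 s)
  rw [Finset.sum_const, Finset.card_univ, nsmul_eq_mul]
  linarith

lemma Q_sum (hG : HG P R Q) (z x : Sta P) (hf : flg x) (hc : Cb z x) (hg : x iG = true) :
    -((Fintype.card (QI P) : ℝ) * (R.r * Q.Bc)) ≤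
      ∑ s : QI P, pr R x (Sum.inl (Sum.inr (Sum.inr (Sum.inl s)))) *
        (V R Q z x - V R Q z (rs z x (Sum.inl (Sum.inr (Sum.inr (Sum.inl s)))))) := by
  have h1 : ∀ s : QI P, -(R.r * Q.Bc) ≤ pr R x (Sum.inl (Sum.inr (Sum.inr (Sum.inl s)))) *
        (V R Q z x - V R Q z (rs z x (Sum.inl (Sum.inr (Sum.inr (Sum.inl s)))))) := by
    intro s
    have h2 : pr R x (Sum.inl (Sum.inr (Sum.inr (Sum.inl s)))) = R.r := by
      simp only [pr, rt, rtS]; rw [if_pos hf, if_pos hg]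
    rw [h2]
    exact term_lower hG.r_pos.le (V_nonneg hG z x) (V_rs_le_Bc hG z x hf hc _)
  refine le_trans ?_ (Finset.sum_le_sum fun s _ => h1 s)
  rw [Finset.sum_const, Finset.card_univ, nsmul_eq_mul]
  linarith

lemma X_nonneg (hG : HG P R Q) (z : Sta P) : 0 ≤ Q.X :=
  (V3_nonneg hG.toHR z z).trans (hG.X_ge z z)

lemma C_sum (hG : HG P R Q) (z x : Sta P) (hf : flg x) (hn : ¬ (x iG = true ∧ mem x = none)) :
    -((Fintype.card (CI P) : ℝ) * (R.κ * Q.X)) ≤
      ∑ s : CI P, pr R x (Sum.inl (Sum.inr (Sum.inr (Sum.inr s)))) *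
        (V R Q z x - V R Q z (rs z x (Sum.inl (Sum.inr (Sum.inr (Sum.inr s)))))) := by
  have hX := X_nonneg hG z
  have h1 : ∀ s : CI P, -(R.κ * Q.X) ≤ pr R x (Sum.inl (Sum.inr (Sum.inr (Sum.inr s)))) *
        (V R Q z x - V R Q z (rs z x (Sum.inl (Sum.inr (Sum.inr (Sum.inr s)))))) := by
    intro s
    have h2 : pr R x (Sum.inl (Sum.inr (Sum.inr (Sum.inr s)))) = R.κ := by
      simp only [pr, rt, rtS]; rw [if_pos hf, if_neg hn]
    rw [h2]
    by_cases hs : x (Sum.inr (Sum.inr (Sum.inr s))) = z (Sum.inr (Sum.inr (Sum.inr s)))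
    · rw [rs_right z x _ hs, sub_self, mul_zero]
      have := mul_nonneg hG.κ_pos.le hX
      linarith
    · apply term_lower hG.κ_pos.le (V_nonneg hG z x)
      rw [rs_wrong z x _ hs]
      refine (V_le_rob z _).trans ?_
      rw [Vrob_unfl _ _ (not_flg_C x hf s)]
      exact hG.X_ge _ _
  refine le_trans ?_ (Finset.sum_le_sum fun s _ => h1 s)
  rw [Finset.sum_const, Finset.card_univ, nsmul_eq_mul]
  linarith

lemma mem_pQ (x y : Sta P) (h : pQ x = pQ y) : mem x = mem y := by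
  unfold mem
  congr 1
  funext i
  exact congrFun h (Sum.inl (true, i))

lemma Pairs_pQ (z x y : Sta P) (h : pQ x = pQ y) (hP : Pairs z x) : Pairs z y := by
  intro i
  have h1 : x (iQ true i) = y (iQ true i) := congrFun h (Sum.inl (true, i))
  have h2 : x (iQ false i) = y (iQ false i) := congrFun h (Sum.inl (false, i))
  rw [← h1, ← h2]
  exact hP i

lemma Rh_pQ (z x y : Sta P) (n : ℕ) (h : pQ x = pQ y) (hP : Rh z x n) : Rh z y n := by
  intro i
  have h1 : x (iR i) = y (iR i) := congrFun h (Sum.inr i)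
  rw [← h1]
  exact hP i

/-- A-flips keep everything else -/
lemma A_keep (x : Sta P) (a : AI P) : pQ (fx x (sg (Sum.inl a))) = pQ x ∧ pC (fx x (sg (Sum.inl a))) = pC x ∧
    (fx x (sg (Sum.inl a))) iG = x iG ∧ (∀ j, pB (fx x (sg (Sum.inl a))) j = pB x j) := by
  refine ⟨?_, ?_, ?_, ?_⟩
  · funext q; exact fx_sg_ne x _ _ (by simp)
  · funext q; exact fx_sg_ne x _ _ (by simp)
  · exact fx_sg_ne x _ _ (by simp)
  · intro j; funext q; exact fx_sg_ne x _ _ (by simp)

lemma A_scan (hG : HG P R Q) (z x : Sta P) (j t h : ℕ) (hm : mem x = some (j, t, h))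
    (hS : GoodScan z x j t h) (hV : V R Q z x = Vs Q z x j t h) (a : AI P) :
    V R Q z (rs z x (Sum.inl (Sum.inl a))) - V R Q z x ≤
      (if eA (P := P) j t a = true then 256 * (1 + 2 * (Q.Bc * Phi (z ∘ Sum.inl) (x ∘ Sum.inl) j t h) / Q.Vm) else 0)
        + 2 * (Q.Bc * psi (z ∘ Sum.inl) (x ∘ Sum.inl) j t h a.1.val) := by
  obtain ⟨hj, ht, hh⟩ := P.dec_some _ _ _ _ hm
  have hB := Bc_nn hG z
  have hVm := Vm_pos hG
  have hpsi0 := psi_nonneg (z ∘ Sum.inl) (x ∘ Sum.inl) j t h a.1.val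
  have hPhi0 := Phi_nonneg (z ∘ Sum.inl) (x ∘ Sum.inl) j t h
  have hpsi1 := psi_le_Phi (z ∘ Sum.inl) (x ∘ Sum.inl) j t h a.1
  by_cases ha : x (Sum.inl a) = z (Sum.inl a)
  · rw [rs_right z x _ ha, sub_self]
    have h1 : 0 ≤ (if eA (P := P) j t a = true then 256 * (1 + 2 * (Q.Bc * Phi (z ∘ Sum.inl) (x ∘ Sum.inl) j t h) / Q.Vm) else 0) := by
      split
      · positivity
      · exact le_rfl
    have h2 := mul_nonneg hB hpsi0
    linarith
  · rw [rs_wrong z x _ ha]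
    set y := fx x (sg (Sum.inl a)) with hy
    obtain ⟨k1, k2, k3, k4⟩ := A_keep x a
    rw [← hy] at k1 k2 k3 k4
    have hyA : y ∘ Sum.inl = fx (x ∘ Sum.inl) (sg a) := fx_sg_inl_inl x a
    have hSy : GoodScan z y j t h := by
      refine ⟨(flg_pC _ _ k2).mpr hS.1, by rw [k3]; exact hS.2.1, (Cb_pC z _ _ k2).mpr hS.2.2.1,
        Pairs_pQ z x y k1.symm hS.2.2.2.1, Rh_pQ z x y h k1.symm hS.2.2.2.2.1, ?_, hS.2.2.2.2.2.2⟩
      intro a' ha'
      have h1 := hS.2.2.2.2.2.1 a' ha'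
      rw [hy, fx_sg_ne]
      · exact h1
      · intro e
        rw [Sum.inl.injEq] at e
        rw [e] at h1
        exact ha h1
    have hVy := V_le_scan (R := R) (Q := Q) z y j t h (by rw [mem_pQ y x k1]; exact hm) hSy
    have hT0 := tt_nonneg (z ∘ Sum.inl) (x ∘ Sum.inl) j t h hj ht
    have hTV := (tt_le (z ∘ Sum.inl) (x ∘ Sum.inl) j t h).trans hG.Vm_ge
    have hPy := Phi_sg (z ∘ Sum.inl) (x ∘ Sum.inl) a j t h
    have hPy0 := Phi_nonneg (z ∘ Sum.inl) (y ∘ Sum.inl) j t h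
    rw [← hyA] at hPy
    set T := tt (z ∘ Sum.inl) (x ∘ Sum.inl) j t h with hTdef
    set Φ := Phi (z ∘ Sum.inl) (x ∘ Sum.inl) j t h with hΦ
    set ps := psi (z ∘ Sum.inl) (x ∘ Sum.inl) j t h a.1.val with hps
    have hTy : tt (z ∘ Sum.inl) (y ∘ Sum.inl) j t h ≤ T + (if eA (P := P) j t a = true then 256 else 0) := by
      rw [hTdef]
      unfold tt
      have : st (z ∘ Sum.inl) (y ∘ Sum.inl) j t h ≤ st (z ∘ Sum.inl) (x ∘ Sum.inl) j t h +
          (if eA (P := P) j t a = true then 256 else 0) := by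
        by_cases hp : t = 0 ∧ P.b < h
        · have e1 : ∀ w : AI P → Bool, st (z ∘ Sum.inl) w j t h = 264 := by
            intro w; unfold st; rw [if_pos hp]
          rw [e1, e1]
          have : (0 : ℝ) ≤ (if eA (P := P) j t a = true then 256 else 0) := by split <;> norm_num
          linarith
        · by_cases he : eA (P := P) j t a = true
          · rw [if_pos he]
            have h1 : st (z ∘ Sum.inl) (y ∘ Sum.inl) j t h ≤ 256 := by
              unfold st; rw [if_neg hp]; split <;> norm_num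
            have h2 := st_nonneg (z ∘ Sum.inl) (x ∘ Sum.inl) j t h
            linarith
          · rw [if_neg he, add_zero]
            have hne : j ≠ a.1.val ∨ t ≠ a.2.val := by
              by_contra hcon
              push Not at hcon
              apply he
              simp only [eA, decide_eq_true_iff]
              exact ⟨hcon.1.symm, hcon.2.symm⟩
            have h3 := aw_sg_ne (z ∘ Sum.inl) (x ∘ Sum.inl) a j t hne
            rw [← hyA] at h3
            unfold st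
            rw [if_neg hp, if_neg hp]
            by_cases h4 : aw (z ∘ Sum.inl) (x ∘ Sum.inl) j t
            · rw [if_pos h4, if_pos (h3.mpr h4)]
            · rw [if_neg h4, if_neg (fun e => h4 (h3.mp e))]
      linarith
    set δ : ℝ := (if eA (P := P) j t a = true then 256 else 0) with hδ
    have hδ0 : 0 ≤ δ := by rw [hδ]; split <;> norm_num
    have hval : V R Q z y ≤ val Q (T + δ) (Q.Bc * (Φ + ps)) := by
      refine hVy.trans ?_
      unfold Vs
      exact val_mono hG (tt_nonneg _ _ _ _ _ hj ht) hTy (mul_nonneg hB hPy0)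
        (mul_le_mul_of_nonneg_left hPy hB)
    have hVx : V R Q z x = val Q T (Q.Bc * Φ) := by rw [hV]; rfl
    rw [hVx]
    unfold val at hval ⊢
    have e1 : (if eA (P := P) j t a = true then 256 * (1 + 2 * (Q.Bc * Φ) / Q.Vm) else 0) =
        δ * (1 + 2 * (Q.Bc * Φ) / Q.Vm) := by
      rw [hδ]; split <;> ring
    rw [e1]
    have e2 : (T + δ) * (Q.Bc * (Φ + ps)) / Q.Vm =
        T * (Q.Bc * Φ) / Q.Vm + (T / Q.Vm) * (Q.Bc * ps) + δ * ((Q.Bc * (Φ + ps)) / Q.Vm) := by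
      field_simp
    have h5 : (T / Q.Vm) * (Q.Bc * ps) ≤ 1 * (Q.Bc * ps) := by
      apply mul_le_mul_of_nonneg_right _ (mul_nonneg hB hpsi0)
      rw [div_le_one hVm]; exact hTV
    have h6 : (Q.Bc * (Φ + ps)) / Q.Vm ≤ 2 * (Q.Bc * Φ) / Q.Vm := by
      apply div_le_div_of_nonneg_right _ hVm.le
      have := mul_le_mul_of_nonneg_left hpsi1 hB
      linarith
    have h7 := mul_le_mul_of_nonneg_left h6 hδ0
    rw [e2] at hval
    have e3 : δ * (1 + 2 * (Q.Bc * Φ) / Q.Vm) = δ + δ * (2 * (Q.Bc * Φ) / Q.Vm) := by ring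
    rw [e3]
    linarith

lemma sum_eA_le (j t : ℕ) (c : ℝ) (hc : 0 ≤ c) : ∑ a : AI P, (if eA (P := P) j t a = true then c else 0) ≤ c := by
  rcases eA_cases (P := P) j t with h | ⟨a, ha⟩
  · rw [Finset.sum_eq_zero]
    · exact hc
    · intro a _
      rw [h a]; simp
  · rw [ha, Finset.sum_eq_single a]
    · simp [sg]
    · intro b _ hb
      simp [sg, hb]
    · intro h
      exact absurd (Finset.mem_univ a) h

lemma A_scan_sum (hG : HG P R Q) (z x : Sta P) (j t h : ℕ) (hm : mem x = some (j, t, h))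
    (hS : GoodScan z x j t h) (hV : V R Q z x = Vs Q z x j t h) :
    -(1 + 4 * (Q.Bc * Phi (z ∘ Sum.inl) (x ∘ Sum.inl) j t h) / Q.Vm) ≤
      ∑ a : AI P, pr R x (Sum.inl (Sum.inl a)) *
        (V R Q z x - V R Q z (rs z x (Sum.inl (Sum.inl a)))) := by
  have hB := Bc_nn hG z
  have hVm := Vm_pos hG
  have hPhi0 := Phi_nonneg (z ∘ Sum.inl) (x ∘ Sum.inl) j t h
  set G := Q.Bc * Phi (z ∘ Sum.inl) (x ∘ Sum.inl) j t h with hGd
  have hG0 : 0 ≤ G := mul_nonneg hB hPhi0
  have h1 : ∀ a : AI P, R.ρN * (-((if eA (P := P) j t a = true then 256 * (1 + 2 * G / Q.Vm) else 0)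
        + 2 * (Q.Bc * psi (z ∘ Sum.inl) (x ∘ Sum.inl) j t h a.1.val))) ≤ pr R x (Sum.inl (Sum.inl a)) *
        (V R Q z x - V R Q z (rs z x (Sum.inl (Sum.inl a)))) := by
    intro a
    have h2 : pr R x (Sum.inl (Sum.inl a)) = R.ρN := by
      simp only [pr, rt]; rw [if_pos hS.1]
    rw [h2]
    apply mul_le_mul_of_nonneg_left _ hG.ρN_pos.le
    have := A_scan hG z x j t h hm hS hV a
    linarith
  refine le_trans ?_ (Finset.sum_le_sum fun a _ => h1 a)
  rw [← Finset.mul_sum, Finset.sum_neg_distrib, Finset.sum_add_distrib, ← Finset.mul_sum, ← Finset.mul_sum,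
    sum_psi]
  have h3 := sum_eA_le (P := P) j t (256 * (1 + 2 * G / Q.Vm)) (by positivity)
  have h4 := hG.ρN_256
  have h5 := hG.ρN_Vm
  have h6 : R.ρN * (512 / Q.Vm + 2 * (P.b : ℝ)) * G ≤ 4 / Q.Vm * G := mul_le_mul_of_nonneg_right h5 hG0
  have hρ := hG.ρN_pos
  have h7 : R.ρN * (∑ a : AI P, (if eA (P := P) j t a = true then 256 * (1 + 2 * G / Q.Vm) else 0)) ≤
      R.ρN * (256 * (1 + 2 * G / Q.Vm)) := mul_le_mul_of_nonneg_left h3 hρ.le
  have e1 : R.ρN * (256 * (1 + 2 * G / Q.Vm)) + R.ρN * (2 * ((P.b : ℝ) * G)) =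
      R.ρN * 256 + R.ρN * (512 / Q.Vm + 2 * (P.b : ℝ)) * G := by ring
  have e2 : Q.Bc * ((P.b : ℝ) * Phi (z ∘ Sum.inl) (x ∘ Sum.inl) j t h) = (P.b : ℝ) * G := by
    rw [hGd]; ring
  rw [e2]
  have e3 : 4 * G / Q.Vm = 4 / Q.Vm * G := by ring
  rw [e3]
  linarith

theorem drift_scan (hG : HG P R Q) (z x : Sta P) (j t h : ℕ) (hm : mem x = some (j, t, h))
    (hS : GoodScan z x j t h) (hV : V R Q z x = Vs Q z x j t h) (hlt : V R Q z x < Vrob R Q z x) :
    1 ≤ ∑ l, pr R x l * (V R Q z x - V R Q z (rs z x l)) := by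
  have hlt' : Vs Q z x j t h < Q.Bc := by
    rw [← hV]; rwa [Vrob_Cb z x hS.1 hS.2.2.1] at hlt
  rw [sum_all]
  have h1 := A_scan_sum hG z x j t h hm hS hV
  have h2 := PG_sum hG z x hS.1 hS.2.2.1
  have h3 := Q_sum hG z x hS.1 hS.2.2.1 hS.2.1
  have h4 := C_sum hG z x hS.1 (by rw [hm]; simp)
  have h5 := scan_specials hG z x j t h hm hS hV hlt'
  have h6 : ∑ j : Fin P.Nb, pr R x (Sum.inr (Sum.inl j)) *
      (V R Q z x - V R Q z (rs z x (Sum.inr (Sum.inl j)))) = 0 := by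
    refine Finset.sum_eq_zero fun j _ => ?_
    have : pr R x (Sum.inr (Sum.inl j)) = 0 := by
      simp only [pr]; rw [if_neg]; rw [hS.2.1]; simp
    rw [this, zero_mul]
  rw [h6]
  have h7 := hG.r_Bc
  have h8 := hG.κ_X
  linarith

theorem drift_end (hG : HG P R Q) (z x : Sta P) (hm : mem x = none)
    (hS : GoodEnd z x) (hV : V R Q z x = Q.Be) :
    1 ≤ ∑ l, pr R x l * (V R Q z x - V R Q z (rs z x l)) := by
  obtain ⟨hf, hg, hc, ha⟩ := hS
  rw [sum_all]
  have h2 := PG_sum hG z x hf hc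
  have h3 := Q_sum hG z x hf hc hg
  have h1 : ∑ a : AI P, pr R x (Sum.inl (Sum.inl a)) *
      (V R Q z x - V R Q z (rs z x (Sum.inl (Sum.inl a)))) = 0 := by
    refine Finset.sum_eq_zero fun a _ => ?_
    rw [rs_right z x _ (ha a), sub_self, mul_zero]
  have h6 : ∑ j : Fin P.Nb, pr R x (Sum.inr (Sum.inl j)) *
      (V R Q z x - V R Q z (rs z x (Sum.inr (Sum.inl j)))) = 0 := by
    refine Finset.sum_eq_zero fun j _ => ?_
    have : pr R x (Sum.inr (Sum.inl j)) = 0 := by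
      simp only [pr]; rw [if_neg]; rw [hg]; simp
    rw [this, zero_mul]
  have h7 : pr R x (Sum.inr (Sum.inr true)) = 0 := by
    simp only [pr]; rw [if_pos ⟨hf, hg⟩, hm]; rfl
  have h8 : pr R x (Sum.inr (Sum.inr false)) = 0 := by
    simp only [pr]; rw [if_pos ⟨hf, hg⟩, hm]; rfl
  have hwA : ∀ y : Sta P, y ∘ Sum.inl = x ∘ Sum.inl → wA z y = 0 := by
    intro y hy
    unfold wA
    rw [hy]
    have : x ∘ Sum.inl = z ∘ Sum.inl := funext ha
    rw [this]
    unfold hd wr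
    simp
  have h9 : ∀ c : CI P, (if x (Sum.inr (Sum.inr (Sum.inr c))) = z (Sum.inr (Sum.inr (Sum.inr c))) then (0 : ℝ) else 2) ≤
      pr R x (Sum.inl (Sum.inr (Sum.inr (Sum.inr c)))) *
        (V R Q z x - V R Q z (rs z x (Sum.inl (Sum.inr (Sum.inr (Sum.inr c)))))) := by
    intro c
    split
    · rename_i hs
      rw [rs_right z x _ hs, sub_self, mul_zero]
    · rename_i hs
      rw [rs_wrong z x _ hs]
      have e1 : pr R x (Sum.inl (Sum.inr (Sum.inr (Sum.inr c)))) = R.κe := by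
        simp only [pr, rt, rtS]; rw [if_pos hf, if_pos ⟨hg, hm⟩]
      rw [e1, hV]
      have e2 := hG.κe_Be (fx x (sg (Sum.inr (Sum.inr (Sum.inr c))))) z (hwA _ (fx_sg_inr_inl x _))
      refine e2.trans ?_
      have e3 : 0 ≤ R.κe := hG.κ_pos.le.trans hG.κe_κ
      apply mul_le_mul_of_nonneg_left _ e3
      have e4 := V_le_rob (R := R) (Q := Q) z (fx x (sg (Sum.inr (Sum.inr (Sum.inr c)))))
      rw [Vrob_unfl _ _ (not_flg_C x hf c)] at e4
      linarith
  have h10 : (2 : ℝ) ≤ ∑ c : CI P, pr R x (Sum.inl (Sum.inr (Sum.inr (Sum.inr c)))) *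
        (V R Q z x - V R Q z (rs z x (Sum.inl (Sum.inr (Sum.inr (Sum.inr c)))))) := by
    obtain ⟨c, hc'⟩ := hc
    refine le_trans ?_ (Finset.single_le_sum (fun c _ => le_trans ?_ (h9 c)) (Finset.mem_univ c))
    · refine le_trans ?_ (h9 c)
      rw [if_neg hc']
    · split <;> norm_num
  rw [h1, h6, h7, h8]
  have h11 := hG.r_Bc
  linarith

theorem drift_one (hG : HG P R Q) (z x : Sta P) (hS : Good1 z x) (hV : V R Q z x = V1 Q z x)
    (hlt : V R Q z x < Vrob R Q z x) :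
    1 ≤ ∑ l, pr R x l * (V R Q z x - V R Q z (rs z x l)) := by
  obtain ⟨hf, hg, hc, hj⟩ := id hS
  rw [Vrob_Cb z x hf hc] at hlt
  have hB := Bc_nn hG z
  have hPhi0 := Phi_nonneg (z ∘ Sum.inl) (x ∘ Sum.inl) 0 0 P.b
  have hρ := hG.ρN_pos
  have hτ := hG.τb_pos
  rw [sum_all]
  have h2 := PG_sum hG z x hf hc
  have h4 := C_sum hG z x hf (by rw [hg]; simp)
  have h7 : pr R x (Sum.inr (Sum.inr true)) = 0 := by
    simp only [pr]; rw [if_neg]; rw [hg]; simp
  have h8 : pr R x (Sum.inr (Sum.inr false)) = 0 := by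
    simp only [pr]; rw [if_neg]; rw [hg]; simp
  -- A-part
  have h1 : -(3 * ((P.b : ℝ) * (R.ρN * (Q.Bc * Phi (z ∘ Sum.inl) (x ∘ Sum.inl) 0 0 P.b)))) ≤
      ∑ a : AI P, pr R x (Sum.inl (Sum.inl a)) *
      (V R Q z x - V R Q z (rs z x (Sum.inl (Sum.inl a)))) := by
    have hterm : ∀ a : AI P, -(R.ρN * (3 * (Q.Bc * psi (z ∘ Sum.inl) (x ∘ Sum.inl) 0 0 P.b a.1.val))) ≤
        pr R x (Sum.inl (Sum.inl a)) * (V R Q z x - V R Q z (rs z x (Sum.inl (Sum.inl a)))) := by
      intro a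
      have e1 : pr R x (Sum.inl (Sum.inl a)) = R.ρN := by
        simp only [pr, rt]; rw [if_pos hf]
      rw [e1]
      have hps := mul_nonneg hB (psi_nonneg (z ∘ Sum.inl) (x ∘ Sum.inl) 0 0 P.b a.1.val)
      by_cases ha : x (Sum.inl a) = z (Sum.inl a)
      · rw [rs_right z x _ ha, sub_self, mul_zero]
        nlinarith
      · rw [rs_wrong z x _ ha]
        obtain ⟨k1, k2, k3, k4⟩ := A_keep x a
        have hSy : Good1 z (fx x (sg (Sum.inl a))) := by
          refine ⟨(flg_pC _ _ k2).mpr hf, by rw [k3]; exact hg, (Cb_pC z _ _ k2).mpr hc, ?_⟩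
          obtain ⟨j, hj⟩ := hj
          refine ⟨j, ?_⟩
          rw [k4]; exact hj
        have e2 := V_le_one (R := R) (Q := Q) z _ hSy
        have e3 := Phi_sg (z ∘ Sum.inl) (x ∘ Sum.inl) a 0 0 P.b
        rw [hV]
        unfold V1 at e2 ⊢
        rw [k1, fx_sg_inl_inl] at e2
        have e4 := mul_le_mul_of_nonneg_left e3 hB
        have e5 : -(3 * (Q.Bc * psi (z ∘ Sum.inl) (x ∘ Sum.inl) 0 0 P.b a.1.val)) ≤
          (Q.Be + Q.Vm + Q.J + Q.e1 * (hd (pQ x) (pQ z) : ℝ)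
            + 3 * (Q.Bc * Phi (z ∘ Sum.inl) (x ∘ Sum.inl) 0 0 P.b)) - V R Q z (fx x (sg (Sum.inl a))) := by
          linarith
        have e6 := mul_le_mul_of_nonneg_left e5 hρ.le
        linarith
    refine le_trans ?_ (Finset.sum_le_sum fun a _ => hterm a)
    rw [Finset.sum_neg_distrib, ← Finset.mul_sum, ← Finset.mul_sum, ← Finset.mul_sum, sum_psi]
    apply le_of_eq
    ring
  -- Q-part
  have h3 : R.rq * Q.e1 * (hd (pQ x) (pQ z) : ℝ) ≤
      ∑ s : QI P, pr R x (Sum.inl (Sum.inr (Sum.inr (Sum.inl s)))) *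
        (V R Q z x - V R Q z (rs z x (Sum.inl (Sum.inr (Sum.inr (Sum.inl s)))))) := by
    have hterm : ∀ s : QI P, (if (pQ x) s = (pQ z) s then (0 : ℝ) else R.rq * Q.e1) ≤
        pr R x (Sum.inl (Sum.inr (Sum.inr (Sum.inl s)))) *
        (V R Q z x - V R Q z (rs z x (Sum.inl (Sum.inr (Sum.inr (Sum.inl s)))))) := by
      intro s
      split
      · rename_i hs
        rw [rs_right z x _ hs, sub_self, mul_zero]
      · rename_i hs
        have hs' : x (Sum.inr (Sum.inr (Sum.inl s))) ≠ z (Sum.inr (Sum.inr (Sum.inl s))) := hs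
        rw [rs_wrong z x _ hs']
        have e1 : pr R x (Sum.inl (Sum.inr (Sum.inr (Sum.inl s)))) = R.rq := by
          simp only [pr, rt, rtS]; rw [if_pos hf, if_neg]; rw [hg]; simp
        rw [e1]
        set y := fx x (sg (Sum.inr (Sum.inr (Sum.inl s)))) with hy
        have k2 : pC y = pC x := by
          funext q; exact fx_sg_ne x _ _ (by simp)
        have k3 : y iG = x iG := fx_sg_ne x _ _ (by simp)
        have k4 : ∀ j, pB y j = pB x j := by
          intro j; funext q; exact fx_sg_ne x _ _ (by simp)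
        have k5 : y ∘ Sum.inl = x ∘ Sum.inl := fx_sg_inr_inl x _
        have k6 : pQ y = fx (pQ x) (sg s) := by
          funext q
          simp [pQ, hy, fx, sg]
        have hSy : Good1 z y := by
          refine ⟨(flg_pC _ _ k2).mpr hf, by rw [k3]; exact hg, (Cb_pC z _ _ k2).mpr hc, ?_⟩
          obtain ⟨j, hj⟩ := hj
          refine ⟨j, ?_⟩
          rw [k4]; exact hj
        have e2 := V_le_one (R := R) (Q := Q) z _ hSy
        have e3 : hd (pQ y) (pQ z) + 1 = hd (pQ x) (pQ z) := by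
          rw [k6]; exact hd_sg_wrong _ _ s hs
        have e4 : ((hd (pQ y) (pQ z) : ℕ) : ℝ) + 1 = (hd (pQ x) (pQ z) : ℝ) := by exact_mod_cast e3
        rw [hV]
        unfold V1 at e2 ⊢
        rw [k5] at e2
        have hrq : 0 ≤ R.rq := hG.r_pos.le.trans hG.rq_r
        apply mul_le_mul_of_nonneg_left _ hrq
        rw [← e4]
        linarith
    refine le_trans ?_ (Finset.sum_le_sum fun s _ => hterm s)
    rw [sum_wrong]
    apply le_of_eq
    ring
  have h11 := hG.r_Bc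
  have h12 := hG.κ_X
  have hcardQ : 0 ≤ (Fintype.card (QI P) : ℝ) * (R.r * Q.Bc) := by
    have := mul_nonneg hG.r_pos.le hB
    positivity
  set G := Q.Bc * Phi (z ∘ Sum.inl) (x ∘ Sum.inl) 0 0 P.b with hGd
  have hG0 : 0 ≤ G := mul_nonneg hB hPhi0
  by_cases hq : hd (pQ x) (pQ z) = 0
  · -- launch is possible
    have hVx : V R Q z x = Q.Be + Q.Vm + Q.J + 3 * G := by
      rw [hV]; unfold V1; rw [hq]; push_cast; ring
    have hJ := hG.J_nonneg
    have hacc : ∀ j : Fin P.Nb, hd (fx x (flTr x j)) z ≤ hd x z →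
        Q.J + G ≤ V R Q z x - V R Q z (fx x (flTr x j)) := by
      intro j hacc
      have hSy : GoodScan z (fx x (flTr x j)) 0 0 P.b := by
        refine ⟨(flg_pC _ _ (tr_C x j)).mpr hf, ?_, (Cb_pC z _ _ (tr_C x j)).mpr hc,
          tr_pairs z x j hq, tr_Rh z x j hq, ?_, Or.inl rfl⟩
        · rw [tr_G, hg]; rfl
        · intro a ha
          omega
      have hmy : mem (fx x (flTr x j)) = some (0, 0, P.b) := by
        rw [tr_mem]
        exact P.dec_enc 0 0 P.b hG.m1 hG.b1 (by omega)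
      have e1 := V_le_scan (R := R) (Q := Q) z _ 0 0 P.b hmy hSy
      unfold Vs at e1
      rw [tr_inl, ← hGd] at e1
      have e2 := (tt_le (z ∘ Sum.inl) (x ∘ Sum.inl) 0 0 P.b).trans hG.Vm_ge
      have hVm := Vm_pos hG
      unfold val at e1
      have e3 : tt (z ∘ Sum.inl) (x ∘ Sum.inl) 0 0 P.b * G / Q.Vm ≤ G := by
        rw [div_le_iff₀ hVm, mul_comm G]
        exact mul_le_mul_of_nonneg_right e2 hG0
      rw [hVx]
      linarith
    have hTr : R.τb * (Q.J + G) ≤ ∑ j : Fin P.Nb, pr R x (Sum.inr (Sum.inl j)) *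
        (V R Q z x - V R Q z (rs z x (Sum.inr (Sum.inl j)))) := by
      have e1 : ∀ j : Fin P.Nb, pr R x (Sum.inr (Sum.inl j)) = R.τb := by
        intro j
        simp only [pr]; rw [if_pos ⟨hf, hg⟩]
      have e2 : ∀ j ∈ (Finset.univ : Finset (Fin P.Nb)), 0 ≤ pr R x (Sum.inr (Sum.inl j)) *
          (V R Q z x - V R Q z (rs z x (Sum.inr (Sum.inl j)))) := by
        intro j _
        rw [e1]
        apply mul_nonneg hτ.le
        by_cases ha : hd (fx x (fl x (Sum.inr (Sum.inl j)))) z ≤ hd x z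
        · rw [rs_acc z x _ ha]
          have := hacc j ha
          change 0 ≤ V R Q z x - V R Q z (fx x (flTr x j))
          linarith
        · rw [rs_rej z x _ ha, sub_self]
      obtain ⟨j, hj⟩ := hj
      refine le_trans ?_ (Finset.single_le_sum e2 (Finset.mem_univ j))
      rw [e1]
      apply mul_le_mul_of_nonneg_left _ hτ.le
      have ha : hd (fx x (flTr x j)) z ≤ hd x z :=
        tr_acc z x j hq hj (by have := hG.nr2b; omega)
      have ha' : hd (fx x (fl x (Sum.inr (Sum.inl j)))) z ≤ hd x z := ha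
      rw [rs_acc z x _ ha']
      exact hacc j ha
    rw [h7, h8]
    have h13 := hG.τb_J
    have h14 := mul_le_mul_of_nonneg_right hG.τb_ρN hG0
    have h15 : 0 ≤ R.rq * Q.e1 * (hd (pQ x) (pQ z) : ℝ) := by
      rw [hq]; simp
    have e5 : 3 * ((P.b : ℝ) * (R.ρN * G)) = 3 * ((P.b : ℝ) * R.ρN) * G := by ring
    rw [e5] at h1
    have e6 : R.τb * (Q.J + G) = R.τb * Q.J + R.τb * G := by ring
    rw [e6] at hTr
    linarith
  · have hq1 : (1 : ℝ) ≤ (hd (pQ x) (pQ z) : ℝ) := by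
      have : 1 ≤ hd (pQ x) (pQ z) := by omega
      exact_mod_cast this
    have hTr : -((P.Nb : ℝ) * (R.τb * Q.Bc)) ≤ ∑ j : Fin P.Nb, pr R x (Sum.inr (Sum.inl j)) *
        (V R Q z x - V R Q z (rs z x (Sum.inr (Sum.inl j)))) := by
      have hterm : ∀ j : Fin P.Nb, -(R.τb * Q.Bc) ≤ pr R x (Sum.inr (Sum.inl j)) *
        (V R Q z x - V R Q z (rs z x (Sum.inr (Sum.inl j)))) := by
        intro j
        have e1 : pr R x (Sum.inr (Sum.inl j)) = R.τb := by
          simp only [pr]; rw [if_pos ⟨hf, hg⟩]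
        rw [e1]
        exact term_lower hτ.le (V_nonneg hG z x) (V_rs_le_Bc hG z x hf hc _)
      refine le_trans ?_ (Finset.sum_le_sum fun j _ => hterm j)
      rw [Finset.sum_const, Finset.card_univ, nsmul_eq_mul, Fintype.card_fin]
      linarith
    have h16 : R.rq * Q.e1 * 1 ≤ R.rq * Q.e1 * (hd (pQ x) (pQ z) : ℝ) := by
      apply mul_le_mul_of_nonneg_left hq1
      exact mul_nonneg (hG.r_pos.le.trans hG.rq_r) hG.e1_nonneg
    have h17 := hG.rq_e1
    have h18 : 3 * G ≤ Q.Bc := by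
      rw [hV] at hlt
      unfold V1 at hlt
      rw [← hGd] at hlt
      have a1 := hG.Be_nonneg
      have a2 := Vm_pos hG
      have a3 := hG.J_nonneg
      have a4 := mul_nonneg hG.e1_nonneg (Nat.cast_nonneg (α := ℝ) (hd (pQ x) (pQ z)))
      linarith
    have h19 : 3 * ((P.b : ℝ) * (R.ρN * G)) ≤ (P.b : ℝ) * (R.ρN * Q.Bc) := by
      have : (P.b : ℝ) * (R.ρN * (3 * G)) ≤ (P.b : ℝ) * (R.ρN * Q.Bc) := by
        apply mul_le_mul_of_nonneg_left _ (Nat.cast_nonneg _)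
        exact mul_le_mul_of_nonneg_left h18 hρ.le
      linarith
    rw [h7, h8]
    linarith

/-- The drift inequality. -/
theorem drift_V (hG : HG P R Q) (z x : Sta P) (hx : x ≠ z) :
    1 ≤ ∑ l, pr R x l * (V R Q z x - V R Q z (rs z x l)) := by
  rcases V_cases (R := R) (Q := Q) z x with h | ⟨hlt, ⟨j, t, h, hm, hS, h2⟩ | ⟨hm, hS, h2⟩ | ⟨hS, h2⟩⟩
  · refine (rob hG.toHR z x hx).trans ?_
    refine Finset.sum_le_sum fun l _ => ?_
    apply mul_le_mul_of_nonneg_left _ (pr_nonneg hG.toHR x l)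
    have := V_le_rob (R := R) (Q := Q) z (rs z x l)
    rw [h]
    linarith
  · exact drift_scan hG z x j t h hm hS h2 hlt
  · exact drift_end hG z x hm hS h2
  · exact drift_one hG z x hS h2 hlt

end Pool.Agent.Helper84.OneMax
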