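import Pool.Agent.Helper84.OneMaxInit

set_option autoImplicit false
set_option linter.unusedSectionVars false
set_option linter.unusedVariables false

/-!
Assembly of the upper bound.
-/

namespace Pool.Agent.Helper84.OneMax

open Pool.Agent.Helper84.OneMaxAbs

lemma agree_hd {ι : Type} [Fintype ι] [DecidableEq ι] (x z : ι → Bool) :
    (Finset.univ.filter (fun i => x i = z i)).card + hd x z = Fintype.card ι := by
  unfold hd wr
  rw [Finset.card_filter, ← Finset.sum_add_distrib]
  have : ∀ i : ι, ((if x i = z i then 1 else 0) + (if x i = z i then 0 else 1)) = 1 := by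
    intro i
    split <;> rfl
  rw [Finset.sum_congr rfl fun i _ => this i]
  simp

lemma hd_equiv {ι κ : Type} [Fintype ι] [DecidableEq ι] [Fintype κ] [DecidableEq κ] (e : ι ≃ κ)
    (x z : κ → Bool) : hd (x ∘ e) (z ∘ e) = hd x z := by
  unfold hd
  exact Equiv.sum_comp e (wr x z)

theorem upper_n {P : NP} {R : RP} {Q : Pot} (hb : BlockGoal) (hG : HG P R Q) (hS : HS P R)
    (hl : ∃ w, P.l = 2 * w) (hg : 4 * (P.M + P.b + 1) ^ 2 ≤ P.l + 1) (n : ℕ)
    (hn : Fintype.card (Idx P) = n) :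
    ∃ init : PMF (Fin n → Bool), ∃ step : (Fin n → Bool) → PMF ((Fin n → Bool) × Bool),
      ∀ z : Fin n → Bool, 1 + ∑' k : ℕ, (1 - (iter (ker step z) k init) z) ≤
        ENNReal.ofReal (1 + initB P Q) := by
  classical
  let e : Fin n ≃ Idx P := (Fintype.equivFinOfCardEq hn).symm
  let p : St n → Mv P → ℝ := fun x l => pr R (x ∘ e.symm) l
  let y : St n → Mv P → St n := fun x l => (fx (x ∘ e.symm) (fl (x ∘ e.symm) l)) ∘ e
  have h0 : ∀ x l, 0 ≤ p x l := fun x l => pr_nonneg hG.toHR _ l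
  have h1 : ∀ x, ∑ l, p x l ≤ 1 := fun x => pr_sum hG hS _
  refine ⟨(PMF.uniformOfFintype (Om P)).bind (fun ω => PMF.pure ((g0 ω) ∘ e)), stp p y h0 h1, fun z => ?_⟩
  refine upper_abs p y h0 h1 z (fun x => V R Q (z ∘ e.symm) (x ∘ e.symm)) (fun x => V_nonneg hG _ _)
    ?_ (fun ω => (g0 ω) ∘ e) (initB P Q) ?_
  · intro x hx
    have hx' : x ∘ e.symm ≠ z ∘ e.symm := by
      intro h
      apply hx
      funext i
      have := congrFun h (e i)
      simpa using this
    refine (drift_V hG (z ∘ e.symm) (x ∘ e.symm) hx').trans (le_of_eq ?_)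
    refine Finset.sum_congr rfl fun l _ => ?_
    have key : (res z x (y x l)) ∘ e.symm = rs (z ∘ e.symm) (x ∘ e.symm) l := by
      have hy : (y x l) ∘ e.symm = fx (x ∘ e.symm) (fl (x ∘ e.symm) l) := by
        funext i
        simp [y]
      have c1 := agree_hd x z
      have c2 := agree_hd (y x l) z
      have c3 := hd_equiv e.symm x z
      have c4 := hd_equiv e.symm (y x l) z
      rw [hy] at c4
      unfold res rs
      by_cases hc : (Finset.univ.filter (fun i => x i = z i)).card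
          ≤ (Finset.univ.filter (fun i => (y x l) i = z i)).card
      · rw [if_pos hc, if_pos (by omega), hy]
      · rw [if_neg hc, if_neg (by omega)]
    change pr R (x ∘ e.symm) l * _ = pr R (x ∘ e.symm) l * _
    rw [key]
  · have h2 : ∀ ω : Om P, V R Q (z ∘ e.symm) (((g0 ω) ∘ e) ∘ e.symm) = V R Q (z ∘ e.symm) (g0 ω) := by
      intro ω
      congr 1
      funext i
      simp
    simp only [h2]
    exact init_sum hb hG (z ∘ e.symm) hl hg

theorem upper (hb : BlockGoal) (hp : ParamsGoal) :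
    ∃ (C : ℝ) (n0 : ℕ), ∀ n : ℕ, n0 ≤ n →
    ∃ init : PMF (Fin n → Bool), ∃ step : (Fin n → Bool) → PMF ((Fin n → Bool) × Bool),
      ∀ z : Fin n → Bool, 1 + ∑' k : ℕ, (1 - (iter (ker step z) k init) z) ≤
        ENNReal.ofReal (C * (n : ℝ)) := by
  obtain ⟨C, n0, h⟩ := hp
  refine ⟨C + 1, max n0 1, fun n hn => ?_⟩
  obtain ⟨P, R, Q, hG, hS, hc, hl, hg, hB⟩ := h n (le_trans (le_max_left _ _) hn)
  obtain ⟨init, step, hz⟩ := upper_n hb hG hS hl hg n hc
  refine ⟨init, step, fun z => (hz z).trans ?_⟩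
  apply ENNReal.ofReal_le_ofReal
  have h1 : (1 : ℝ) ≤ (n : ℝ) := by
    have : 1 ≤ n := le_trans (le_max_right _ _) hn
    exact_mod_cast this
  linarith

end Pool.Agent.Helper84.OneMax
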