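import Pool.Agent.Helper84.OneMaxDrift

set_option autoImplicit false
set_option linter.unusedSectionVars false
set_option linter.unusedVariables false

/-!
Total rate bound and the statement of the numeric goal.
-/

namespace Pool.Agent.Helper84.OneMax

/-- hypotheses making the total rate at most one -/
structure HS (P : NP) (R : RP) : Prop where
  ρ8 : (Fintype.card (AI P) : ℝ) * R.ρN ≤ 1 / 8
  a8 : (Fintype.card (AI P) : ℝ) * R.aN ≤ 1 / 8
  aNS : R.aN ≤ R.aS
  aS8 : (Fintype.card (SI P) : ℝ) * R.aS ≤ 1 / 8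
  r8 : (Fintype.card ((Fin P.Nb × Fin P.l) ⊕ Unit) : ℝ) * R.r ≤ 1 / 8
  rq8 : (Fintype.card (QI P) : ℝ) * R.rq ≤ 1 / 8
  κe8 : (Fintype.card (CI P) : ℝ) * R.κe ≤ 1 / 8
  τ2 : (P.Nb : ℝ) * R.τb ≤ 1 / 2

lemma sum_le_card {ι : Type} [Fintype ι] (f : ι → ℝ) (c B : ℝ) (h : ∀ i, f i ≤ c)
    (hB : (Fintype.card ι : ℝ) * c ≤ B) : ∑ i, f i ≤ B := by
  refine (Finset.sum_le_sum fun i _ => h i).trans ?_
  rw [Finset.sum_const, Finset.card_univ, nsmul_eq_mul]
  exact hB

theorem pr_sum {P : NP} {R : RP} {Q : Pot} (hG : HG P R Q) (hS : HS P R) (x : Sta P) :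
    ∑ l, pr R x l ≤ 1 := by
  rw [sum_all]
  have hb1 : ∑ a : AI P, pr R x (Sum.inl (Sum.inl a)) ≤ 1 / 8 := by
    by_cases hf : flg x
    · refine sum_le_card _ R.ρN _ (fun a => ?_) hS.ρ8
      simp only [pr, rt]; rw [if_pos hf]
    · refine sum_le_card _ R.aN _ (fun a => ?_) hS.a8
      simp only [pr, rt]; rw [if_neg hf]
  have hun : ¬ flg x → ∀ s : SI P, pr R x (Sum.inl (Sum.inr s)) ≤ R.aS := by
    intro hf s
    simp only [pr, rt]; rw [if_neg hf]
    split
    · exact hS.aNS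
    · exact le_rfl
  have haS := hG.aS_pos
  have hsum : ∑ s : (Fin P.Nb × Fin P.l) ⊕ Unit, pr R x (Sum.inl (Sum.inr (Sum.inl s))) +
      (∑ q : QI P, pr R x (Sum.inl (Sum.inr (Sum.inr (Sum.inl q)))) +
        ∑ c : CI P, pr R x (Sum.inl (Sum.inr (Sum.inr (Sum.inr c))))) ≤ 3 / 8 := by
    by_cases hf : flg x
    · have h1 : ∑ s : (Fin P.Nb × Fin P.l) ⊕ Unit, pr R x (Sum.inl (Sum.inr (Sum.inl s))) ≤ 1 / 8 := by
        refine sum_le_card _ R.r _ (fun a => ?_) hS.r8
        simp only [pr, rt, rtS]; rw [if_pos hf]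
      have h2 : ∑ q : QI P, pr R x (Sum.inl (Sum.inr (Sum.inr (Sum.inl q)))) ≤ 1 / 8 := by
        refine sum_le_card _ R.rq _ (fun a => ?_) hS.rq8
        simp only [pr, rt, rtS]; rw [if_pos hf]
        split
        · exact hG.rq_r
        · exact le_rfl
      have h3 : ∑ c : CI P, pr R x (Sum.inl (Sum.inr (Sum.inr (Sum.inr c)))) ≤ 1 / 8 := by
        refine sum_le_card _ R.κe _ (fun a => ?_) hS.κe8
        simp only [pr, rt, rtS]; rw [if_pos hf]
        split
        · exact le_rfl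
        · exact hG.κe_κ
      linarith
    · have hcard : (Fintype.card (SI P) : ℝ) = (Fintype.card ((Fin P.Nb × Fin P.l) ⊕ Unit) : ℝ) +
          ((Fintype.card (QI P) : ℝ) + (Fintype.card (CI P) : ℝ)) := by
        have : Fintype.card (SI P) = Fintype.card ((Fin P.Nb × Fin P.l) ⊕ Unit) +
          (Fintype.card (QI P) + Fintype.card (CI P)) := by
          have e1 := Fintype.card_sum (α := (Fin P.Nb × Fin P.l) ⊕ Unit) (β := QI P ⊕ CI P)
          have e2 := Fintype.card_sum (α := QI P) (β := CI P)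
          rw [e2] at e1
          exact e1
        rw [this]; push_cast; ring
      have h8 := hS.aS8
      rw [hcard] at h8
      have p1 : 0 ≤ (Fintype.card ((Fin P.Nb × Fin P.l) ⊕ Unit) : ℝ) * R.aS := by positivity
      have p2 : 0 ≤ (Fintype.card (QI P) : ℝ) * R.aS := by positivity
      have p3 : 0 ≤ (Fintype.card (CI P) : ℝ) * R.aS := by positivity
      have h1 : ∑ s : (Fin P.Nb × Fin P.l) ⊕ Unit, pr R x (Sum.inl (Sum.inr (Sum.inl s))) ≤
          (Fintype.card ((Fin P.Nb × Fin P.l) ⊕ Unit) : ℝ) * R.aS :=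
        sum_le_card _ R.aS _ (fun a => hun hf _) le_rfl
      have h2 : ∑ q : QI P, pr R x (Sum.inl (Sum.inr (Sum.inr (Sum.inl q)))) ≤
          (Fintype.card (QI P) : ℝ) * R.aS :=
        sum_le_card _ R.aS _ (fun a => hun hf _) le_rfl
      have h3 : ∑ c : CI P, pr R x (Sum.inl (Sum.inr (Sum.inr (Sum.inr c)))) ≤
          (Fintype.card (CI P) : ℝ) * R.aS :=
        sum_le_card _ R.aS _ (fun a => hun hf _) le_rfl
      linarith
  have hspec : ∑ j : Fin P.Nb, pr R x (Sum.inr (Sum.inl j)) +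
      (pr R x (Sum.inr (Sum.inr true)) + pr R x (Sum.inr (Sum.inr false))) ≤ 1 / 2 := by
    by_cases hf : flg x
    · by_cases hg : x iG = true
      · have h1 : ∑ j : Fin P.Nb, pr R x (Sum.inr (Sum.inl j)) = 0 := by
          refine Finset.sum_eq_zero fun j _ => ?_
          simp only [pr]; rw [if_neg]; rw [hg]; simp
        have h2 : pr R x (Sum.inr (Sum.inr true)) = pT P (mem x) := by
          simp only [pr]; rw [if_pos ⟨hf, hg⟩]
        have h3 : pr R x (Sum.inr (Sum.inr false)) = pF P (mem x) := by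
          simp only [pr]; rw [if_pos ⟨hf, hg⟩]
        rw [h1, h2, h3]
        rcases mem x with _ | ⟨j, t, h⟩
        · simp only [pT, pF]; norm_num
        · simp only [pT, pF]
          by_cases hp : t = 0 ∧ P.b < h
          · rw [if_pos hp, if_pos (Or.inl hp)]; norm_num
          · rw [if_neg hp]
            split <;> split <;> norm_num
      · have hg' : x iG = false := by
          cases hx : x iG
          · rfl
          · exact absurd hx hg
        have h2 : pr R x (Sum.inr (Sum.inr true)) = 0 := by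
          simp only [pr]; rw [if_neg (fun h => hg h.2)]
        have h3 : pr R x (Sum.inr (Sum.inr false)) = 0 := by
          simp only [pr]; rw [if_neg (fun h => hg h.2)]
        rw [h2, h3]
        have h1 : ∑ j : Fin P.Nb, pr R x (Sum.inr (Sum.inl j)) ≤ 1 / 2 := by
          refine sum_le_card _ R.τb _ (fun a => ?_) (by rw [Fintype.card_fin]; exact hS.τ2)
          simp only [pr]; rw [if_pos ⟨hf, hg'⟩]
        linarith
    · have h1 : ∑ j : Fin P.Nb, pr R x (Sum.inr (Sum.inl j)) = 0 := by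
        refine Finset.sum_eq_zero fun j _ => ?_
        simp only [pr]; rw [if_neg (fun h => hf h.1)]
      have h2 : pr R x (Sum.inr (Sum.inr true)) = 0 := by
        simp only [pr]; rw [if_neg (fun h => hf h.1)]
      have h3 : pr R x (Sum.inr (Sum.inr false)) = 0 := by
        simp only [pr]; rw [if_neg (fun h => hf h.1)]
      rw [h1, h2, h3]
      norm_num
  linarith

/-- The value bound of the initial state. -/
noncomputable def initB (P : NP) (Q : Pot) : ℝ :=
  Q.Be + Q.Vm + Q.J + Q.e1 * (Fintype.card (QI P) : ℝ)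
    + 3 * (Q.Bc * ((P.m : ℝ) * (93 / 112) ^ P.b)) + Q.Bc * (3 / 4) ^ P.Nb + Q.Z0 / 2 ^ P.k

/-- The numeric goal: suitable parameters exist for all large `n`. -/
def ParamsGoal : Prop :=
  ∃ (C : ℝ) (n0 : ℕ), ∀ n : ℕ, n0 ≤ n → ∃ (P : NP) (R : RP) (Q : Pot), HG P R Q ∧ HS P R ∧
    Fintype.card (Idx P) = n ∧ (∃ w, P.l = 2 * w) ∧ 4 * (P.M + P.b + 1) ^ 2 ≤ P.l + 1 ∧
    initB P Q ≤ C * (n : ℝ)

/-- A concrete reformulation of the numeric goal in the number of blocks etc. -/
def BlockGoal : Prop :=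
  ∀ (w g : ℕ), 4 * g ^ 2 ≤ 2 * w + 1 → ∀ z : Fin (2 * w) → Bool,
    (2 : ℝ) ^ (2 * w) ≤ 4 * (((Finset.univ : Finset (Fin (2 * w) → Bool)).filter
      (fun x => 2 * w + g ≤ 2 * hd x z)).card : ℝ)

end Pool.Agent.Helper84.OneMax
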