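import Pool.Agent.Helper84.OneMaxMoves

set_option autoImplicit false
set_option linter.unusedSectionVars false
set_option linter.unusedVariables false

/-!
The full potential: definition and the scanning transitions.
-/

namespace Pool.Agent.Helper84.OneMax

variable {P : NP}

def GoodScan (z x : Sta P) (j t h : ℕ) : Prop :=
  flg x ∧ x iG = true ∧ Cb z x ∧ Pairs z x ∧ Rh z x h ∧
  (∀ a : AI P, (a.1.val < j ∨ (a.1.val = j ∧ a.2.val < t)) → x (Sum.inl a) = z (Sum.inl a)) ∧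
  (t = 0 ∨ h ≤ P.b + t)

def GoodEnd (z x : Sta P) : Prop :=
  flg x ∧ x iG = true ∧ Cb z x ∧ ∀ a : AI P, x (Sum.inl a) = z (Sum.inl a)

def Good1 (z x : Sta P) : Prop :=
  flg x ∧ x iG = false ∧ Cb z x ∧ ∃ j, P.l + P.M + P.b + 1 ≤ 2 * hd (pB x j) (pB z j)

noncomputable def val (Q : Pot) (T G : ℝ) : ℝ := Q.Be + T + G + T * G / Q.Vm

noncomputable def Vs (Q : Pot) (z x : Sta P) (j t h : ℕ) : ℝ :=
  val Q (tt (z ∘ Sum.inl) (x ∘ Sum.inl) j t h) (Q.Bc * Phi (z ∘ Sum.inl) (x ∘ Sum.inl) j t h)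

noncomputable def V1 (Q : Pot) (z x : Sta P) : ℝ :=
  Q.Be + Q.Vm + Q.J + Q.e1 * (hd (pQ x) (pQ z) : ℝ)
    + 3 * (Q.Bc * Phi (z ∘ Sum.inl) (x ∘ Sum.inl) 0 0 P.b)

open Classical in
noncomputable def Vg (R : RP) (Q : Pot) (z x : Sta P) : Option (ℕ × ℕ × ℕ) → ℝ
  | none => if GoodEnd z x then Q.Be else Vrob R Q z x
  | some (j, t, h) => if GoodScan z x j t h then Vs Q z x j t h else Vrob R Q z x

open Classical in
noncomputable def V (R : RP) (Q : Pot) (z x : Sta P) : ℝ :=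
  min (Vrob R Q z x) (min (Vg R Q z x (mem x)) (if Good1 z x then V1 Q z x else Vrob R Q z x))

structure HG (P : NP) (R : RP) (Q : Pot) : Prop extends HR P R Q where
  m1 : 1 ≤ P.m
  b1 : 1 ≤ P.b
  nr2b : 2 * P.b ≤ P.nr
  Be_nonneg : 0 ≤ Q.Be
  Vm_ge : 392 * ((P.m * P.b : ℕ) : ℝ) + 264 ≤ Q.Vm
  J_nonneg : 0 ≤ Q.J
  e1_nonneg : 0 ≤ Q.e1
  r_Bc : ((Fintype.card ((Fin P.Nb × Fin P.l) ⊕ Unit) : ℝ) + (Fintype.card (QI P) : ℝ)) * (R.r * Q.Bc) ≤ 1
  κ_X : (Fintype.card (CI P) : ℝ) * (R.κ * Q.X) ≤ 1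
  ρN_256 : R.ρN * 256 ≤ 1
  ρN_Vm : R.ρN * (512 / Q.Vm + 2 * (P.b : ℝ)) ≤ 4 / Q.Vm
  κe_Be : ∀ x z : Sta P, wA z x = 0 → 2 ≤ R.κe * (Q.Be - V3 Q z x)
  τb_J : 3 ≤ R.τb * Q.J
  τb_ρN : 3 * ((P.b : ℝ) * R.ρN) ≤ R.τb
  rq_e1 : 3 + (P.Nb : ℝ) * (R.τb * Q.Bc) + (P.b : ℝ) * (R.ρN * Q.Bc) ≤ R.rq * Q.e1

section
variable {R : RP} {Q : Pot}

lemma V_le_rob (z x : Sta P) : V R Q z x ≤ Vrob R Q z x := min_le_left _ _

lemma V_le_scan (z x : Sta P) (j t h : ℕ) (hm : mem x = some (j, t, h)) (hs : GoodScan z x j t h) :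
    V R Q z x ≤ Vs Q z x j t h := by
  unfold V
  refine (min_le_right _ _).trans ((min_le_left _ _).trans ?_)
  rw [hm]
  simp only [Vg]
  rw [if_pos hs]

lemma V_le_end (z x : Sta P) (hm : mem x = none) (hs : GoodEnd z x) :
    V R Q z x ≤ Q.Be := by
  unfold V
  refine (min_le_right _ _).trans ((min_le_left _ _).trans ?_)
  rw [hm]
  simp only [Vg]
  rw [if_pos hs]

lemma V_le_one (z x : Sta P) (hs : Good1 z x) : V R Q z x ≤ V1 Q z x := by
  unfold V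
  refine (min_le_right _ _).trans ((min_le_right _ _).trans ?_)
  rw [if_pos hs]

open Classical in
lemma V_cases (z x : Sta P) : V R Q z x = Vrob R Q z x ∨ (V R Q z x < Vrob R Q z x ∧
    ((∃ j t h, mem x = some (j, t, h) ∧ GoodScan z x j t h ∧ V R Q z x = Vs Q z x j t h) ∨
    (mem x = none ∧ GoodEnd z x ∧ V R Q z x = Q.Be) ∨
    (Good1 z x ∧ V R Q z x = V1 Q z x))) := by
  rcases (V_le_rob (R := R) (Q := Q) z x).lt_or_eq with h | h
  · right
    refine ⟨h, ?_⟩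
    have h2 : V R Q z x = Vrob R Q z x ∨ V R Q z x = Vg R Q z x (mem x) ∨
        V R Q z x = (if Good1 z x then V1 Q z x else Vrob R Q z x) := by
      unfold V
      rcases min_choice (Vrob R Q z x) (min (Vg R Q z x (mem x)) (if Good1 z x then V1 Q z x else Vrob R Q z x)) with e | e
      · left; exact e
      · right
        rw [e]
        exact min_choice _ _
    rcases h2 with h2 | h2 | h2
    · exact absurd h2 h.ne
    · rcases hm : mem x with _ | ⟨j, t, hh⟩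
      · rw [hm] at h2
        simp only [Vg] at h2
        split at h2
        · rename_i h3
          right; left
          exact ⟨rfl, h3, h2⟩
        · exact absurd h2 h.ne
      · rw [hm] at h2
        simp only [Vg] at h2
        split at h2
        · rename_i h3
          left
          exact ⟨j, t, hh, rfl, h3, h2⟩
        · exact absurd h2 h.ne
    · split at h2
      · rename_i h3
        right; right
        exact ⟨h3, h2⟩
      · exact absurd h2 h.ne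
  · left; exact h

lemma Vm_pos (hG : HG P R Q) : 0 < Q.Vm := by
  have := hG.Vm_ge
  have h2 : (0 : ℝ) ≤ ((P.m * P.b : ℕ) : ℝ) := Nat.cast_nonneg _
  linarith

lemma val_mono (hG : HG P R Q) {T T' G G' : ℝ} (h0 : 0 ≤ T) (h1 : T ≤ T') (h2 : 0 ≤ G) (h3 : G ≤ G') :
    val Q T G ≤ val Q T' G' := by
  unfold val
  have hV := Vm_pos hG
  have h4 : T * G / Q.Vm ≤ T' * G' / Q.Vm := by
    apply div_le_div_of_nonneg_right _ hV.le
    exact mul_le_mul h1 h3 h2 (h0.trans h1)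
  linarith

lemma val_ge_G (hG : HG P R Q) {T G : ℝ} (h0 : 0 ≤ T) (h2 : 0 ≤ G) : G ≤ val Q T G := by
  unfold val
  have hV := Vm_pos hG
  have h4 : 0 ≤ T * G / Q.Vm := by positivity
  have := hG.Be_nonneg
  linarith

lemma val_ge_Be (hG : HG P R Q) {T G : ℝ} (h0 : 0 ≤ T) (h2 : 0 ≤ G) : Q.Be ≤ val Q T G := by
  unfold val
  have hV := Vm_pos hG
  have h4 : 0 ≤ T * G / Q.Vm := by positivity
  linarith

lemma tt_nonneg (za xa : AI P → Bool) (j t h : ℕ) (hj : j < P.m) (ht : t < P.b) :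
    0 ≤ tt za xa j t h := by
  have h1 := tt_ge za xa j t h hj ht
  have h2 := st_nonneg za xa j t h
  linarith

lemma Bc_nn (hG : HG P R Q) (z : Sta P) : 0 ≤ Q.Bc := Bc_nonneg hG.toHR z

lemma V_nonneg (hG : HG P R Q) (z x : Sta P) : 0 ≤ V R Q z x := by
  have hB := Bc_nn hG z
  rcases V_cases (R := R) (Q := Q) z x with h | ⟨_, ⟨j, t, h, hm, _, h2⟩ | ⟨_, _, h2⟩ | ⟨_, h2⟩⟩
  · rw [h]; exact Vrob_nonneg hG.toHR z x
  · rw [h2]
    have hd := P.dec_some _ _ _ _ hm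
    exact hG.Be_nonneg.trans (val_ge_Be hG (tt_nonneg _ _ _ _ _ hd.1 hd.2.1)
      (mul_nonneg hB (Phi_nonneg _ _ _ _ _)))
  · rw [h2]; exact hG.Be_nonneg
  · rw [h2]
    unfold V1
    have h3 := Vm_pos hG
    have h4 := hG.Be_nonneg
    have h5 := hG.J_nonneg
    have h6 := mul_nonneg hG.e1_nonneg (Nat.cast_nonneg (α := ℝ) (hd (pQ x) (pQ z)))
    have h7 := mul_nonneg hB (Phi_nonneg (z ∘ Sum.inl) (x ∘ Sum.inl) 0 0 P.b)
    linarith

/-- the point `(j,t)` -/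
def pt {P : NP} {j t : ℕ} (hj : j < P.m) (ht : t < P.b) : AI P := (⟨j, hj⟩, ⟨t, ht⟩)

lemma eA_eq {j t : ℕ} (hj : j < P.m) (ht : t < P.b) : eA (P := P) j t = sg (pt hj ht) := by
  funext a
  have : (a.1.val = j ∧ a.2.val = t) ↔ a = pt hj ht := by
    constructor
    · intro h
      exact Prod.ext (Fin.ext h.1) (Fin.ext h.2)
    · rintro rfl
      exact ⟨rfl, rfl⟩
  exact decide_eq_decide.mpr this

lemma coef_np {t h : ℕ} (hnp : ¬ (t = 0 ∧ P.b < h)) : coef P t h = 2 ^ P.b / 2 ^ h := by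
  unfold coef; rw [if_neg hnp]

lemma st_np_wrong (za xa : AI P → Bool) {j t h : ℕ} (hnp : ¬ (t = 0 ∧ P.b < h)) (haw : aw za xa j t) :
    st za xa j t h = 0 := by
  unfold st; rw [if_neg hnp, if_pos haw]

lemma st_np_right (za xa : AI P → Bool) {j t h : ℕ} (hnp : ¬ (t = 0 ∧ P.b < h)) (haw : ¬ aw za xa j t) :
    st za xa j t h = 256 := by
  unfold st; rw [if_neg hnp, if_neg haw]

/-- data produced by an `fl2` move from a good scanning state -/
lemma fl2_good (hnr : 2 * P.b ≤ P.nr) (z x : Sta P) (j t h : ℕ) (hS : GoodScan z x j t h)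
    (fa : AI P → Bool) (fr : ℕ → Bool) (v : Fin P.M → Bool) (h' : ℕ) (hh : h ≤ 2 * P.b) (hh' : h' ≤ 2 * P.b)
    (hf : ∀ i, fr i = true ↔ ¬ ((i < h) ↔ (i < h'))) :
    flg (fx x (fl2 x fa fr v)) ∧ (fx x (fl2 x fa fr v)) iG = true ∧ Cb z (fx x (fl2 x fa fr v)) ∧
    Pairs z (fx x (fl2 x fa fr v)) ∧ Rh z (fx x (fl2 x fa fr v)) h' ∧
    wS z (fx x (fl2 x fa fr v)) + h = wS z x + h' := by
  obtain ⟨h1, h2, h3, h4, h5, h6, h7⟩ := hS
  refine ⟨(flg_pC _ _ (fl2_C x fa fr v)).mpr h1, ?_, (Cb_pC z _ _ (fl2_C x fa fr v)).mpr h3,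
    fl2_pairs z x fa fr v h4, fl2_Rh z x fa fr v h h' h5 hf,
    fl2_wS z x fa fr v h h' h4 h5 hf (by omega) (by omega)⟩
  rw [fl2_G, h2]

lemma good_h (z x : Sta P) {j t h : ℕ} (hS : GoodScan z x j t h) (hnp : ¬ (t = 0 ∧ P.b < h)) :
    h ≤ P.b + t := by
  rcases hS.2.2.2.2.2.2 with h1 | h1
  · subst h1
    by_contra h2
    exact hnp ⟨rfl, by omega⟩
  · exact h1

/-- a state with `h = 0` has a large good value -/
lemma h_pos (hG : HG P R Q) (z x : Sta P) {j t h : ℕ} (hm : mem x = some (j, t, h))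
    (hlt : Vs Q z x j t h < Q.Bc) : 1 ≤ h := by
  by_contra h0
  have h0' : h = 0 := by omega
  subst h0'
  have hd := P.dec_some _ _ _ _ hm
  have hB := Bc_nn hG z
  have h1 := psi_le_Phi (z ∘ Sum.inl) (x ∘ Sum.inl) j t 0 ⟨j, hd.1⟩
  have h2 : psi (z ∘ Sum.inl) (x ∘ Sum.inl) j t 0 j = coef P t 0 * cur (z ∘ Sum.inl) (x ∘ Sum.inl) j t := by
    unfold psi; rw [if_neg (by omega), if_pos rfl]
  rw [coef_np (by omega)] at h2
  have h3 := cur_lower (z ∘ Sum.inl) (x ∘ Sum.inl) j t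
  have h4 : (1 : ℝ) ≤ psi (z ∘ Sum.inl) (x ∘ Sum.inl) j t 0 j := by
    rw [h2, pow_zero, div_one]
    calc (1 : ℝ) = 2 ^ P.b * (1 / 2 ^ P.b) := by field_simp
      _ ≤ _ := by gcongr
  have h5 : (1 : ℝ) ≤ Phi (z ∘ Sum.inl) (x ∘ Sum.inl) j t 0 := h4.trans h1
  have h6 : Q.Bc ≤ Vs Q z x j t 0 := by
    unfold Vs
    refine le_trans ?_ (val_ge_G hG (tt_nonneg _ _ _ _ _ hd.1 hd.2.1)
      (mul_nonneg hB (Phi_nonneg _ _ _ _ _)))
    nlinarith
  linarith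

end

end Pool.Agent.Helper84.OneMax
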