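import Pool.Agent.Helper84.OneMaxGoal
import Pool.Agent.Helper84.OneMaxAlg

set_option autoImplicit false
set_option linter.unusedSectionVars false
set_option linter.unusedVariables false

/-!
The initial distribution and the transport to `Fin n`.
-/

namespace Pool.Agent.Helper84.OneMax

variable {P : NP} {R : RP} {Q : Pot}

abbrev Om (P : NP) : Type := (Fin P.b → Bool) × ((Fin P.Nb → Fin P.l → Bool) × (Fin P.k → Bool))

def g0 (ω : Om P) : Sta P
  | Sum.inl a => ω.1 a.2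
  | Sum.inr (Sum.inl (Sum.inl s)) => ω.2.1 s.1 s.2
  | Sum.inr (Sum.inl (Sum.inr _)) => false
  | Sum.inr (Sum.inr (Sum.inl _)) => false
  | Sum.inr (Sum.inr (Sum.inr c)) => ω.2.2 c.2

/-- extension of a word to the A-part -/
def exA (v : Fin P.b → Bool) : AI P → Bool := fun a => v a.2

lemma g0_inl (ω : Om P) : (g0 ω) ∘ Sum.inl = exA ω.1 := rfl

lemma sum_bool_cube {ι : Type} [Fintype ι] [DecidableEq ι] (f : ι → Bool → ℝ) :
    ∑ v : ι → Bool, ∏ i, f i (v i) = ∏ i, (f i true + f i false) := by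
  have h := Finset.prod_univ_sum (fun _ : ι => (Finset.univ : Finset Bool)) f
  rw [Fintype.piFinset_univ] at h
  rw [← h]
  refine Finset.prod_congr rfl fun i _ => ?_
  rw [Fintype.sum_bool]

lemma cur_exA (za : AI P → Bool) (v : Fin P.b → Bool) (j : Fin P.m) :
    cur za (exA v) j.val 0 = ∏ t : Fin P.b, (if v t = za (j, t) then (31 / 28 : ℝ) else 31 / 56) := by
  unfold cur
  have h1 : Finset.Ico 0 P.b = Finset.range P.b := by
    ext i; simp
  rw [h1, ← Fin.prod_univ_eq_prod_range (fun t' => th za (exA v) j.val t') P.b]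
  refine Finset.prod_congr rfl fun t _ => ?_
  have h2 := aw_iff za (exA v) (j, t)
  unfold th
  by_cases h3 : v t = za (j, t)
  · rw [if_pos h3, if_neg]
    intro h4
    exact (h2.mp h4) h3
  · rw [if_neg h3, if_pos (h2.mpr h3)]

lemma sum_cur (za : AI P → Bool) (j : Fin P.m) :
    ∑ v : Fin P.b → Bool, cur za (exA v) j.val 0 = (93 / 56 : ℝ) ^ P.b := by
  simp only [cur_exA]
  rw [sum_bool_cube (fun t c => if c = za (j, t) then (31 / 28 : ℝ) else 31 / 56)]
  have : ∀ t : Fin P.b, ((if true = za (j, t) then (31 / 28 : ℝ) else 31 / 56) +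
      (if false = za (j, t) then (31 / 28 : ℝ) else 31 / 56)) = 93 / 56 := by
    intro t
    cases za (j, t) <;> norm_num
  rw [Finset.prod_congr rfl fun t _ => this t, Finset.prod_const, Finset.card_univ, Fintype.card_fin]

lemma sum_fst {α β : Type} [Fintype α] [Fintype β] (f : α → ℝ) :
    ∑ ω : α × β, f ω.1 = (Fintype.card β : ℝ) * ∑ a, f a := by
  rw [Fintype.sum_prod_type, Finset.mul_sum]
  refine Finset.sum_congr rfl fun a _ => ?_
  simp

lemma sum_snd {α β : Type} [Fintype α] [Fintype β] (f : β → ℝ) :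
    ∑ ω : α × β, f ω.2 = (Fintype.card α : ℝ) * ∑ a, f a := by
  rw [Fintype.sum_prod_type]
  simp

lemma Phi_init (za xa : AI P → Bool) : Phi za xa 0 0 P.b = ∑ j : Fin P.m, cur za xa j.val 0 := by
  unfold Phi
  refine Finset.sum_congr rfl fun j _ => ?_
  unfold psi
  rw [if_neg (by omega)]
  split
  · rename_i h
    rw [coef_np (by omega), div_self (by positivity), one_mul, h]
  · rfl

lemma sum_Phi (za : AI P → Bool) :
    ∑ v : Fin P.b → Bool, Phi za (exA v) 0 0 P.b = (P.m : ℝ) * (93 / 56 : ℝ) ^ P.b := by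
  simp only [Phi_init]
  rw [Finset.sum_comm]
  rw [Finset.sum_congr rfl fun j _ => sum_cur za j]
  simp

/-- all blocks bad -/
def AllBad (z : Sta P) (p : Fin P.Nb → Fin P.l → Bool) : Prop :=
  ∀ j, ¬ (P.l + P.M + P.b + 1 ≤ 2 * hd (p j) (pB z j))

open Classical in
lemma sum_allbad (hb : BlockGoal) (z : Sta P) (hl : ∃ w, P.l = 2 * w)
    (hg : 4 * (P.M + P.b + 1) ^ 2 ≤ P.l + 1) :
    ∑ p : Fin P.Nb → Fin P.l → Bool, (if AllBad z p then (1 : ℝ) else 0) ≤
      (3 / 4) ^ P.Nb * ((2 : ℝ) ^ P.l) ^ P.Nb := by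
  have h1 : ∀ p : Fin P.Nb → Fin P.l → Bool, (if AllBad z p then (1 : ℝ) else 0) =
      ∏ j, (if P.l + P.M + P.b + 1 ≤ 2 * hd (p j) (pB z j) then (0 : ℝ) else 1) := by
    intro p
    by_cases h : AllBad z p
    · rw [if_pos h, Finset.prod_eq_one]
      intro j _
      rw [if_neg (h j)]
    · rw [if_neg h]
      unfold AllBad at h
      push Not at h
      obtain ⟨j, hj⟩ := h
      rw [Finset.prod_eq_zero (Finset.mem_univ j)]
      rw [if_pos hj]
  rw [Finset.sum_congr rfl fun p _ => h1 p]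
  have h2 := Finset.prod_univ_sum (fun _ : Fin P.Nb => (Finset.univ : Finset (Fin P.l → Bool)))
    (fun j x => if P.l + P.M + P.b + 1 ≤ 2 * hd x (pB z j) then (0 : ℝ) else 1)
  rw [Fintype.piFinset_univ] at h2
  rw [← h2, ← mul_pow]
  have h3 : ∀ j : Fin P.Nb, ∑ x : Fin P.l → Bool, (if P.l + P.M + P.b + 1 ≤ 2 * hd x (pB z j) then (0 : ℝ) else 1)
      ≤ 3 / 4 * (2 : ℝ) ^ P.l := by
    intro j
    have key : ∀ (L : ℕ) (hL : ∃ w, L = 2 * w) (zz : Fin L → Bool) (hgg : 4 * (P.M + P.b + 1) ^ 2 ≤ L + 1),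
        ∑ x : Fin L → Bool, (if L + P.M + P.b + 1 ≤ 2 * hd x zz then (0 : ℝ) else 1) ≤ 3 / 4 * (2 : ℝ) ^ L := by
      rintro L ⟨w, rfl⟩ zz hgg
      have h4 := hb w (P.M + P.b + 1) hgg zz
      have h5 : ∑ x : Fin (2 * w) → Bool, (if 2 * w + P.M + P.b + 1 ≤ 2 * hd x zz then (0 : ℝ) else 1) +
          ∑ x : Fin (2 * w) → Bool, (if 2 * w + (P.M + P.b + 1) ≤ 2 * hd x zz then (1 : ℝ) else 0) =
          (2 : ℝ) ^ (2 * w) := by
        rw [← Finset.sum_add_distrib]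
        have : ∀ x : Fin (2 * w) → Bool, ((if 2 * w + P.M + P.b + 1 ≤ 2 * hd x zz then (0 : ℝ) else 1) +
          (if 2 * w + (P.M + P.b + 1) ≤ 2 * hd x zz then (1 : ℝ) else 0)) = 1 := by
          intro x
          by_cases h6 : 2 * w + P.M + P.b + 1 ≤ 2 * hd x zz
          · rw [if_pos h6, if_pos (by omega)]; norm_num
          · rw [if_neg h6, if_neg (by omega)]; norm_num
        rw [Finset.sum_congr rfl fun x _ => this x]
        simp
      have h6 : ∑ x : Fin (2 * w) → Bool, (if 2 * w + (P.M + P.b + 1) ≤ 2 * hd x zz then (1 : ℝ) else 0) =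
          (((Finset.univ : Finset (Fin (2 * w) → Bool)).filter
            (fun x => 2 * w + (P.M + P.b + 1) ≤ 2 * hd x zz)).card : ℝ) := by
        rw [Finset.sum_boole]
      rw [h6] at h5
      linarith
    exact key P.l hl (pB z j) hg
  calc ∏ j : Fin P.Nb, ∑ x : Fin P.l → Bool, (if P.l + P.M + P.b + 1 ≤ 2 * hd x (pB z j) then (0 : ℝ) else 1)
      ≤ ∏ j : Fin P.Nb, (3 / 4 * (2 : ℝ) ^ P.l) := by
        refine Finset.prod_le_prod (fun j _ => ?_) fun j _ => h3 j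
        refine Finset.sum_nonneg fun x _ => ?_
        split <;> norm_num
    _ = _ := by
        rw [Finset.prod_const, Finset.card_univ, Fintype.card_fin]

lemma g0_flg (ω : Om P) : flg (g0 ω) := fun a a' j => rfl

open Classical in
lemma V_g0 (hG : HG P R Q) (z : Sta P) (ω : Om P) :
    V R Q z (g0 ω) ≤ (Q.Be + Q.Vm + Q.J + Q.e1 * (Fintype.card (QI P) : ℝ))
      + 3 * (Q.Bc * Phi (z ∘ Sum.inl) (exA ω.1) 0 0 P.b)
      + Q.Bc * (if AllBad z ω.2.1 then (1 : ℝ) else 0)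
      + Q.Z0 * (if ω.2.2 = (fun j => z (iC 0 j)) then (1 : ℝ) else 0) := by
  have hB := Bc_nn hG z
  have hZ : 0 ≤ Q.Z0 := hB.trans hG.Z0_Bc
  have hPhi := mul_nonneg hB (Phi_nonneg (z ∘ Sum.inl) (exA ω.1) 0 0 P.b)
  have h1 := hG.Be_nonneg
  have h2 := Vm_pos hG
  have h3 := hG.J_nonneg
  have h4 : 0 ≤ Q.e1 * (Fintype.card (QI P) : ℝ) := mul_nonneg hG.e1_nonneg (Nat.cast_nonneg _)
  have h5 : 0 ≤ Q.Bc * (if AllBad z ω.2.1 then (1 : ℝ) else 0) := by
    split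
    · simpa using hB
    · simp
  have h6 : 0 ≤ Q.Z0 * (if ω.2.2 = (fun j => z (iC 0 j)) then (1 : ℝ) else 0) := by
    split
    · simpa using hZ
    · simp
  by_cases hc : Cb z (g0 ω)
  · by_cases ha : AllBad z ω.2.1
    · have := (V_le_rob (R := R) (Q := Q) z (g0 ω)).trans (le_of_eq (Vrob_Cb z _ (g0_flg ω) hc))
      rw [if_pos ha]
      linarith
    · have hg1 : Good1 z (g0 ω) := by
        refine ⟨g0_flg ω, rfl, hc, ?_⟩
        unfold AllBad at ha
        push Not at ha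
        exact ha
      have h7 := V_le_one (R := R) (Q := Q) z _ hg1
      unfold V1 at h7
      rw [g0_inl] at h7
      have h8 : Q.e1 * (hd (pQ (g0 ω)) (pQ z) : ℝ) ≤ Q.e1 * (Fintype.card (QI P) : ℝ) := by
        apply mul_le_mul_of_nonneg_left _ hG.e1_nonneg
        exact_mod_cast hd_le_card _ _
      linarith
  · have hu : ω.2.2 = (fun j => z (iC 0 j)) := by
      funext j
      by_contra hne
      exact hc ⟨(0, j), hne⟩
    have h7 := (V_le_rob (R := R) (Q := Q) z (g0 ω)).trans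
      ((Vrob_le_mid hG.toHR z _ (g0_flg ω) hc).trans (hG.Z0_r _ _))
    rw [if_pos hu]
    linarith

theorem init_sum (hb : BlockGoal) (hG : HG P R Q) (z : Sta P) (hl : ∃ w, P.l = 2 * w)
    (hg : 4 * (P.M + P.b + 1) ^ 2 ≤ P.l + 1) :
    ∑ ω : Om P, V R Q z (g0 ω) ≤ initB P Q * (Fintype.card (Om P) : ℝ) := by
  classical
  have hB := Bc_nn hG z
  refine (Finset.sum_le_sum fun ω _ => V_g0 hG z ω).trans ?_
  have hcard : (Fintype.card (Om P) : ℝ) = 2 ^ P.b * (((2 : ℝ) ^ P.l) ^ P.Nb * 2 ^ P.k) := by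
    rw [Fintype.card_prod, Fintype.card_prod]
    simp
  have e1 : ∑ ω : Om P, 3 * (Q.Bc * Phi (z ∘ Sum.inl) (exA ω.1) 0 0 P.b) =
      (((2 : ℝ) ^ P.l) ^ P.Nb * 2 ^ P.k) * (3 * (Q.Bc * ((P.m : ℝ) * (93 / 56 : ℝ) ^ P.b))) := by
    rw [sum_fst (fun v => 3 * (Q.Bc * Phi (z ∘ Sum.inl) (exA v) 0 0 P.b)), ← Finset.mul_sum,
      ← Finset.mul_sum, sum_Phi]
    congr 1
    rw [Fintype.card_prod]
    simp
  have e2 : ∑ ω : Om P, Q.Bc * (if AllBad z ω.2.1 then (1 : ℝ) else 0) =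
      (2 ^ P.b * 2 ^ P.k) * (Q.Bc * ∑ p : Fin P.Nb → Fin P.l → Bool, (if AllBad z p then (1 : ℝ) else 0)) := by
    rw [sum_snd (α := Fin P.b → Bool)
      (fun q : (Fin P.Nb → Fin P.l → Bool) × (Fin P.k → Bool) => Q.Bc * (if AllBad z q.1 then (1 : ℝ) else 0)),
      sum_fst (β := Fin P.k → Bool) (fun p => Q.Bc * (if AllBad z p then (1 : ℝ) else 0)), ← Finset.mul_sum]
    simp only [Fintype.card_fun, Fintype.card_bool, Fintype.card_fin]
    push_cast
    ring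
  have e3 : ∑ ω : Om P, Q.Z0 * (if ω.2.2 = (fun j => z (iC 0 j)) then (1 : ℝ) else 0) =
      (2 ^ P.b * ((2 : ℝ) ^ P.l) ^ P.Nb) * Q.Z0 := by
    rw [sum_snd (α := Fin P.b → Bool)
      (fun q : (Fin P.Nb → Fin P.l → Bool) × (Fin P.k → Bool) => Q.Z0 * (if q.2 = (fun j => z (iC 0 j)) then (1 : ℝ) else 0)),
      sum_snd (α := Fin P.Nb → Fin P.l → Bool) (fun u => Q.Z0 * (if u = (fun j => z (iC 0 j)) then (1 : ℝ) else 0)),
      ← Finset.mul_sum, Finset.sum_ite_eq']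
    simp only [Fintype.card_fun, Fintype.card_bool, Fintype.card_fin, Finset.mem_univ, if_true]
    push_cast
    ring
  rw [Finset.sum_add_distrib, Finset.sum_add_distrib, Finset.sum_add_distrib, e1, e2, e3]
  rw [Finset.sum_const, Finset.card_univ, nsmul_eq_mul, hcard]
  have h1 := mul_le_mul_of_nonneg_left (sum_allbad hb z hl hg) hB
  have h2 := mul_le_mul_of_nonneg_left h1 (by positivity : (0 : ℝ) ≤ 2 ^ P.b * 2 ^ P.k)
  unfold initB
  have e4 : (93 / 56 : ℝ) ^ P.b = 2 ^ P.b * (93 / 112) ^ P.b := by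
    rw [← mul_pow]; norm_num
  rw [e4]
  have e5 : (2 ^ P.b * ((2 : ℝ) ^ P.l) ^ P.Nb) * Q.Z0 =
      Q.Z0 / 2 ^ P.k * (2 ^ P.b * (((2 : ℝ) ^ P.l) ^ P.Nb * 2 ^ P.k)) := by
    field_simp
  rw [e5]
  nlinarith [h2]

end Pool.Agent.Helper84.OneMax
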