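import Pool.Agent.Helper84.OneMaxPhi

set_option autoImplicit false
set_option linter.unusedSectionVars false
set_option linter.unusedVariables false

/-!
Structural facts on the special moves.
-/

namespace Pool.Agent.Helper84.OneMax

variable {P : NP}

def Pairs (z x : Sta P) : Prop :=
  ∀ i : Fin P.M, (x (iQ true i) ≠ z (iQ true i)) ↔ (x (iQ false i) = z (iQ false i))

def Rh (z x : Sta P) (h : ℕ) : Prop := ∀ i : Fin P.nr, (x (iR i) ≠ z (iR i)) ↔ i.val < h

def pPG (x : Sta P) : (Fin P.Nb × Fin P.l) ⊕ Unit → Bool := fun s => x (Sum.inr (Sum.inl s))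
def pQ (x : Sta P) : QI P → Bool := fun s => x (Sum.inr (Sum.inr (Sum.inl s)))
def pC (x : Sta P) : CI P → Bool := fun s => x (Sum.inr (Sum.inr (Sum.inr s)))
def pB (x : Sta P) (j : Fin P.Nb) : Fin P.l → Bool := fun i => x (iP j i)

lemma wS_split (z x : Sta P) :
    wS z x = hd (pPG x) (pPG z) + (hd (pQ x) (pQ z) + hd (pC x) (pC z)) := by
  have e1 := hd_sum (x ∘ Sum.inr) (z ∘ Sum.inr)
  have e2 := hd_sum ((x ∘ Sum.inr) ∘ Sum.inr) ((z ∘ Sum.inr) ∘ Sum.inr)
  unfold wS
  rw [e1, e2]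
  rfl

lemma hd_pairs (z x : Sta P) (hP : Pairs z x) :
    hd (fun s : Bool × Fin P.M => x (Sum.inr (Sum.inr (Sum.inl (Sum.inl s)))))
      (fun s : Bool × Fin P.M => z (Sum.inr (Sum.inr (Sum.inl (Sum.inl s))))) = P.M := by
  unfold hd
  rw [Fintype.sum_prod_type, Fintype.sum_bool, ← Finset.sum_add_distrib]
  have : ∀ i : Fin P.M, wr (fun s : Bool × Fin P.M => x (Sum.inr (Sum.inr (Sum.inl (Sum.inl s)))))
      (fun s : Bool × Fin P.M => z (Sum.inr (Sum.inr (Sum.inl (Sum.inl s))))) (true, i) +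
      wr (fun s : Bool × Fin P.M => x (Sum.inr (Sum.inr (Sum.inl (Sum.inl s)))))
      (fun s : Bool × Fin P.M => z (Sum.inr (Sum.inr (Sum.inl (Sum.inl s))))) (false, i) = 1 := by
    intro i
    have h := hP i
    unfold wr
    by_cases h1 : x (iQ true i) = z (iQ true i)
    · have h2 : ¬ (x (iQ false i) = z (iQ false i)) := fun e => h.mpr e h1
      simp only at h1 h2 ⊢
      rw [if_pos h1, if_neg h2]
    · have h2 : x (iQ false i) = z (iQ false i) := h.mp h1
      simp only at h1 h2 ⊢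
      rw [if_neg h1, if_pos h2]
  rw [Finset.sum_congr rfl fun i _ => this i]
  simp

lemma hd_R (z x : Sta P) (h : ℕ) (hR : Rh z x h) (hn : h ≤ P.nr) :
    hd (fun i : Fin P.nr => x (iR i)) (fun i : Fin P.nr => z (iR i)) = h := by
  unfold hd
  have h1 : ∀ i : Fin P.nr, wr (fun i : Fin P.nr => x (iR i)) (fun i : Fin P.nr => z (iR i)) i
      = if i.val < h then 1 else 0 := by
    intro i
    have h2 := hR i
    unfold wr
    by_cases h3 : i.val < h
    · rw [if_pos h3, if_neg (h2.mpr h3)]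
    · rw [if_neg h3, if_pos]
      by_contra h4
      exact h3 (h2.mp h4)
  rw [Finset.sum_congr rfl fun i _ => h1 i]
  rw [Fin.sum_univ_eq_sum_range (fun i => if i < h then 1 else 0) P.nr]
  rw [Finset.sum_ite, Finset.sum_const_zero, add_zero, Finset.sum_const, smul_eq_mul, mul_one]
  have : (Finset.range P.nr).filter (fun i => i < h) = Finset.range h := by
    ext i
    simp only [Finset.mem_filter, Finset.mem_range]
    omega
  rw [this, Finset.card_range]

lemma hd_pQ (z x : Sta P) (h : ℕ) (hP : Pairs z x) (hR : Rh z x h) (hn : h ≤ P.nr) :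
    hd (pQ x) (pQ z) = P.M + h := by
  rw [hd_sum]
  have h1 := hd_pairs z x hP
  have h2 := hd_R z x h hR hn
  have e1 : hd (pQ x ∘ Sum.inl) (pQ z ∘ Sum.inl) = P.M := h1
  have e2 : hd (pQ x ∘ Sum.inr) (pQ z ∘ Sum.inr) = h := h2
  rw [e1, e2]

section fl2
variable (z x : Sta P) (fa : AI P → Bool) (fr : ℕ → Bool) (v : Fin P.M → Bool)

lemma fl2_inl : (fx x (fl2 x fa fr v)) ∘ Sum.inl = fx (x ∘ Sum.inl) fa := rfl

lemma fl2_PG : pPG (fx x (fl2 x fa fr v)) = pPG x := by
  funext s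
  simp [pPG, fx, fl2]

lemma fl2_C : pC (fx x (fl2 x fa fr v)) = pC x := by
  funext s
  simp [pC, fx, fl2]

lemma fl2_mem : mem (fx x (fl2 x fa fr v)) = P.dec v := by
  unfold mem
  congr 1
  funext i
  simp [fx, fl2]

lemma fl2_pairs (h : Pairs z x) : Pairs z (fx x (fl2 x fa fr v)) := by
  intro i
  have h1 := h i
  revert h1
  simp only [fx, fl2]
  cases x (iQ true i) <;> cases z (iQ true i) <;> cases x (iQ false i) <;> cases z (iQ false i) <;>
    cases v i <;> simp

lemma fl2_Rh (h h' : ℕ) (hR : Rh z x h) (hf : ∀ i, fr i = true ↔ ¬ ((i < h) ↔ (i < h'))) :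
    Rh z (fx x (fl2 x fa fr v)) h' := by
  intro i
  have h1 := hR i
  have h2 := hf i.val
  simp only [fx, fl2]
  by_cases h3 : i.val < h <;> by_cases h4 : i.val < h' <;> simp only [h3, h4, iff_true, iff_false, not_true_eq_false, not_false_eq_true] at h1 h2 ⊢ <;>
    revert h1 h2 <;> cases x (iR i) <;> cases z (iR i) <;> cases fr i.val <;> simp

lemma fl2_wS (h h' : ℕ) (hP : Pairs z x) (hR : Rh z x h)
    (hf : ∀ i, fr i = true ↔ ¬ ((i < h) ↔ (i < h'))) (hn : h ≤ P.nr) (hn' : h' ≤ P.nr) :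
    wS z (fx x (fl2 x fa fr v)) + h = wS z x + h' := by
  rw [wS_split, wS_split, fl2_PG, fl2_C, hd_pQ z x h hP hR hn,
    hd_pQ z _ h' (fl2_pairs z x fa fr v hP) (fl2_Rh z x fa fr v h h' hR hf) hn']
  ring

lemma fl2_G : (fx x (fl2 x fa fr v)) iG = x iG := by
  simp [fx, fl2]

end fl2

lemma flg_pC (x y : Sta P) (h : pC x = pC y) : flg x ↔ flg y :=
  flg_congr x y (fun c => congrFun h c)

lemma Cb_pC (z x y : Sta P) (h : pC x = pC y) : Cb z x ↔ Cb z y :=
  Cb_congr z x y (fun c => congrFun h c)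

section Tr
variable (z x : Sta P) (j : Fin P.Nb)

lemma tr_inl : (fx x (flTr x j)) ∘ Sum.inl = x ∘ Sum.inl := by
  funext a
  simp [fx, flTr]

lemma tr_C : pC (fx x (flTr x j)) = pC x := by
  funext s
  simp [pC, fx, flTr]

lemma tr_G : (fx x (flTr x j)) iG = !(x iG) := by
  simp [fx, flTr]

lemma tr_mem : mem (fx x (flTr x j)) = P.dec (P.enc (some (0, 0, P.b))) := by
  unfold mem
  congr 1
  funext i
  simp [fx, flTr]

lemma tr_pairs (h : hd (pQ x) (pQ z) = 0) : Pairs z (fx x (flTr x j)) := by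
  intro i
  have h0 := hd_eq_zero _ _ h
  have h1 : x (iQ true i) = z (iQ true i) := congrFun h0 (Sum.inl (true, i))
  have h2 : x (iQ false i) = z (iQ false i) := congrFun h0 (Sum.inl (false, i))
  simp only [fx, flTr]
  rw [h1, h2]
  cases z (iQ true i) <;> cases z (iQ false i) <;> cases P.enc (some (0, 0, P.b)) i <;> simp

lemma tr_Rh (h : hd (pQ x) (pQ z) = 0) : Rh z (fx x (flTr x j)) P.b := by
  intro i
  have h0 := hd_eq_zero _ _ h
  have h1 : x (iR i) = z (iR i) := congrFun h0 (Sum.inr i)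
  simp only [fx, flTr]
  rw [h1]
  by_cases h2 : i.val < P.b
  · simp only [h2, decide_true, iff_true]
    cases z (iR i) <;> simp
  · simp only [h2, decide_false, iff_false]
    cases z (iR i) <;> simp

lemma tr_P : hd (fun s => (fx x (flTr x j)) (Sum.inr (Sum.inl (Sum.inl s)))) (fun s => z (Sum.inr (Sum.inl (Sum.inl s))))
      + 2 * hd (pB x j) (pB z j) =
    hd (fun s => x (Sum.inr (Sum.inl (Sum.inl s)))) (fun s => z (Sum.inr (Sum.inl (Sum.inl s)))) + P.l := by
  have e : ∀ y : Sta P, hd (fun s => y (Sum.inr (Sum.inl (Sum.inl s)))) (fun s => z (Sum.inr (Sum.inl (Sum.inl s))))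
      = ∑ j' : Fin P.Nb, hd (pB y j') (pB z j') := by
    intro y
    unfold hd
    rw [Fintype.sum_prod_type]
    rfl
  rw [e, e, ← Finset.add_sum_erase _ _ (Finset.mem_univ j),
    ← Finset.add_sum_erase Finset.univ (fun j' => hd (pB x j') (pB z j')) (Finset.mem_univ j)]
  have h1 : ∑ j' ∈ Finset.univ.erase j, hd (pB (fx x (flTr x j)) j') (pB z j') =
      ∑ j' ∈ Finset.univ.erase j, hd (pB x j') (pB z j') := by
    refine Finset.sum_congr rfl fun j' hj' => ?_
    have hne := Finset.ne_of_mem_erase hj'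
    have : pB (fx x (flTr x j)) j' = pB x j' := by
      funext i
      simp [pB, fx, flTr, hne]
    rw [this]
  have h2 : hd (pB (fx x (flTr x j)) j) (pB z j) + hd (pB x j) (pB z j) = P.l := by
    unfold hd
    rw [← Finset.sum_add_distrib]
    have : ∀ i : Fin P.l, wr (pB (fx x (flTr x j)) j) (pB z j) i + wr (pB x j) (pB z j) i = 1 := by
      intro i
      rcases hx : x (iP j i) <;> rcases hz : z (iP j i) <;> simp [wr, pB, fx, flTr, hx, hz]
    rw [Finset.sum_congr rfl fun i _ => this i]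
    simp
  rw [h1]
  omega

/-- the block move is accepted when the block has enough wrong bits -/
lemma tr_acc (h : hd (pQ x) (pQ z) = 0) (hb : P.l + P.M + P.b + 1 ≤ 2 * hd (pB x j) (pB z j))
    (hn : P.b ≤ P.nr) : hd (fx x (flTr x j)) z ≤ hd x z := by
  rw [hd_eq, hd_eq, wS_split, wS_split, tr_C, h,
    hd_pQ z _ P.b (tr_pairs z x j h) (tr_Rh z x j h) hn]
  have h1 : wA z (fx x (flTr x j)) = wA z x := by
    unfold wA; rw [tr_inl]
  have h2 := tr_P z x j
  have h3 : ∀ y : Sta P, hd (pPG y) (pPG z) =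
      hd (fun s => y (Sum.inr (Sum.inl (Sum.inl s)))) (fun s => z (Sum.inr (Sum.inl (Sum.inl s))))
      + hd (fun s => y (Sum.inr (Sum.inl (Sum.inr s)))) (fun s => z (Sum.inr (Sum.inl (Sum.inr s)))) := by
    intro y
    rw [hd_sum]; rfl
  have h4 := hd_le_card (fun s : Unit => (fx x (flTr x j)) (Sum.inr (Sum.inl (Sum.inr s))))
    (fun s => z (Sum.inr (Sum.inl (Sum.inr s))))
  rw [Fintype.card_unit] at h4
  rw [h1, h3, h3]
  omega

end Tr

end Pool.Agent.Helper84.OneMax
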