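import Pool.Agent.Helper84.OneMaxParams

set_option autoImplicit false
set_option linter.unusedSectionVars false
set_option linter.unusedVariables false

/-!
The numeric goal.
-/

namespace Pool.Agent.Helper84.OneMax

lemma coreI (P : NP) (Kn : ℕ) (N s q Bc X H : ℝ) (F : Fct (Kn : ℝ) N s q Bc X H)
    (hq : q = (Fintype.card (QI P) : ℝ)) (hb : P.b = 8 * Kn) (hk : P.k = 4 * Kn) (hNb : P.Nb = 8 * Kn)
    (hmn : (P.m : ℝ) ≤ 2 ^ Kn) (hN2 : N ≤ 2 ^ Kn) (hM : 10 ^ 14 * (Kn : ℝ) ^ 11 ≤ N) :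
    initB P (mkQ (Kn : ℝ) N s q Bc X H) ≤ 417 * N := by
  obtain ⟨hK, hN0, hq2, hqs, hH2, hX0, hXN, hXN', hBcX, h9, hBcU, hZU, hDH, hτ, hsN, hBX⟩ := id F
  clear hDH
  set K : ℝ := (Kn : ℝ) with hKdef
  have hK0 : 0 < K := by linarith
  have hN : 0 < N := by linarith
  have hq0 : 0 < q := by linarith
  have hs0 : 0 < s := by linarith
  have hBc0 : 0 < Bc := by linarith
  have hH0 : 0 < H := by linarith
  have hKp : ∀ i : ℕ, 1 ≤ K ^ i := fun i => one_le_pow₀ hK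
  have h192 : 192 * K ≤ N := by
    refine le_trans ?_ hM
    have h3 : K ^ 1 ≤ K ^ 11 := pow_le_pow_right₀ hK (by norm_num)
    rw [pow_one] at h3
    linarith
  -- J
  have hJ : 3 / (N / (64 * K * q ^ 2 * Bc)) ≤ N := by
    have e : 3 / (N / (64 * K * q ^ 2 * Bc)) = 24 * q ^ 2 * (8 * K) * Bc / N := by
      field_simp
      ring
    rw [e, div_le_iff₀ hN]
    exact hτ
  have he1 : 8 * q * (3 + 8 * K * (N / (64 * K * q ^ 2 * Bc) * Bc) + 8 * K * (1 / (3200 * K * N) * Bc)) * q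
      ≤ 3 * N := by
    have e : 8 * q * (3 + 8 * K * (N / (64 * K * q ^ 2 * Bc) * Bc) + 8 * K * (1 / (3200 * K * N) * Bc)) * q
        = 24 * q ^ 2 + N + q ^ 2 * Bc / (50 * N) := by
      field_simp
      ring
    rw [e]
    have h1 : q ^ 2 * Bc / (50 * N) ≤ N := by
      rw [div_le_iff₀ (by positivity)]
      have h2 : q ^ 2 * Bc * 1 ≤ q ^ 2 * Bc * (24 * 8 * K) :=
        mul_le_mul_of_nonneg_left (by linarith) (by positivity)
      have e2 : q ^ 2 * Bc * (24 * 8 * K) = 24 * q ^ 2 * (8 * K) * Bc := by ring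
      rw [e2] at h2
      have h3 : 0 < N * N := by positivity
      linarith
    have h2 : 24 * q ^ 2 ≤ N := by
      have h3 : N ≤ 8 * K * Bc := le_mul1 (by linarith) (by linarith) hBc0.le
      have h4 : 24 * q ^ 2 * N ≤ 24 * q ^ 2 * (8 * K * Bc) := mul_le_mul_of_nonneg_left h3 (by positivity)
      have h5 : 24 * q ^ 2 * N ≤ N * N := by
        refine h4.trans (le_trans (le_of_eq ?_) hτ)
        ring
      exact le_of_mul_le_mul_right h5 hN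
    linarith
  -- exponentials
  have hp : (0 : ℝ) < 2 ^ Kn := by positivity
  have hh : ((1 : ℝ) / 2) ^ Kn * 2 ^ Kn = 1 := by
    rw [← mul_pow]; norm_num
  have hhp : (0 : ℝ) ≤ (1 / 2) ^ Kn := by positivity
  have hA : ∀ c : ℝ, 0 ≤ c → c ≤ 10 ^ 14 * K ^ 11 → c * (1 / 2) ^ Kn ≤ 1 := by
    intro c hc0 hc
    have h1 : c ≤ 2 ^ Kn := hc.trans (hM.trans hN2)
    calc c * (1 / 2) ^ Kn ≤ 2 ^ Kn * (1 / 2) ^ Kn := mul_le_mul_of_nonneg_right h1 hhp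
      _ = 1 := by rw [mul_comm]; exact hh
  have hB1 : 3 * (Bc * ((P.m : ℝ) * (93 / 112) ^ P.b)) ≤ N := by
    have h1 : ((93 : ℝ) / 112) ^ P.b ≤ (1 / 2) ^ Kn * (1 / 2) ^ Kn := by
      rw [hb, pow_mul, ← mul_pow]
      apply pow_le_pow_left₀ (by norm_num)
      norm_num
    have h2 : (P.m : ℝ) * (93 / 112) ^ P.b ≤ 2 ^ Kn * ((1 / 2) ^ Kn * (1 / 2) ^ Kn) :=
      mul_le_mul hmn h1 (by positivity) hp.le
    have h3 : 2 ^ Kn * (((1 : ℝ) / 2) ^ Kn * (1 / 2) ^ Kn) = (1 / 2) ^ Kn := by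
      rw [← mul_assoc, mul_comm (2 ^ Kn) _, hh, one_mul]
    rw [h3] at h2
    have h4 : Bc * ((P.m : ℝ) * (93 / 112) ^ P.b) ≤ (10 ^ 5 * K ^ 3 * N) * (1 / 2) ^ Kn :=
      mul_le_mul hBcU h2 (by positivity) (by positivity)
    have h5 := hA (3 * 10 ^ 5 * K ^ 3) (by positivity) (by
      have h6 : K ^ 3 ≤ K ^ 11 := pow_le_pow_right₀ hK (by norm_num)
      have := hKp 3
      linarith)
    have h7 := mul_le_mul_of_nonneg_right h5 hN.le
    have e : 3 * 10 ^ 5 * K ^ 3 * (1 / 2) ^ Kn * N = 3 * ((10 ^ 5 * K ^ 3 * N) * (1 / 2) ^ Kn) := by ring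
    rw [e] at h7
    linarith
  have hB2 : Bc * (3 / 4) ^ P.Nb ≤ N := by
    have h1 : ((3 : ℝ) / 4) ^ P.Nb ≤ (1 / 2) ^ Kn := by
      rw [hNb, pow_mul]
      apply pow_le_pow_left₀ (by norm_num)
      norm_num
    have h4 : Bc * (3 / 4) ^ P.Nb ≤ (10 ^ 5 * K ^ 3 * N) * (1 / 2) ^ Kn :=
      mul_le_mul hBcU h1 (by positivity) (by positivity)
    have h5 := hA (10 ^ 5 * K ^ 3) (by positivity) (by
      have h6 : K ^ 3 ≤ K ^ 11 := pow_le_pow_right₀ hK (by norm_num)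
      have := hKp 3
      linarith)
    have h7 := mul_le_mul_of_nonneg_right h5 hN.le
    have e : 10 ^ 5 * K ^ 3 * (1 / 2) ^ Kn * N = (10 ^ 5 * K ^ 3 * N) * (1 / 2) ^ Kn := by ring
    rw [e] at h7
    linarith
  have hB3 : H * s * Bc / 2 ^ P.k ≤ N := by
    have h1 : ((1 : ℝ) / 2) ^ P.k ≤ (1 / 2) ^ Kn := by
      rw [hk]
      apply pow_le_pow_of_le_one (by norm_num) (by norm_num)
      omega
    have e0 : H * s * Bc / 2 ^ P.k = H * s * Bc * (1 / 2) ^ P.k := by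
      rw [one_div, inv_pow]
      rfl
    rw [e0]
    have h4 : H * s * Bc * (1 / 2) ^ P.k ≤ (11 * 10 ^ 8 * K ^ 7 * N) * (1 / 2) ^ Kn :=
      mul_le_mul hZU h1 (by positivity) (by positivity)
    have h5 := hA (11 * 10 ^ 8 * K ^ 7) (by positivity) (by
      have h6 : K ^ 7 ≤ K ^ 11 := pow_le_pow_right₀ hK (by norm_num)
      have := hKp 7
      linarith)
    have h7 := mul_le_mul_of_nonneg_right h5 hN.le
    have e : 11 * 10 ^ 8 * K ^ 7 * (1 / 2) ^ Kn * N = (11 * 10 ^ 8 * K ^ 7 * N) * (1 / 2) ^ Kn := by ring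
    rw [e] at h7
    linarith
  unfold initB
  rw [← hq]
  simp only [mkQ]
  linarith

lemma pow_bound : ∃ K0 : ℕ, 2 ≤ K0 ∧ ∀ K : ℕ, K0 ≤ K → 10 ^ 14 * (K : ℝ) ^ 11 ≤ 2 ^ K / 4 := by
  have h := tendsto_pow_const_div_const_pow_of_one_lt 11 (show (1 : ℝ) < 2 by norm_num)
  have h2 := h.eventually (gt_mem_nhds (show (0 : ℝ) < 1 / (4 * 10 ^ 14) by norm_num))
  rw [Filter.eventually_atTop] at h2
  obtain ⟨K0, hK0⟩ := h2
  refine ⟨max K0 2, le_max_right _ _, fun K hK => ?_⟩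
  have h3 := hK0 K ((le_max_left _ _).trans hK)
  have h4 : (0 : ℝ) < 2 ^ K := by positivity
  rw [div_lt_iff₀ h4] at h3
  linarith

lemma sixteen (K : ℕ) (hK : 2 ≤ K) : 16 * K + 2 ≤ 8 ^ K := by
  induction K, hK using Nat.le_induction with
  | base => norm_num
  | succ k hk ih => rw [pow_succ]; omega

lemma hhm_of (P : NP) (K : ℕ) (h : Fintype.card (Idx P) ≤ 2 ^ K) (x z : Sta P) :
    hm (hd x z) ≤ (K : ℝ) + 1 :=
  le_trans (hm_mono ((hd_le_card x z).trans h)) (hm_pow_two K)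

theorem params : ParamsGoal := by
  obtain ⟨K0, hK02, hK0⟩ := pow_bound
  refine ⟨417, 2 ^ K0, fun n hn => ?_⟩
  have hn0 : n ≠ 0 := by
    have : 0 < 2 ^ K0 := by positivity
    omega
  obtain ⟨K, hKdef⟩ : ∃ K, K = Nat.log 2 n + 1 := ⟨_, rfl⟩
  have hKK : K0 ≤ Nat.log 2 n := Nat.le_log_of_pow_le (by norm_num) hn
  have hK2 : 2 ≤ K := by omega
  have hlow : 2 ^ K ≤ 2 * n := by
    have := Nat.pow_log_le_self 2 hn0
    rw [hKdef, pow_succ]; omega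
  have hup : n < 2 ^ K := by
    rw [hKdef]; exact Nat.lt_pow_succ_log_self (by norm_num) n
  have hMast := hK0 K (by omega)
  have hKr : (1 : ℝ) ≤ (K : ℝ) := by
    have : 1 ≤ K := by omega
    exact_mod_cast this
  obtain ⟨s0, hs0def⟩ : ∃ s0, s0 = 8 * K * (2 * (2 * (12 * K + 1) ^ 2)) + 1 + (2 * (4 * K) + 2 * (8 * K) + 3 * (4 * K)) :=
    ⟨_, rfl⟩
  have hs0r : (s0 : ℝ) + 8 * (K : ℝ) ≤ 5500 * (K : ℝ) ^ 3 := by
    rw [hs0def]
    push_cast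
    have h1 : (K : ℝ) ≤ (K : ℝ) ^ 3 := by
      have := pow_le_pow_right₀ hKr (show 1 ≤ 3 by norm_num)
      rwa [pow_one] at this
    have h2 : (1 : ℝ) ≤ (K : ℝ) ^ 3 := one_le_pow₀ hKr
    have h3 : (K : ℝ) ^ 2 ≤ (K : ℝ) ^ 3 := pow_le_pow_right₀ hKr (by norm_num)
    have e : 8 * (K : ℝ) * (2 * (2 * (12 * (K : ℝ) + 1) ^ 2)) + 1 + (2 * (4 * (K : ℝ)) + 2 * (8 * (K : ℝ)) + 3 * (4 * (K : ℝ))) + 8 * (K : ℝ)
        = 4608 * (K : ℝ) ^ 3 + 768 * (K : ℝ) ^ 2 + 76 * (K : ℝ) + 1 := by ring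
    rw [e]
    linarith
  have hs0n : ((s0 : ℕ) : ℝ) + 8 * (K : ℝ) ≤ 2 ^ K / 4 := by
    refine hs0r.trans (le_trans ?_ hMast)
    have h3 : (K : ℝ) ^ 3 ≤ (K : ℝ) ^ 11 := pow_le_pow_right₀ hKr (by norm_num)
    have h2 : (1 : ℝ) ≤ (K : ℝ) ^ 3 := one_le_pow₀ hKr
    linarith
  have hlowr : (2 : ℝ) ^ K ≤ 2 * (n : ℝ) := by exact_mod_cast hlow
  have hupr : (n : ℝ) ≤ 2 ^ K := by exact_mod_cast hup.le
  have hs0n' : s0 ≤ n := by
    have h1 : (s0 : ℝ) ≤ (n : ℝ) := by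
      have : (0 : ℝ) ≤ (n : ℝ) := Nat.cast_nonneg _
      linarith
    exact_mod_cast h1
  obtain ⟨d, hdd⟩ : ∃ d, d = (n - s0) / (8 * K) := ⟨_, rfl⟩
  obtain ⟨e, he⟩ : ∃ e, e = (n - s0) % (8 * K) := ⟨_, rfl⟩
  have hde : d * (8 * K) + e = n - s0 := by
    rw [hdd, he, mul_comm]; exact Nat.div_add_mod _ _
  have helt : e < 8 * K := by
    rw [he]; exact Nat.mod_lt _ (by omega)
  have hdN : d * (8 * K) ≤ n := by omega
  have hNr : (2 : ℝ) ^ K / 4 ≤ ((d * (8 * K) : ℕ) : ℝ) := by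
    have h1 : n ≤ d * (8 * K) + s0 + 8 * K := by omega
    have h2 : (n : ℝ) ≤ ((d * (8 * K) : ℕ) : ℝ) + (s0 : ℝ) + 8 * (K : ℝ) := by exact_mod_cast h1
    linarith
  have hd1 : 1 ≤ d := by
    by_contra hd0
    have hd0' : d = 0 := by omega
    rw [hd0'] at hNr
    have : (0 : ℝ) < 2 ^ K := by positivity
    simp at hNr
    linarith
  have hcode : d * ((8 * K) * (2 * (8 * K) + 1)) + 1 ≤ 2 ^ (4 * K) := by
    have h1 : d * ((8 * K) * (2 * (8 * K) + 1)) = d * (8 * K) * (16 * K + 1) := by ring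
    rw [h1]
    have h2 : d * (8 * K) * (16 * K + 1) ≤ 2 ^ K * (16 * K + 1) :=
      Nat.mul_le_mul_right _ (hdN.trans hup.le)
    have h3 : 2 ^ K * (16 * K + 1) + 1 ≤ 2 ^ K * (16 * K + 2) := by
      have : 1 ≤ 2 ^ K := Nat.one_le_two_pow
      nlinarith
    have h4 : 2 ^ K * (16 * K + 2) ≤ 2 ^ K * 8 ^ K := Nat.mul_le_mul_left _ (sixteen K hK2)
    have h5 : 2 ^ K * 8 ^ K = 2 ^ (4 * K) := by
      rw [show (8 : ℕ) = 2 ^ 3 by norm_num, ← pow_mul, ← pow_add]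
      congr 1
      ring
    omega
  obtain ⟨enc, dec, hc1, hc2, hc3⟩ := encdec d (8 * K) (4 * K) hcode
  let P : NP :=
    { m := d
      b := 8 * K
      Nb := 8 * K
      l := 2 * (2 * (12 * K + 1) ^ 2)
      M := 4 * K
      nr := 2 * (8 * K) + e
      k := 4 * K
      enc := enc
      dec := dec
      dec_enc_none := hc1
      dec_enc := hc2
      dec_some := hc3 }
  have hcardS : Fintype.card (SI P) = s0 + e := by
    rw [card_SI, hs0def]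
    change (8 * K * (2 * (2 * (12 * K + 1) ^ 2)) + 1) + ((2 * (4 * K) + (2 * (8 * K) + e)) + 3 * (4 * K)) = _
    ring
  have hcardI : Fintype.card (Idx P) = n := by
    rw [card_Idx, hcardS]
    change d * (8 * K) + (s0 + e) = n
    omega
  have hcardQ : Fintype.card (QI P) = 2 * (4 * K) + (2 * (8 * K) + e) := card_QI P
  have hNcast : (((P.m * P.b : ℕ)) : ℝ) = ((d * (8 * K) : ℕ) : ℝ) := rfl
  have hM' : 10 ^ 14 * (K : ℝ) ^ 11 ≤ ((P.m * P.b : ℕ) : ℝ) := by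
    rw [hNcast]; exact hMast.trans hNr
  have F := fct (K : ℝ) ((P.m * P.b : ℕ) : ℝ) (Fintype.card (SI P) : ℝ) (Fintype.card (QI P) : ℝ)
    ((1 + 12 * (K : ℝ)) * (3208 * (K : ℝ) * ((P.m * P.b : ℕ) : ℝ) * ((K : ℝ) + 1)))
    (3208 * (K : ℝ) * ((P.m * P.b : ℕ) : ℝ) * ((K : ℝ) + 1)) ((K : ℝ) + 1) hKr rfl rfl rfl
    (by
      rw [hcardQ]
      have : 1 ≤ 2 * (4 * K) + (2 * (8 * K) + e) := by omega
      exact_mod_cast this)
    (by
      rw [card_QI, card_SI]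
      have : 2 * P.M + P.nr ≤ (P.Nb * P.l + 1) + ((2 * P.M + P.nr) + 3 * P.k) := by omega
      exact_mod_cast this)
    (by
      rw [hcardS]
      push_cast
      have : (e : ℝ) ≤ 8 * (K : ℝ) := by
        have : e ≤ 8 * K := helt.le
        exact_mod_cast this
      linarith)
    (by
      rw [hcardQ]
      have : 2 * (4 * K) + (2 * (8 * K) + e) ≤ 32 * K := by omega
      exact_mod_cast this)
    hM'
  have hbc : (P.b : ℝ) = 8 * (K : ℝ) := by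
    change ((8 * K : ℕ) : ℝ) = _
    push_cast; ring
  have hkc : (P.k : ℝ) = 4 * (K : ℝ) := by
    change ((4 * K : ℕ) : ℝ) = _
    push_cast; ring
  have hNbc : (P.Nb : ℝ) = 8 * (K : ℝ) := by
    change ((8 * K : ℕ) : ℝ) = _
    push_cast; ring
  have hl1 : 1 ≤ P.l := by
    change 1 ≤ 2 * (2 * (12 * K + 1) ^ 2)
    have : 0 < (12 * K + 1) ^ 2 := by positivity
    omega
  have hhm := hhm_of P K (by rw [hcardI]; exact hup.le)
  refine ⟨P, _, _, coreG P (K : ℝ) _ _ _ _ _ _ F rfl rfl rfl hbc hkc hNbc hl1 hd1 ?_ hhm,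
    coreS P (K : ℝ) _ _ _ _ _ _ F rfl rfl rfl hkc hNbc, hcardI, ⟨_, rfl⟩, ?_, ?_⟩
  · change 2 * (8 * K) ≤ 2 * (8 * K) + e
    omega
  · change 4 * (4 * K + 8 * K + 1) ^ 2 ≤ 2 * (2 * (12 * K + 1) ^ 2) + 1
    have : 4 * K + 8 * K + 1 = 12 * K + 1 := by ring
    rw [this]
    omega
  · have hdr : (d : ℝ) ≤ ((d * (8 * K) : ℕ) : ℝ) := by
      have : d ≤ d * (8 * K) := Nat.le_mul_of_pos_right _ (by omega)
      exact_mod_cast this
    have hNn : ((d * (8 * K) : ℕ) : ℝ) ≤ (n : ℝ) := by exact_mod_cast hdN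
    have h1 := coreI P K _ _ _ _ _ _ F rfl rfl rfl rfl (hdr.trans (hNn.trans hupr)) (hNn.trans hupr) hM'
    refine h1.trans ?_
    apply mul_le_mul_of_nonneg_left _ (by norm_num)
    exact hNn

end Pool.Agent.Helper84.OneMax
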