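import Pool.Agent.Helper84.OneMaxGoal

set_option autoImplicit false
set_option linter.unusedSectionVars false
set_option linter.unusedVariables false

/-!
Choice of parameters.
-/

namespace Pool.Agent.Helper84.OneMax

/-- existence of the memory code -/
lemma encdec (m b M : ℕ) (h : m * (b * (2 * b + 1)) + 1 ≤ 2 ^ M) :
    ∃ (enc : Option (ℕ × ℕ × ℕ) → (Fin M → Bool)) (dec : (Fin M → Bool) → Option (ℕ × ℕ × ℕ)),
      dec (enc none) = none ∧
      (∀ j t h, j < m → t < b → h ≤ 2 * b → dec (enc (some (j, t, h))) = some (j, t, h)) ∧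
      (∀ v j t h, dec v = some (j, t, h) → j < m ∧ t < b ∧ h ≤ 2 * b) := by
  classical
  have hcard : Fintype.card (Option (Fin m × Fin b × Fin (2 * b + 1))) ≤ Fintype.card (Fin M → Bool) := by
    rw [Fintype.card_option, Fintype.card_prod, Fintype.card_prod, Fintype.card_fin, Fintype.card_fin,
      Fintype.card_fin, Fintype.card_fun, Fintype.card_bool, Fintype.card_fin]
    exact h
  obtain ⟨f⟩ := Function.Embedding.nonempty_of_card_le hcard
  let cv : Option (ℕ × ℕ × ℕ) → Option (Fin m × Fin b × Fin (2 * b + 1)) := fun o =>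
    match o with
    | none => none
    | some (j, t, h) => if hyp : j < m ∧ t < b ∧ h < 2 * b + 1 then
        some (⟨j, hyp.1⟩, ⟨t, hyp.2.1⟩, ⟨h, hyp.2.2⟩) else none
  let fo : Option (Fin m × Fin b × Fin (2 * b + 1)) → Option (ℕ × ℕ × ℕ) :=
    Option.map (fun p => (p.1.val, p.2.1.val, p.2.2.val))
  refine ⟨fun o => f (cv o), fun v => fo (Function.invFun f v), ?_, ?_, ?_⟩
  · change fo (Function.invFun f (f none)) = none
    rw [Function.leftInverse_invFun f.injective]
    rfl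
  · intro j t h hj ht hh
    change fo (Function.invFun f (f (cv (some (j, t, h))))) = _
    rw [Function.leftInverse_invFun f.injective]
    have hyp : j < m ∧ t < b ∧ h < 2 * b + 1 := ⟨hj, ht, by omega⟩
    simp only [cv, fo]
    rw [dif_pos hyp]
    rfl
  · intro v j t h hv
    change fo (Function.invFun f v) = _ at hv
    rcases hi : Function.invFun f v with _ | ⟨a, b', c⟩
    · rw [hi] at hv
      simp [fo] at hv
    · rw [hi] at hv
      simp only [fo, Option.map_some, Option.some.injEq, Prod.mk.injEq] at hv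
      obtain ⟨rfl, rfl, rfl⟩ := hv
      exact ⟨a.2, b'.2, by omega⟩

lemma card_AI (P : NP) : Fintype.card (AI P) = P.m * P.b := by
  rw [Fintype.card_prod, Fintype.card_fin, Fintype.card_fin]

lemma card_CI (P : NP) : Fintype.card (CI P) = 3 * P.k := by
  rw [Fintype.card_prod, Fintype.card_fin, Fintype.card_fin]

lemma card_QI (P : NP) : Fintype.card (QI P) = 2 * P.M + P.nr := by
  rw [Fintype.card_sum, Fintype.card_prod, Fintype.card_fin, Fintype.card_fin, Fintype.card_bool]

lemma card_PG (P : NP) : Fintype.card ((Fin P.Nb × Fin P.l) ⊕ Unit) = P.Nb * P.l + 1 := by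
  rw [Fintype.card_sum, Fintype.card_prod, Fintype.card_fin, Fintype.card_fin, Fintype.card_unit]

lemma card_SI (P : NP) : Fintype.card (SI P) = (P.Nb * P.l + 1) + ((2 * P.M + P.nr) + 3 * P.k) := by
  have e1 := Fintype.card_sum (α := (Fin P.Nb × Fin P.l) ⊕ Unit) (β := QI P ⊕ CI P)
  have e2 := Fintype.card_sum (α := QI P) (β := CI P)
  rw [e2, card_PG, card_QI, card_CI] at e1
  exact e1

lemma card_Idx (P : NP) : Fintype.card (Idx P) = P.m * P.b + Fintype.card (SI P) := by
  have e1 := Fintype.card_sum (α := AI P) (β := SI P)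
  rw [card_AI] at e1
  exact e1

/-- real parameters -/
noncomputable def mkR (K N s q Bc X : ℝ) : RP where
  ρN := 1 / (3200 * K * N)
  aN := 1 / (8 * N)
  aS := 1 / (8 * s)
  r := 1 / (s * Bc)
  rq := 1 / (8 * q)
  κ := 1 / (12 * K * X)
  κe := 1 / (96 * K)
  τb := N / (64 * K * q ^ 2 * Bc)

noncomputable def mkQ (K N s q Bc X H : ℝ) : Pot where
  cA := 3200 * K * N
  E8 := 8 * N
  D := 16 * s * (1 + H * s * Bc / (8 * N))
  X := X
  Bc := Bc
  Z0 := H * s * Bc
  Be := 9 * N + 192 * K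
  Vm := 400 * N
  J := 3 / (N / (64 * K * q ^ 2 * Bc))
  e1 := 8 * q * (3 + 8 * K * (N / (64 * K * q ^ 2 * Bc) * Bc) + 8 * K * (1 / (3200 * K * N) * Bc))

lemma le_mul1 {a b c : ℝ} (h1 : 1 ≤ a) (h2 : b ≤ c) (h3 : 0 ≤ c) : b ≤ a * c :=
  h2.trans (le_mul_of_one_le_left h3 h1)

/-- numeric facts on the parameters -/
structure Fct (K N s q Bc X H : ℝ) : Prop where
  hK : 1 ≤ K
  hN0 : 10 ^ 14 ≤ N
  hq2 : 1 ≤ q
  hqs : q ≤ s
  hH2 : 2 ≤ H
  hX0 : 0 < X
  hXN : 3208 * K * N ≤ X
  hXN' : N ≤ X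
  hBcX : X ≤ Bc
  h9 : 3200 * K * N * H + 8 * N + N ≤ X
  hBcU : Bc ≤ 10 ^ 5 * K ^ 3 * N
  hZU : H * s * Bc ≤ 11 * 10 ^ 8 * K ^ 7 * N
  hDH : 16 * s * (1 + H * s * Bc / (8 * N)) * H ≤ N
  hτ : 24 * q ^ 2 * (8 * K) * Bc ≤ N * N
  hsN : s ≤ N
  hBX : Bc - X = 12 * K * X

lemma fct (K N s q Bc X H : ℝ) (hK : 1 ≤ K) (hH : H = K + 1)
    (hX : X = 3208 * K * N * H) (hBc : Bc = (1 + 12 * K) * X) (hq2 : 1 ≤ q) (hqs : q ≤ s)
    (hs1 : s ≤ 5500 * K ^ 3) (hq1 : q ≤ 32 * K)
    (hM : 10 ^ 14 * K ^ 11 ≤ N) : Fct K N s q Bc X H := by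
  have hK0 : 0 < K := by linarith
  have hKp : ∀ i : ℕ, 1 ≤ K ^ i := fun i => one_le_pow₀ hK
  have hN0 : 10 ^ 14 ≤ N := by
    have := hKp 11
    linarith
  have hNpos : 0 < N := by linarith
  have hs2 : 1 ≤ s := hq2.trans hqs
  have hH2 : 2 ≤ H := by rw [hH]; linarith
  have hH3 : H ≤ 2 * K := by rw [hH]; linarith
  have hH0 : 0 < H := by linarith
  have hs0 : 0 < s := by linarith
  have hq0 : 0 < q := by linarith
  have hX0 : 0 < X := by rw [hX]; positivity
  have hXN : 3208 * K * N ≤ X := by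
    rw [hX]
    exact le_mul_of_one_le_right (by positivity) (by linarith)
  have hXN' : N ≤ X := by
    have : N ≤ 3208 * K * N := le_mul1 (by linarith) le_rfl hNpos.le
    linarith
  have hBcX : X ≤ Bc := by
    rw [hBc]
    exact le_mul1 (by linarith) le_rfl hX0.le
  have hBc0 : 0 < Bc := by linarith
  have hBcU : Bc ≤ 10 ^ 5 * K ^ 3 * N := by
    rw [hBc, hX]
    have e1 : (1 + 12 * K) * (3208 * K * N * H) = 3208 * K * N * ((1 + 12 * K) * H) := by ring
    rw [e1]
    have h1 : (1 + 12 * K) * H ≤ (13 * K) * (2 * K) := by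
      apply mul_le_mul _ hH3 hH0.le (by positivity)
      linarith
    have h2 : 3208 * K * N * ((1 + 12 * K) * H) ≤ 3208 * K * N * ((13 * K) * (2 * K)) :=
      mul_le_mul_of_nonneg_left h1 (by positivity)
    refine h2.trans ?_
    have e2 : 3208 * K * N * ((13 * K) * (2 * K)) = 83408 * (K ^ 3 * N) := by ring
    have e3 : (10 : ℝ) ^ 5 * K ^ 3 * N = 100000 * (K ^ 3 * N) := by ring
    rw [e2, e3]
    have : 0 ≤ K ^ 3 * N := by positivity
    linarith
  have hZU : H * s * Bc ≤ 11 * 10 ^ 8 * K ^ 7 * N := by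
    have h1 : H * s ≤ (2 * K) * (5500 * K ^ 3) := mul_le_mul hH3 hs1 hs0.le (by positivity)
    have h2 : H * s * Bc ≤ (2 * K) * (5500 * K ^ 3) * (10 ^ 5 * K ^ 3 * N) :=
      mul_le_mul h1 hBcU hBc0.le (by positivity)
    refine h2.trans (le_of_eq ?_)
    ring
  have hDH : 16 * s * (1 + H * s * Bc / (8 * N)) * H ≤ N := by
    have h1 : H * s * Bc / (8 * N) ≤ 14 * 10 ^ 7 * K ^ 7 := by
      rw [div_le_iff₀ (by positivity)]
      have e : 14 * 10 ^ 7 * K ^ 7 * (8 * N) = 1120000000 * (K ^ 7 * N) := by ring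
      have e2 : 11 * 10 ^ 8 * K ^ 7 * N = 1100000000 * (K ^ 7 * N) := by ring
      rw [e]
      rw [e2] at hZU
      have : 0 ≤ K ^ 7 * N := by positivity
      linarith
    have h2 : 1 + H * s * Bc / (8 * N) ≤ 15 * 10 ^ 7 * K ^ 7 := by
      have := hKp 7
      linarith
    have h3 : 16 * s * (1 + H * s * Bc / (8 * N)) ≤ 16 * (5500 * K ^ 3) * (15 * 10 ^ 7 * K ^ 7) := by
      apply mul_le_mul _ h2 (by positivity) (by positivity)
      linarith
    have h4 : 16 * s * (1 + H * s * Bc / (8 * N)) * H ≤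
        16 * (5500 * K ^ 3) * (15 * 10 ^ 7 * K ^ 7) * (2 * K) :=
      mul_le_mul h3 hH3 hH0.le (by positivity)
    refine h4.trans (le_trans ?_ hM)
    have e : 16 * (5500 * K ^ 3) * (15 * 10 ^ 7 * K ^ 7) * (2 * K) = 264 * 10 ^ 11 * K ^ 11 := by ring
    rw [e]
    have := hKp 11
    linarith
  have hτ : 24 * q ^ 2 * (8 * K) * Bc ≤ N * N := by
    have h1 : q ^ 2 ≤ (32 * K) ^ 2 := pow_le_pow_left₀ hq0.le hq1 2
    have h2 : 24 * q ^ 2 * (8 * K) * Bc ≤ 24 * (32 * K) ^ 2 * (8 * K) * (10 ^ 5 * K ^ 3 * N) := by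
      apply mul_le_mul _ hBcU hBc0.le (by positivity)
      apply mul_le_mul_of_nonneg_right _ (by positivity)
      linarith
    refine h2.trans ?_
    have e : 24 * (32 * K) ^ 2 * (8 * K) * (10 ^ 5 * K ^ 3 * N) = (196608 * 10 ^ 5 * K ^ 6) * N := by ring
    rw [e]
    apply mul_le_mul_of_nonneg_right _ hNpos.le
    refine le_trans ?_ hM
    have h3 : K ^ 6 ≤ K ^ 11 := pow_le_pow_right₀ hK (by norm_num)
    have h4 := hKp 6
    linarith
  refine ⟨hK, hN0, hq2, hqs, hH2, hX0, hXN, hXN', hBcX, ?_, hBcU, hZU, hDH, hτ, ?_, ?_⟩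
  · rw [hX]
    have h5 : 2 ≤ K * H := le_mul1 hK hH2 hH0.le
    have h6 : 16 * N ≤ 8 * (K * H) * N := by
      apply mul_le_mul_of_nonneg_right _ hNpos.le
      linarith
    have e : 8 * (K * H) * N = 3208 * K * N * H - 3200 * K * N * H := by ring
    rw [e] at h6
    linarith
  · refine hs1.trans (le_trans ?_ hM)
    have h3 : K ^ 3 ≤ K ^ 11 := pow_le_pow_right₀ hK (by norm_num)
    have h4 := hKp 3
    linarith
  · rw [hBc]; ring

lemma hV3 (P : NP) (K N s q Bc X H : ℝ) (F : Fct K N s q Bc X H) (hhm : ∀ x z : Sta P, hm (hd x z) ≤ H)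
    (x z : Sta P) : V3 (mkQ K N s q Bc X H) z x ≤ 3200 * K * N * hm (wA z x) + 8 * N + N := by
  have hN0 := F.hN0
  have hDH := F.hDH
  have hs : 0 < s := by have := F.hq2; have := F.hqs; linarith
  have hBc : 0 < Bc := by have := F.hX0; have := F.hBcX; linarith
  have hH : 0 < H := by have := F.hH2; linarith
  unfold V3
  have h1 : (if 1 ≤ wS z x then (mkQ K N s q Bc X H).E8 else 0) ≤ 8 * N := by
    split
    · exact le_rfl
    · linarith
  have h2 : (mkQ K N s q Bc X H).D * hm (wS z x) ≤ N := by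
    refine le_trans ?_ hDH
    apply mul_le_mul_of_nonneg_left
    · refine le_trans (hm_mono ?_) (hhm x z)
      rw [hd_eq]; omega
    · change 0 ≤ 16 * s * (1 + H * s * Bc / (8 * N))
      have : 0 < N := by linarith
      positivity
  have h3 : (mkQ K N s q Bc X H).cA = 3200 * K * N := rfl
  rw [h3]
  linarith

lemma coreR (P : NP) (K N s q Bc X H : ℝ) (F : Fct K N s q Bc X H)
    (hl : 1 ≤ P.l) (hhm : ∀ x z : Sta P, hm (hd x z) ≤ H) :
    HR P (mkR K N s q Bc X) (mkQ K N s q Bc X H) := by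
  obtain ⟨hK, hN0, hq2, hqs, hH2, hX0, hXN, hXN', hBcX, h9, hBcU, hZU, hDH, hτ, hsN, hBX⟩ := id F
  clear hBcU hZU hτ
  have hK0 : 0 < K := by linarith
  have hN : 0 < N := by linarith
  have hq0 : 0 < q := by linarith
  have hs0 : 0 < s := by linarith
  have hH0 : 0 < H := by linarith
  have hBc0 : 0 < Bc := by linarith
  have hX8 : 8 ≤ X := by linarith
  have hB8 : 8 ≤ Bc := by linarith
  have hs2 : 1 ≤ s := by linarith
  have hKN : 0 < K * N := by positivity
  have hBK : 3200 * K * N ≤ s * Bc := le_mul1 hs2 (by linarith) hBc0.le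
  refine
    { l1 := hl
      r_pos := ?_
      ρN_pos := ?_
      aN_pos := ?_
      aS_pos := ?_
      rq_r := ?_
      ρN_r := ?_
      κ_pos := ?_
      κe_κ := ?_
      τb_pos := ?_
      cA_pos := ?_
      E8_pos := ?_
      D_pos := ?_
      cA_aN := ?_
      cA_ρN := ?_
      cA_r := ?_
      E8_aN := ?_
      D_aS := ?_
      Z0_Bc := ?_
      Z0_r := ?_
      X_ge := ?_
      κ_Bc := ?_ } <;> simp only [mkR, mkQ]
  · positivity
  · positivity
  · positivity
  · positivity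
  · apply one_div_le_one_div_of_le (by positivity)
    rw [mul_comm 8 q]
    exact mul_le_mul hqs hB8 (by norm_num) hs0.le
  · apply one_div_le_one_div_of_le (by positivity)
    exact hBK
  · positivity
  · apply one_div_le_one_div_of_le (by positivity)
    have : 12 * K * 8 ≤ 12 * K * X := mul_le_mul_of_nonneg_left hX8 (by positivity)
    linarith
  · positivity
  · positivity
  · positivity
  · positivity
  · have e : 3200 * K * N * (1 / (8 * N)) = 400 * K := by
      field_simp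
      ring
    rw [e]; linarith
  · have e : 3200 * K * N * (1 / (3200 * K * N)) = 1 := by
      field_simp
    rw [e]
  · rw [one_div_one_div]
    exact hBK
  · have e : 8 * N * (1 / (8 * N)) = 1 := by field_simp
    rw [e]
  · apply le_of_eq
    field_simp
    ring
  · have : 1 ≤ H * s := le_mul1 (by linarith) hs2 hs0.le
    exact le_mul1 this le_rfl hBc0.le
  · intro x z
    have e : hm (hd x z) / (1 / (s * Bc)) = hm (hd x z) * (s * Bc) := by
      field_simp
    rw [e, mul_assoc]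
    exact mul_le_mul_of_nonneg_right (hhm x z) (by positivity)
  · intro x z
    have h1 := hV3 P K N s q Bc X H F hhm x z
    unfold mkQ at h1
    refine h1.trans ?_
    have h2 : hm (wA z x) ≤ H := by
      refine le_trans (hm_mono ?_) (hhm x z)
      rw [hd_eq]; omega
    have h3 : 3200 * K * N * hm (wA z x) ≤ 3200 * K * N * H := mul_le_mul_of_nonneg_left h2 (by positivity)
    linarith
  · rw [hBX]
    apply le_of_eq
    field_simp

lemma coreG (P : NP) (K N s q Bc X H : ℝ) (F : Fct K N s q Bc X H) (hN : N = ((P.m * P.b : ℕ) : ℝ))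
    (hs : s = (Fintype.card (SI P) : ℝ)) (hq : q = (Fintype.card (QI P) : ℝ))
    (hb : (P.b : ℝ) = 8 * K) (hk : (P.k : ℝ) = 4 * K) (hNb : (P.Nb : ℝ) = 8 * K)
    (hl : 1 ≤ P.l) (hm1 : 1 ≤ P.m) (hnr : 2 * P.b ≤ P.nr)
    (hhm : ∀ x z : Sta P, hm (hd x z) ≤ H) :
    HG P (mkR K N s q Bc X) (mkQ K N s q Bc X H) := by
  have hR := coreR P K N s q Bc X H F hl hhm
  have hV := hV3 P K N s q Bc X H F hhm
  obtain ⟨hK, hN0, hq2, hqs, hH2, hX0, hXN, hXN', hBcX, h9, hBcU, hZU, hDH, hτ, hsN, hBX⟩ := id F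
  clear hBcU hZU hDH
  have hK0 : 0 < K := by linarith
  have hN' : 0 < N := by linarith
  have hq0 : 0 < q := by linarith
  have hs0 : 0 < s := by linarith
  have hBc0 : 0 < Bc := by linarith
  have hb1 : 1 ≤ P.b := by
    have : (1 : ℝ) ≤ (P.b : ℝ) := by rw [hb]; linarith
    exact_mod_cast this
  have hCI : (Fintype.card (CI P) : ℝ) = 12 * K := by
    rw [card_CI]; push_cast; rw [hk]; ring
  refine
    { toHR := hR
      m1 := hm1
      b1 := hb1
      nr2b := hnr
      Be_nonneg := ?_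
      Vm_ge := ?_
      J_nonneg := ?_
      e1_nonneg := ?_
      r_Bc := ?_
      κ_X := ?_
      ρN_256 := ?_
      ρN_Vm := ?_
      κe_Be := ?_
      τb_J := ?_
      τb_ρN := ?_
      rq_e1 := ?_ } <;> simp only [mkR, mkQ]
  · positivity
  · rw [← hN]
    linarith
  · positivity
  · positivity
  · have e : 1 / (s * Bc) * Bc = 1 / s := by field_simp
    rw [e, mul_one_div, div_le_one hs0, hs, card_PG, card_QI, card_SI]
    push_cast
    have : (0 : ℝ) ≤ (P.k : ℝ) := Nat.cast_nonneg _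
    linarith
  · rw [hCI]
    apply le_of_eq
    field_simp
  · rw [one_div, inv_mul_le_iff₀ (by positivity), mul_one]
    have : N ≤ 3200 * K * N := le_mul1 (by linarith) le_rfl hN'.le
    linarith
  · rw [hb, one_div, inv_mul_le_iff₀ (by positivity)]
    have e : 3200 * K * N * (4 / (400 * N)) = 32 * K := by
      field_simp
      ring
    rw [e]
    have h1 : 512 / (400 * N) ≤ 1 := by
      rw [div_le_one (by positivity)]; linarith
    linarith
  · intro x z hwA
    have h1 := hV x z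
    rw [hwA, hm_zero] at h1
    have h2 : 192 * K ≤ 9 * N + 192 * K - V3 (mkQ K N s q Bc X H) z x := by linarith
    have h3 : 1 / (96 * K) * (192 * K) ≤ 1 / (96 * K) * (9 * N + 192 * K - V3 (mkQ K N s q Bc X H) z x) :=
      mul_le_mul_of_nonneg_left h2 (by positivity)
    have e : 1 / (96 * K) * (192 * K) = 2 := by
      field_simp
      ring
    rw [e] at h3
    exact h3
  · apply le_of_eq
    field_simp
  · rw [hb]
    have e : 3 * (8 * K * (1 / (3200 * K * N))) = 3 / (400 * N) := by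
      field_simp
      ring
    rw [e, div_le_div_iff₀ (by positivity) (by positivity)]
    have e2 : 3 * (64 * K * q ^ 2 * Bc) = 24 * q ^ 2 * (8 * K) * Bc := by ring
    rw [e2]
    refine hτ.trans ?_
    have : 0 < N * N := by positivity
    linarith
  · rw [hb, hNb]
    apply le_of_eq
    field_simp

lemma coreS (P : NP) (K N s q Bc X H : ℝ) (F : Fct K N s q Bc X H) (hN : N = ((P.m * P.b : ℕ) : ℝ))
    (hs : s = (Fintype.card (SI P) : ℝ)) (hq : q = (Fintype.card (QI P) : ℝ))
    (hk : (P.k : ℝ) = 4 * K) (hNb : (P.Nb : ℝ) = 8 * K) : HS P (mkR K N s q Bc X) := by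
  obtain ⟨hK, hN0, hq2, hqs, hH2, hX0, hXN, hXN', hBcX, h9, hBcU, hZU, hDH, hτ, hsN, hBX⟩ := id F
  clear hBcU hZU hDH hτ
  have hK0 : 0 < K := by linarith
  have hN' : 0 < N := by linarith
  have hq0 : 0 < q := by linarith
  have hs0 : 0 < s := by linarith
  have hBc0 : 0 < Bc := by linarith
  have hCI : (Fintype.card (CI P) : ℝ) = 12 * K := by
    rw [card_CI]; push_cast; rw [hk]; ring
  refine
    { ρ8 := ?_
      a8 := ?_
      aNS := ?_
      aS8 := ?_
      r8 := ?_
      rq8 := ?_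
      κe8 := ?_
      τ2 := ?_ } <;> simp only [mkR]
  · rw [card_AI, ← hN, mul_one_div, div_le_div_iff₀ (by positivity) (by norm_num)]
    have : 8 * N ≤ 3200 * K * N := mul_le_mul_of_nonneg_right (by linarith) hN'.le
    linarith
  · rw [card_AI, ← hN]
    apply le_of_eq
    field_simp
  · apply one_div_le_one_div_of_le (by positivity)
    linarith
  · rw [← hs]
    apply le_of_eq
    field_simp
  · have h1 : (Fintype.card ((Fin P.Nb × Fin P.l) ⊕ Unit) : ℝ) ≤ s := by
      rw [hs, card_PG, card_SI]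
      push_cast
      have : (0 : ℝ) ≤ (P.k : ℝ) := Nat.cast_nonneg _
      have : (0 : ℝ) ≤ (P.M : ℝ) := Nat.cast_nonneg _
      have : (0 : ℝ) ≤ (P.nr : ℝ) := Nat.cast_nonneg _
      linarith
    rw [mul_one_div, div_le_div_iff₀ (by positivity) (by norm_num), one_mul]
    exact mul_le_mul h1 (by linarith) (by norm_num) hs0.le
  · rw [← hq]
    apply le_of_eq
    field_simp
  · rw [hCI]
    apply le_of_eq
    field_simp
    norm_num
  · rw [hNb]
    have e : 8 * K * (N / (64 * K * q ^ 2 * Bc)) = N / (8 * q ^ 2 * Bc) := by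
      field_simp
      ring
    rw [e, div_le_div_iff₀ (by positivity) (by norm_num)]
    have h1 : 1 ≤ q ^ 2 := one_le_pow₀ hq2
    have h2 : Bc ≤ q ^ 2 * Bc := le_mul1 h1 le_rfl hBc0.le
    linarith

end Pool.Agent.Helper84.OneMax
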