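import Pool.Agent.Helper84.OneMaxRob

set_option autoImplicit false
set_option linter.unusedSectionVars false
set_option linter.unusedVariables false

/-!
The scanning potential on the A-bits.
-/

namespace Pool.Agent.Helper84.OneMax

variable {P : NP}

def aw (za xa : AI P → Bool) (j t : ℕ) : Prop := ∃ a : AI P, a.1.val = j ∧ a.2.val = t ∧ xa a ≠ za a

lemma aw_iff (za xa : AI P → Bool) (a : AI P) : aw za xa a.1.val a.2.val ↔ xa a ≠ za a := by
  constructor
  · rintro ⟨a', h1, h2, h3⟩
    have : a' = a := Prod.ext (Fin.ext h1) (Fin.ext h2)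
    rwa [this] at h3
  · intro h
    exact ⟨a, rfl, rfl, h⟩

lemma aw_sg_ne (za xa : AI P → Bool) (a : AI P) (j t : ℕ) (h : j ≠ a.1.val ∨ t ≠ a.2.val) :
    aw za (fx xa (sg a)) j t ↔ aw za xa j t := by
  constructor
  · rintro ⟨a', h1, h2, h3⟩
    refine ⟨a', h1, h2, ?_⟩
    rwa [fx_sg_ne] at h3
    rintro rfl
    rcases h with h | h
    · exact h h1.symm
    · exact h h2.symm
  · rintro ⟨a', h1, h2, h3⟩
    refine ⟨a', h1, h2, ?_⟩
    rwa [fx_sg_ne]
    rintro rfl
    rcases h with h | h
    · exact h h1.symm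
    · exact h h2.symm

lemma aw_sg_self (za xa : AI P → Bool) (a : AI P) :
    aw za (fx xa (sg a)) a.1.val a.2.val ↔ ¬ aw za xa a.1.val a.2.val := by
  rw [aw_iff, aw_iff, fx_sg_self]
  cases xa a <;> cases za a <;> simp

open Classical in
noncomputable def th (za xa : AI P → Bool) (j t : ℕ) : ℝ := if aw za xa j t then 31 / 56 else 31 / 28

noncomputable def cur (za xa : AI P → Bool) (j t : ℕ) : ℝ := ∏ t' ∈ Finset.Ico t P.b, th za xa j t'

noncomputable def coef (P : NP) (t h : ℕ) : ℝ := if t = 0 ∧ P.b < h then 1 else 2 ^ P.b / 2 ^ h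

noncomputable def psi (za xa : AI P → Bool) (j t h j' : ℕ) : ℝ :=
  if j' < j then 0 else if j' = j then coef P t h * cur za xa j t else cur za xa j' 0

noncomputable def Phi (za xa : AI P → Bool) (j t h : ℕ) : ℝ := ∑ j' : Fin P.m, psi za xa j t h j'.val

open Classical in
noncomputable def st (za xa : AI P → Bool) (j t h : ℕ) : ℝ :=
  if t = 0 ∧ P.b < h then 264 else if aw za xa j t then 0 else 256

noncomputable def tt (za xa : AI P → Bool) (j t h : ℕ) : ℝ :=
  392 * (((P.m * P.b : ℕ) : ℝ) - ((j * P.b + t : ℕ) : ℝ)) + st za xa j t h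

lemma th_pos (za xa : AI P → Bool) (j t : ℕ) : 0 < th za xa j t := by
  unfold th; split <;> norm_num

lemma th_half (za xa : AI P → Bool) (j t : ℕ) : 1 / 2 ≤ th za xa j t := by
  unfold th; split <;> norm_num

lemma cur_pos (za xa : AI P → Bool) (j t : ℕ) : 0 < cur za xa j t :=
  Finset.prod_pos fun t' _ => th_pos za xa j t'

lemma coef_pos (t h : ℕ) : 0 < coef P t h := by
  unfold coef; split
  · norm_num
  · positivity

lemma psi_nonneg (za xa : AI P → Bool) (j t h j' : ℕ) : 0 ≤ psi za xa j t h j' := by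
  unfold psi
  split
  · exact le_rfl
  · split
    · exact (mul_pos (coef_pos t h) (cur_pos za xa j t)).le
    · exact (cur_pos _ _ _ _).le

lemma Phi_nonneg (za xa : AI P → Bool) (j t h : ℕ) : 0 ≤ Phi za xa j t h :=
  Finset.sum_nonneg fun j' _ => psi_nonneg za xa j t h j'.val

lemma th_sg_ne (za xa : AI P → Bool) (a : AI P) (j t : ℕ) (h : j ≠ a.1.val ∨ t ≠ a.2.val) :
    th za (fx xa (sg a)) j t = th za xa j t := by
  unfold th
  have h1 := aw_sg_ne za xa a j t h
  by_cases h2 : aw za xa j t
  · rw [if_pos (h1.mpr h2), if_pos h2]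
  · rw [if_neg (fun e => h2 (h1.mp e)), if_neg h2]

lemma cur_sg (za xa : AI P → Bool) (a : AI P) (j s : ℕ) (h : j ≠ a.1.val ∨ a.2.val < s) :
    cur za (fx xa (sg a)) j s = cur za xa j s := by
  unfold cur
  refine Finset.prod_congr rfl fun t' ht' => th_sg_ne za xa a j t' ?_
  rcases h with h | h
  · exact Or.inl h
  · right
    rw [Finset.mem_Ico] at ht'
    omega

lemma cur_succ (za xa : AI P → Bool) (j t : ℕ) (h : t < P.b) :
    cur za xa j t = th za xa j t * cur za xa j (t + 1) := by
  unfold cur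
  rw [Finset.prod_eq_prod_Ico_succ_bot h]

lemma cur_end (za xa : AI P → Bool) (j : ℕ) : cur za xa j P.b = 1 := by
  unfold cur
  simp

lemma cur_double (za xa : AI P → Bool) (a : AI P) (s : ℕ) :
    cur za (fx xa (sg a)) a.1.val s ≤ 2 * cur za xa a.1.val s := by
  have h1 : cur za (fx xa (sg a)) a.1.val s ≤
      ∏ t' ∈ Finset.Ico s P.b, ((if a.2.val = t' then (2 : ℝ) else 1) * th za xa a.1.val t') := by
    unfold cur
    refine Finset.prod_le_prod (fun t' _ => (th_pos _ _ _ _).le) fun t' _ => ?_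
    by_cases h : a.2.val = t'
    · rw [if_pos h]
      unfold th
      split <;> split <;> norm_num
    · rw [if_neg h, th_sg_ne za xa a _ t' (Or.inr fun e => h e.symm), one_mul]
  refine h1.trans ?_
  rw [Finset.prod_mul_distrib, Finset.prod_ite_eq]
  change _ * cur za xa a.1.val s ≤ _
  apply mul_le_mul_of_nonneg_right _ (cur_pos _ _ _ _).le
  split <;> norm_num

/-- effect of an A-flip on the potential -/
lemma Phi_sg (za xa : AI P → Bool) (a : AI P) (j t h : ℕ) :
    Phi za (fx xa (sg a)) j t h ≤ Phi za xa j t h + psi za xa j t h a.1.val := by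
  have h1 : ∀ j' : Fin P.m, psi za (fx xa (sg a)) j t h j'.val ≤
      psi za xa j t h j'.val + (if a.1 = j' then psi za xa j t h j'.val else 0) := by
    intro j'
    by_cases he : a.1 = j'
    · rw [if_pos he]
      subst he
      unfold psi
      split
      · simp
      · split
        · rename_i h2
          rw [← h2]
          have := cur_double za xa a t
          have hc := coef_pos (P := P) t h
          nlinarith
        · have := cur_double za xa a 0
          linarith
    · rw [if_neg he, add_zero]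
      have he' : j'.val ≠ a.1.val := fun e => he (Fin.ext e.symm)
      unfold psi
      split
      · exact le_rfl
      · split
        · rename_i h2
          rw [cur_sg za xa a j t (Or.inl (by rw [← h2]; exact he'))]
        · rw [cur_sg za xa a j'.val 0 (Or.inl he')]
  unfold Phi
  refine (Finset.sum_le_sum fun j' _ => h1 j').trans ?_
  rw [Finset.sum_add_distrib, Finset.sum_ite_eq]
  simp

lemma sum_psi (za xa : AI P → Bool) (j t h : ℕ) :
    ∑ a : AI P, psi za xa j t h a.1.val = (P.b : ℝ) * Phi za xa j t h := by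
  unfold Phi
  rw [Fintype.sum_prod_type, Finset.mul_sum]
  refine Finset.sum_congr rfl fun j' _ => ?_
  simp

lemma psi_le_Phi (za xa : AI P → Bool) (j t h : ℕ) (j' : Fin P.m) :
    psi za xa j t h j'.val ≤ Phi za xa j t h :=
  Finset.single_le_sum (fun j' _ => psi_nonneg za xa j t h j'.val) (Finset.mem_univ j')

/-- comparison when only the `j`-th summand changes -/
lemma Phi_compare (za xa ya : AI P → Bool) (j t h t' h' : ℕ) (hj : j < P.m)
    (hcur : ∀ j', j' ≠ j → cur za ya j' 0 = cur za xa j' 0) :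
    Phi za ya j t' h' = Phi za xa j t h - coef P t h * cur za xa j t + coef P t' h' * cur za ya j t' := by
  unfold Phi
  rw [← Finset.add_sum_erase _ _ (Finset.mem_univ (⟨j, hj⟩ : Fin P.m)),
    ← Finset.add_sum_erase Finset.univ (fun j' : Fin P.m => psi za xa j t h j'.val)
      (Finset.mem_univ (⟨j, hj⟩ : Fin P.m))]
  have h1 : ∑ j' ∈ Finset.univ.erase (⟨j, hj⟩ : Fin P.m), psi za ya j t' h' j'.val =
      ∑ j' ∈ Finset.univ.erase (⟨j, hj⟩ : Fin P.m), psi za xa j t h j'.val := by
    refine Finset.sum_congr rfl fun j' hj' => ?_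
    have hne : j'.val ≠ j := fun e => Finset.ne_of_mem_erase hj' (Fin.ext e)
    unfold psi
    rw [if_neg hne, if_neg hne, hcur _ hne]
  rw [h1]
  have h2 : psi za ya j t' h' j = coef P t' h' * cur za ya j t' := by
    unfold psi; rw [if_neg (by omega), if_pos rfl]
  have h3 : psi za xa j t h j = coef P t h * cur za xa j t := by
    unfold psi; rw [if_neg (by omega), if_pos rfl]
  change psi za ya j t' h' j + _ = psi za xa j t h j + _ - _ + _
  rw [h2, h3]
  ring

/-- comparison at the end of a batch -/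
lemma Phi_next (za xa ya : AI P → Bool) (j t h h' : ℕ) (hj : j < P.m)
    (hcur : ∀ j', j' ≠ j → cur za ya j' 0 = cur za xa j' 0) (hc : coef P 0 h' ≤ 1) :
    Phi za ya (j + 1) 0 h' ≤ Phi za xa j t h - coef P t h * cur za xa j t := by
  unfold Phi
  rw [← Finset.add_sum_erase _ _ (Finset.mem_univ (⟨j, hj⟩ : Fin P.m)),
    ← Finset.add_sum_erase Finset.univ (fun j' : Fin P.m => psi za xa j t h j'.val)
      (Finset.mem_univ (⟨j, hj⟩ : Fin P.m))]
  have h1 : ∑ j' ∈ Finset.univ.erase (⟨j, hj⟩ : Fin P.m), psi za ya (j + 1) 0 h' j'.val ≤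
      ∑ j' ∈ Finset.univ.erase (⟨j, hj⟩ : Fin P.m), psi za xa j t h j'.val := by
    refine Finset.sum_le_sum fun j' hj' => ?_
    have hne : j'.val ≠ j := fun e => Finset.ne_of_mem_erase hj' (Fin.ext e)
    unfold psi
    by_cases h2 : j'.val < j
    · rw [if_pos h2, if_pos (by omega)]
    · rw [if_neg h2, if_neg (by omega), if_neg hne]
      split
      · rename_i h3
        rw [h3, hcur _ (by omega)]
        have := cur_pos za xa (j + 1) 0
        nlinarith
      · rw [hcur _ hne]
  have h2 : psi za ya (j + 1) 0 h' j = 0 := by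
    unfold psi; rw [if_pos (by omega)]
  have h3 : psi za xa j t h j = coef P t h * cur za xa j t := by
    unfold psi; rw [if_neg (by omega), if_pos rfl]
  change psi za ya (j + 1) 0 h' j + _ ≤ psi za xa j t h j + _ - _
  rw [h2, h3]
  linarith

lemma cur_lower (za xa : AI P → Bool) (j t : ℕ) : (1 : ℝ) / 2 ^ P.b ≤ cur za xa j t := by
  have h1 : ∏ t' ∈ Finset.Ico t P.b, ((1 : ℝ) / 2) ≤ cur za xa j t := by
    unfold cur
    exact Finset.prod_le_prod (fun _ _ => by norm_num) fun t' _ => th_half _ _ _ _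
  refine le_trans ?_ h1
  rw [Finset.prod_const, Nat.card_Ico]
  rw [one_div, ← inv_pow, ← one_div]
  apply pow_le_pow_of_le_one (by norm_num) (by norm_num) (by omega)

lemma st_nonneg (za xa : AI P → Bool) (j t h : ℕ) : 0 ≤ st za xa j t h := by
  unfold st; split
  · norm_num
  · split <;> norm_num

lemma st_le (za xa : AI P → Bool) (j t h : ℕ) : st za xa j t h ≤ 264 := by
  unfold st; split
  · norm_num
  · split <;> norm_num

lemma pos_le (j t : ℕ) (hj : j < P.m) (ht : t < P.b) : j * P.b + t + 1 ≤ P.m * P.b := by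
  have : (j + 1) * P.b ≤ P.m * P.b := Nat.mul_le_mul_right _ hj
  have h2 : (j + 1) * P.b = j * P.b + P.b := by ring
  omega

lemma tt_ge (za xa : AI P → Bool) (j t h : ℕ) (hj : j < P.m) (ht : t < P.b) :
    392 + st za xa j t h ≤ tt za xa j t h := by
  unfold tt
  have h1 := pos_le j t hj ht
  have h2 : ((j * P.b + t : ℕ) : ℝ) + 1 ≤ ((P.m * P.b : ℕ) : ℝ) := by exact_mod_cast h1
  linarith

lemma tt_le (za xa : AI P → Bool) (j t h : ℕ) :
    tt za xa j t h ≤ 392 * ((P.m * P.b : ℕ) : ℝ) + 264 := by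
  unfold tt
  have h1 := st_le za xa j t h
  have h2 : (0 : ℝ) ≤ ((j * P.b + t : ℕ) : ℝ) := Nat.cast_nonneg _
  linarith

end Pool.Agent.Helper84.OneMax
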