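import Pool.Agent.Helper84.OneMaxCore

set_option autoImplicit false
set_option linter.unusedSectionVars false
set_option linter.unusedVariables false

/-!
Robust potential and its drift.
-/

namespace Pool.Agent.Helper84.OneMax

section
variable {ι : Type} [Fintype ι] [DecidableEq ι]

lemma hd_two (x z : ι → Bool) (i i' : ι) (hne : i ≠ i') (h : x i ≠ z i) (h' : x i' ≠ z i') :
    2 ≤ hd x z := by
  rw [← hd_sg_wrong x z i h]
  have : (fx x (sg i)) i' ≠ z i' := by rwa [fx_sg_ne x i i' hne.symm]
  have := hd_pos _ _ _ this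
  omega

lemma hd_le_sg (x z : ι → Bool) (i : ι) : hd x z ≤ hd (fx x (sg i)) z + 1 := by
  by_cases h : x i = z i
  · rw [hd_sg_right x z i h]; omega
  · rw [hd_sg_wrong x z i h]

end

variable {P : NP}

def wA (z x : Sta P) : ℕ := hd (x ∘ Sum.inl) (z ∘ Sum.inl)
def wS (z x : Sta P) : ℕ := hd (x ∘ Sum.inr) (z ∘ Sum.inr)

lemma hd_eq (z x : Sta P) : hd x z = wA z x + wS z x := hd_sum x z

def Cb (z x : Sta P) : Prop := ∃ c : CI P, x (Sum.inr (Sum.inr (Sum.inr c))) ≠ z (Sum.inr (Sum.inr (Sum.inr c)))

structure Pot where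
  cA : ℝ
  E8 : ℝ
  D : ℝ
  X : ℝ
  Bc : ℝ
  Z0 : ℝ
  Be : ℝ
  Vm : ℝ
  J : ℝ
  e1 : ℝ

noncomputable def V3 (Q : Pot) (z x : Sta P) : ℝ :=
  Q.cA * hm (wA z x) + (if 1 ≤ wS z x then Q.E8 else 0) + Q.D * hm (wS z x)

open Classical in
noncomputable def Vrob (R : RP) (Q : Pot) (z x : Sta P) : ℝ :=
  if flg x then
    if Cb z x then Q.Bc else if 1 ≤ wS z x then hm (hd x z) / R.r else Q.cA * hm (wA z x)
  else V3 Q z x

structure HR (P : NP) (R : RP) (Q : Pot) : Prop where
  l1 : 1 ≤ P.l
  r_pos : 0 < R.r
  ρN_pos : 0 < R.ρN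
  aN_pos : 0 < R.aN
  aS_pos : 0 < R.aS
  rq_r : R.r ≤ R.rq
  ρN_r : R.r ≤ R.ρN
  κ_pos : 0 < R.κ
  κe_κ : R.κ ≤ R.κe
  τb_pos : 0 < R.τb
  cA_pos : 0 < Q.cA
  E8_pos : 0 < Q.E8
  D_pos : 0 < Q.D
  cA_aN : 1 ≤ Q.cA * R.aN
  cA_ρN : 1 ≤ Q.cA * R.ρN
  cA_r : Q.cA ≤ 1 / R.r
  E8_aN : 1 ≤ Q.E8 * R.aN
  D_aS : 1 + R.aN * Q.Z0 ≤ Q.D * R.aS / 2
  Z0_Bc : Q.Bc ≤ Q.Z0
  Z0_r : ∀ x z : Sta P, hm (hd x z) / R.r ≤ Q.Z0
  X_ge : ∀ x z : Sta P, V3 Q z x ≤ Q.X
  κ_Bc : 1 ≤ R.κ * (Q.Bc - Q.X)

section moves
variable {R : RP} {Q : Pot}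

lemma rs_right (z x : Sta P) (i : Idx P) (h : x i = z i) : rs z x (Sum.inl i) = x := by
  have h1 : ¬ hd (fx x (sg i)) z ≤ hd x z := by
    rw [hd_sg_right x z i h]; omega
  exact if_neg h1

lemma rs_wrong (z x : Sta P) (i : Idx P) (h : x i ≠ z i) : rs z x (Sum.inl i) = fx x (sg i) := by
  have h1 : hd (fx x (sg i)) z ≤ hd x z := by
    rw [← hd_sg_wrong x z i h]; omega
  exact if_pos h1

lemma rs_le (z x : Sta P) (l : Mv P) : hd (rs z x l) z ≤ hd x z := by
  unfold rs
  split
  · assumption
  · exact le_rfl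

lemma fl_spec_C (x : Sta P) (l : Fin P.Nb ⊕ Bool) (c : CI P) :
    fl x (Sum.inr l) (Sum.inr (Sum.inr (Sum.inr c))) = false := by
  rcases l with j | b
  · rfl
  · cases b
    · simp only [fl]
      rcases mem x with _ | ⟨j, t, h⟩
      · rfl
      · rfl
    · simp only [fl]
      rcases mem x with _ | ⟨j, t, h⟩
      · rfl
      · simp only [flT]
        split
        · rfl
        · rfl

lemma rs_spec_C (z x : Sta P) (l : Fin P.Nb ⊕ Bool) (c : CI P) :
    rs z x (Sum.inr l) (Sum.inr (Sum.inr (Sum.inr c))) = x (Sum.inr (Sum.inr (Sum.inr c))) := by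
  unfold rs
  split
  · simp only [fx]
    rw [fl_spec_C]
    simp
  · rfl

lemma flg_congr (x y : Sta P)
    (h : ∀ c : CI P, x (Sum.inr (Sum.inr (Sum.inr c))) = y (Sum.inr (Sum.inr (Sum.inr c)))) :
    flg x ↔ flg y := by
  unfold flg
  constructor
  · intro H a a' j
    rw [← h, ← h]; exact H a a' j
  · intro H a a' j
    rw [h, h]; exact H a a' j

lemma Cb_congr (z x y : Sta P)
    (h : ∀ c : CI P, x (Sum.inr (Sum.inr (Sum.inr c))) = y (Sum.inr (Sum.inr (Sum.inr c)))) :
    Cb z x ↔ Cb z y := by
  unfold Cb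
  simp only [h]

lemma fx_nonC (x : Sta P) (i : Idx P) (hi : ∀ c : CI P, i ≠ Sum.inr (Sum.inr (Sum.inr c))) (c : CI P) :
    fx x (sg i) (Sum.inr (Sum.inr (Sum.inr c))) = x (Sum.inr (Sum.inr (Sum.inr c))) :=
  fx_sg_ne x i _ (fun h => hi c h.symm)

lemma exists_third (a a' : Fin 3) : ∃ a'' : Fin 3, a'' ≠ a ∧ a'' ≠ a' := by
  revert a a'; decide

lemma not_flg_C (x : Sta P) (hx : flg x) (c : CI P) :
    ¬ flg (fx x (sg (Sum.inr (Sum.inr (Sum.inr c))))) := by
  intro H
  obtain ⟨a, j⟩ := c
  obtain ⟨a'', h1, _⟩ := exists_third a a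
  have h2 := H a a'' j
  have h3 := hx a a'' j
  rw [fx_sg_self, fx_sg_ne] at h2
  · rw [h3] at h2
    revert h2
    cases x (iC a'' j) <;> simp
  · intro h
    simp only [Sum.inr.injEq, Prod.mk.injEq, and_true] at h
    exact h1 h

lemma reflag_unique (x : Sta P) (hx : ¬ flg x) (s s' : SI P) (h : flg (fx x (sg (Sum.inr s))))
    (h' : flg (fx x (sg (Sum.inr s')))) : s = s' := by
  have hC : ∀ s : SI P, flg (fx x (sg (Sum.inr s))) → ∃ c, s = Sum.inr (Sum.inr c) := by
    intro s h
    by_contra hne
    push Not at hne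
    apply hx
    refine (flg_congr _ _ ?_).mp h
    intro c
    exact fx_nonC x _ (fun c h => hne c (Sum.inr_injective h)) c
  obtain ⟨⟨a, j⟩, rfl⟩ := hC s h
  obtain ⟨⟨a', j'⟩, rfl⟩ := hC s' h'
  by_contra hne
  obtain ⟨a'', h1, h2⟩ := exists_third a a'
  have e1 := h a' a'' j'
  have e2 := h' a' a'' j'
  rw [fx_sg_ne, fx_sg_ne] at e1
  · rw [fx_sg_self, fx_sg_ne] at e2
    · rw [e1] at e2
      revert e2
      cases x (iC a'' j') <;> simp
    · intro h
      simp only [Sum.inr.injEq, Prod.mk.injEq, and_true] at h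
      exact h2 h
  · intro h
    simp only [Sum.inr.injEq, Prod.mk.injEq] at h
    exact h1 h.1
  · intro h
    apply hne
    rw [Sum.inr.injEq, Sum.inr.injEq, Sum.inr.injEq] at h
    rw [h]

lemma rt_nonneg (hR : HR P R Q) (x : Sta P) (i : Idx P) : 0 ≤ rt R x i := by
  rcases i with a | s
  · simp only [rt]
    split
    · exact hR.ρN_pos.le
    · exact hR.aN_pos.le
  · simp only [rt]
    split
    · rcases s with s | s | s
      · exact hR.r_pos.le
      · simp only [rtS]
        split
        · exact hR.r_pos.le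
        · exact hR.r_pos.le.trans hR.rq_r
      · simp only [rtS]
        split
        · exact hR.κ_pos.le.trans hR.κe_κ
        · exact hR.κ_pos.le
    · split
      · exact hR.aN_pos.le
      · exact hR.aS_pos.le

lemma pT_nonneg (o : Option (ℕ × ℕ × ℕ)) : 0 ≤ pT P o := by
  rcases o with _ | ⟨j, t, h⟩
  · exact le_rfl
  · simp only [pT]
    split
    · norm_num
    · split <;> norm_num

lemma pF_nonneg (o : Option (ℕ × ℕ × ℕ)) : 0 ≤ pF P o := by
  rcases o with _ | ⟨j, t, h⟩
  · exact le_rfl
  · simp only [pF]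
    split <;> norm_num

lemma pr_nonneg (hR : HR P R Q) (x : Sta P) (l : Mv P) : 0 ≤ pr R x l := by
  rcases l with i | j | b
  · exact rt_nonneg hR x i
  · simp only [pr]
    split
    · exact hR.τb_pos.le
    · exact le_rfl
  · cases b
    · simp only [pr]
      split
      · exact pF_nonneg _
      · exact le_rfl
    · simp only [pr]
      split
      · exact pT_nonneg _
      · exact le_rfl

/-- specials are rejected when all `S`-bits are right: abstract form -/
lemma rej_abs (z x : Sta P) (hS : wS z x = 0) (f : Idx P → Bool)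
    (hA : (∀ a, f (Sum.inl a) = false) ∨ ∃ a, f ∘ Sum.inl = sg a)
    (s s' : SI P) (hne : s ≠ s') (hs : f (Sum.inr s) = true) (hs' : f (Sum.inr s') = true) :
    hd x z < hd (fx x f) z := by
  rw [hd_eq, hd_eq]
  have hx : x ∘ Sum.inr = z ∘ Sum.inr := hd_eq_zero _ _ hS
  have h1 : 2 ≤ wS z (fx x f) := by
    have hk : ∀ s, f (Sum.inr s) = true → (fx x f ∘ Sum.inr) s ≠ (z ∘ Sum.inr) s := by
      intro s hs
      have := congrFun hx s
      simp only [Function.comp] at this ⊢
      simp only [fx, hs, this]
      cases z (Sum.inr s) <;> simp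
    exact hd_two _ _ s s' hne (hk s hs) (hk s' hs')
  have h2 : wA z x ≤ wA z (fx x f) + 1 := by
    rcases hA with hA | ⟨a, ha⟩
    · have : fx x f ∘ Sum.inl = x ∘ Sum.inl := by
        funext a
        simp [fx, hA a]
      unfold wA
      rw [this]; omega
    · have : fx x f ∘ Sum.inl = fx (x ∘ Sum.inl) (sg a) := by
        funext a'
        have := congrFun ha a'
        simp only [Function.comp] at this
        simp [fx, this]
      unfold wA
      rw [this]
      exact hd_le_sg _ _ a
  omega

lemma eA_cases (j t : ℕ) : (∀ a : AI P, eA (P := P) j t a = false) ∨ ∃ a : AI P, eA (P := P) j t = sg a := by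
  by_cases h : j < P.m ∧ t < P.b
  · right
    refine ⟨(⟨j, h.1⟩, ⟨t, h.2⟩), ?_⟩
    funext a
    simp only [eA, sg, decide_eq_decide]
    rw [Prod.ext_iff, Fin.ext_iff, Fin.ext_iff]
  · left
    intro a
    simp only [eA, decide_eq_false_iff_not]
    intro h2
    apply h
    rw [← h2.1, ← h2.2]
    exact ⟨a.1.2, a.2.2⟩

/-- a memory change flips two `S`-bits -/
lemma mem_change (x : Sta P) (fa : AI P → Bool) (fr : ℕ → Bool) (v : Fin P.M → Bool)
    (h : P.dec v ≠ mem x) : ∃ s s' : SI P, s ≠ s' ∧ fl2 x fa fr v (Sum.inr s) = true ∧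
      fl2 x fa fr v (Sum.inr s') = true := by
  have : ∃ j, x (iQ true j) ≠ v j := by
    by_contra hne
    push Not at hne
    apply h
    unfold mem
    congr 1
    funext j
    exact (hne j).symm
  obtain ⟨j, hj⟩ := this
  refine ⟨Sum.inr (Sum.inl (Sum.inl (true, j))), Sum.inr (Sum.inl (Sum.inl (false, j))), by simp, ?_, ?_⟩
  · simp only [fl2]
    revert hj
    cases x (iQ true j) <;> cases v j <;> simp
  · simp only [fl2]
    revert hj
    cases x (iQ true j) <;> cases v j <;> simp

lemma rej (hl : 1 ≤ P.l) (z x : Sta P) (hS : wS z x = 0) (l : Fin P.Nb ⊕ Bool)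
    (hp : pr R x (Sum.inr l) ≠ 0) : rs z x (Sum.inr l) = x := by
  have key : hd x z < hd (fx x (fl x (Sum.inr l))) z := by
    rcases l with j | b
    · refine rej_abs z x hS _ (Or.inl fun a => rfl) (Sum.inl (Sum.inl (j, ⟨0, hl⟩)))
        (Sum.inl (Sum.inr ())) (by simp) ?_ ?_
      · simp [fl, flTr]
      · simp [fl, flTr]
    · cases b
      · simp only [pr] at hp
        split at hp
        swap
        · exact absurd rfl hp
        simp only [fl]
        rcases hm : mem x with _ | ⟨j, t, h⟩
        · rw [hm] at hp; exact absurd rfl hp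
        · rw [hm] at hp
          simp only [pF] at hp
          split at hp
          · exact absurd rfl hp
          rename_i hh
          push Not at hh
          have hd := P.dec_some _ _ _ _ hm
          simp only [flF]
          have hv : P.dec (P.enc (some (j, t, h - 1))) ≠ mem x := by
            rw [P.dec_enc _ _ _ hd.1 hd.2.1 (by omega), hm]
            intro e
            simp only [Option.some.injEq, Prod.mk.injEq, true_and] at e
            have := hh.2
            omega
          obtain ⟨s, s', hne, h1, h2⟩ := mem_change x (eA j t) (fun i => decide (i + 1 = h)) _ hv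
          refine rej_abs z x hS _ ?_ s s' hne h1 h2
          rcases eA_cases (P := P) j t with h | ⟨a, ha⟩
          · left; exact h
          · right; exact ⟨a, ha⟩
      · simp only [pr] at hp
        split at hp
        swap
        · exact absurd rfl hp
        simp only [fl]
        rcases hm : mem x with _ | ⟨j, t, h⟩
        · rw [hm] at hp; exact absurd rfl hp
        · rw [hm] at hp
          have hd := P.dec_some _ _ _ _ hm
          simp only [pT] at hp
          simp only [flT]
          split
          · rename_i hh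
            have hv : P.dec (P.enc (some (j, t, P.b))) ≠ mem x := by
              rw [P.dec_enc _ _ _ hd.1 hd.2.1 (by omega), hm]
              intro e
              simp only [Option.some.injEq, Prod.mk.injEq, true_and] at e
              omega
            obtain ⟨s, s', hne, h1, h2⟩ := mem_change x (fun _ => false)
              (fun i => decide (P.b ≤ i ∧ i < h)) _ hv
            exact rej_abs z x hS _ (Or.inl fun _ => rfl) s s' hne h1 h2
          · rename_i hh
            rw [if_neg hh] at hp
            split at hp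
            swap
            · exact absurd rfl hp
            rename_i hh2
            have hv : P.dec (P.enc (nxt P j t (h + 1))) ≠ mem x := by
              rw [hm]
              unfold nxt
              split
              · rename_i h3
                rw [P.dec_enc _ _ _ hd.1 h3 (by omega)]
                intro e
                simp only [Option.some.injEq, Prod.mk.injEq, true_and] at e
                omega
              · split
                · rename_i h4
                  rw [P.dec_enc _ _ _ h4 (by omega) (by omega)]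
                  intro e
                  simp only [Option.some.injEq, Prod.mk.injEq] at e
                  omega
                · rw [P.dec_enc_none]; simp
            obtain ⟨s, s', hne, h1, h2⟩ := mem_change x (eA j t) (fun i => decide (i = h)) _ hv
            refine rej_abs z x hS _ ?_ s s' hne h1 h2
            rcases eA_cases (P := P) j t with h | ⟨a, ha⟩
            · left; exact h
            · right; exact ⟨a, ha⟩
  unfold rs
  rw [if_neg (by omega)]

lemma sum_Mv (f : Mv P → ℝ) :
    ∑ l, f l = (∑ a : AI P, f (Sum.inl (Sum.inl a)) + ∑ s : SI P, f (Sum.inl (Sum.inr s)))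
      + (∑ l : Fin P.Nb ⊕ Bool, f (Sum.inr l)) := by
  rw [Fintype.sum_sum_type, Fintype.sum_sum_type]

lemma XBc (hR : HR P R Q) : Q.X ≤ Q.Bc := by
  have h1 := hR.κ_Bc
  have h2 := hR.κ_pos
  by_contra h
  push Not at h
  nlinarith

lemma V3_nonneg (hR : HR P R Q) (z x : Sta P) : 0 ≤ V3 Q z x := by
  unfold V3
  have h1 := mul_nonneg hR.cA_pos.le (hm_nonneg (wA z x))
  have h2 := mul_nonneg hR.D_pos.le (hm_nonneg (wS z x))
  have h3 : 0 ≤ (if 1 ≤ wS z x then Q.E8 else 0) := by
    split
    · exact hR.E8_pos.le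
    · exact le_rfl
  linarith

lemma Bc_nonneg (hR : HR P R Q) (z : Sta P) : 0 ≤ Q.Bc :=
  (V3_nonneg hR z z).trans ((hR.X_ge z z).trans (XBc hR))

lemma Vrob_nonneg (hR : HR P R Q) (z x : Sta P) : 0 ≤ Vrob R Q z x := by
  unfold Vrob
  split
  · split
    · exact Bc_nonneg hR z
    · split
      · exact div_nonneg (hm_nonneg _) hR.r_pos.le
      · exact mul_nonneg hR.cA_pos.le (hm_nonneg _)
  · exact V3_nonneg hR z x

lemma Vrob_Cb (z x : Sta P) (hf : flg x) (hc : Cb z x) : Vrob R Q z x = Q.Bc := by
  unfold Vrob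
  rw [if_pos hf, if_pos hc]

lemma Vrob_unfl (z x : Sta P) (hf : ¬ flg x) : Vrob R Q z x = V3 Q z x := by
  unfold Vrob
  rw [if_neg hf]

lemma Vrob_mid (z x : Sta P) (hf : flg x) (hc : ¬ Cb z x) (hs : 1 ≤ wS z x) :
    Vrob R Q z x = hm (hd x z) / R.r := by
  unfold Vrob
  rw [if_pos hf, if_neg hc, if_pos hs]

lemma Cb_wS (z x : Sta P) (hc : Cb z x) : 1 ≤ wS z x := by
  obtain ⟨c, hc⟩ := hc
  exact hd_pos _ _ (Sum.inr (Sum.inr c)) hc

lemma Vrob_low (z x : Sta P) (hf : flg x) (hs : wS z x = 0) :
    Vrob R Q z x = Q.cA * hm (wA z x) := by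
  unfold Vrob
  have hc : ¬ Cb z x := fun h => by have := Cb_wS z x h; omega
  rw [if_pos hf, if_neg hc, if_neg (by omega)]

lemma Vrob_le_mid (hR : HR P R Q) (z x : Sta P) (hf : flg x) (hc : ¬ Cb z x) :
    Vrob R Q z x ≤ hm (hd x z) / R.r := by
  by_cases hs : 1 ≤ wS z x
  · rw [Vrob_mid z x hf hc hs]
  · rw [Vrob_low z x hf (by omega)]
    have h1 : hm (wA z x) ≤ hm (hd x z) := hm_mono (by rw [hd_eq]; omega)
    have h2 := hR.cA_r
    calc Q.cA * hm (wA z x) ≤ (1 / R.r) * hm (hd x z) := by
          apply mul_le_mul h2 h1 (hm_nonneg _)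
          exact div_nonneg zero_le_one hR.r_pos.le
      _ = _ := by ring

/-- after a non-`C` move the flag part is unchanged -/
lemma keep (z x : Sta P) (l : Mv P) (hl : ∀ c : CI P, l ≠ Sum.inl (Sum.inr (Sum.inr (Sum.inr c)))) (c : CI P) :
    rs z x l (Sum.inr (Sum.inr (Sum.inr c))) = x (Sum.inr (Sum.inr (Sum.inr c))) := by
  rcases l with i | l
  · by_cases h : x i = z i
    · rw [rs_right z x i h]
    · rw [rs_wrong z x i h]
      exact fx_nonC x i (fun c hc => hl c (by rw [hc])) c
  · exact rs_spec_C z x l c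

lemma keep_flg (z x : Sta P) (l : Mv P) (hl : ∀ c : CI P, l ≠ Sum.inl (Sum.inr (Sum.inr (Sum.inr c)))) :
    flg (rs z x l) ↔ flg x := flg_congr _ _ (keep z x l hl)

lemma keep_Cb (z x : Sta P) (l : Mv P) (hl : ∀ c : CI P, l ≠ Sum.inl (Sum.inr (Sum.inr (Sum.inr c)))) :
    Cb z (rs z x l) ↔ Cb z x := Cb_congr _ _ _ (keep z x l hl)

lemma Vrob_rs_le_Bc (hR : HR P R Q) (z x : Sta P) (hf : flg x) (hc : Cb z x) (l : Mv P) :
    Vrob R Q z (rs z x l) ≤ Q.Bc := by
  by_cases hl : ∀ c : CI P, l ≠ Sum.inl (Sum.inr (Sum.inr (Sum.inr c)))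
  · rw [Vrob_Cb _ _ ((keep_flg z x l hl).mpr hf) ((keep_Cb z x l hl).mpr hc)]
  · push Not at hl
    obtain ⟨c, rfl⟩ := hl
    by_cases h : x (Sum.inr (Sum.inr (Sum.inr c))) = z (Sum.inr (Sum.inr (Sum.inr c)))
    · rw [rs_right z x _ h, Vrob_Cb _ _ hf hc]
    · rw [rs_wrong z x _ h, Vrob_unfl _ _ (not_flg_C x hf c)]
      exact (hR.X_ge _ _).trans (XBc hR)

lemma rt_C_ge (hR : HR P R Q) (x : Sta P) (hf : flg x) (c : CI P) :
    R.κ ≤ rt R x (Sum.inr (Sum.inr (Sum.inr c))) := by
  simp only [rt, rtS]
  rw [if_pos hf]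
  split
  · exact hR.κe_κ
  · exact le_rfl

lemma rt_nonC_ge (hR : HR P R Q) (x : Sta P) (hf : flg x) (i : Idx P)
    (hi : ∀ c : CI P, i ≠ Sum.inr (Sum.inr (Sum.inr c))) :
    R.r ≤ rt R x i := by
  rcases i with a | s | q | c
  · simp only [rt]
    rw [if_pos hf]
    exact hR.ρN_r
  · simp only [rt, rtS]
    rw [if_pos hf]
  · simp only [rt, rtS]
    rw [if_pos hf]
    split
    · exact le_rfl
    · exact hR.rq_r
  · exact absurd rfl (hi c)

/-- sum over the wrong positions -/
lemma sum_wrong {ι : Type} [Fintype ι] [DecidableEq ι] (x z : ι → Bool) (c : ℝ) :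
    ∑ i, (if x i = z i then (0 : ℝ) else c) = (hd x z : ℝ) * c := by
  rw [hd_cast, Finset.sum_mul]
  refine Finset.sum_congr rfl fun i _ => ?_
  split <;> simp

theorem rob (hR : HR P R Q) (z x : Sta P) (hx : x ≠ z) :
    1 ≤ ∑ l, pr R x l * (Vrob R Q z x - Vrob R Q z (rs z x l)) := by
  by_cases hf : flg x
  · by_cases hc : Cb z x
    · -- flagged with a wrong C-bit
      obtain ⟨c, hc'⟩ := id hc
      have h1 : ∀ l ∈ (Finset.univ : Finset (Mv P)),
          0 ≤ pr R x l * (Vrob R Q z x - Vrob R Q z (rs z x l)) := by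
        intro l _
        apply mul_nonneg (pr_nonneg hR x l)
        rw [Vrob_Cb z x hf hc]
        have := Vrob_rs_le_Bc hR z x hf hc l
        linarith
      refine le_trans ?_ (Finset.single_le_sum h1 (Finset.mem_univ (Sum.inl (Sum.inr (Sum.inr (Sum.inr c))))))
      rw [rs_wrong z x _ hc', Vrob_Cb z x hf hc, Vrob_unfl _ _ (not_flg_C x hf c)]
      have h2 := rt_C_ge hR x hf c
      have h3 := hR.X_ge (fx x (sg (Sum.inr (Sum.inr (Sum.inr c))))) z
      have h4 := hR.κ_Bc
      have h5 := XBc hR
      calc (1 : ℝ) ≤ R.κ * (Q.Bc - Q.X) := h4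
        _ ≤ rt R x (Sum.inr (Sum.inr (Sum.inr c))) * (Q.Bc - Q.X) := by
            apply mul_le_mul_of_nonneg_right h2; linarith
        _ ≤ _ := by
            apply mul_le_mul_of_nonneg_left _ (rt_nonneg hR x _)
            linarith
    · by_cases hs : 1 ≤ wS z x
      · -- middle case
        have hw : 1 ≤ hd x z := by rw [hd_eq]; omega
        have hw' : (0 : ℝ) < (hd x z : ℝ) := by exact_mod_cast hw
        have hnc : ∀ c : CI P, x (Sum.inr (Sum.inr (Sum.inr c))) = z (Sum.inr (Sum.inr (Sum.inr c))) := by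
          intro c
          by_contra h
          exact hc ⟨c, h⟩
        have hkeep : ∀ l : Mv P, flg (rs z x l) ∧ ¬ Cb z (rs z x l) := by
          intro l
          by_cases hl : ∀ c : CI P, l ≠ Sum.inl (Sum.inr (Sum.inr (Sum.inr c)))
          · exact ⟨(keep_flg z x l hl).mpr hf, fun h => hc ((keep_Cb z x l hl).mp h)⟩
          · push Not at hl
            obtain ⟨c, rfl⟩ := hl
            rw [rs_right z x _ (hnc c)]
            exact ⟨hf, hc⟩
        have hV : ∀ l : Mv P, 0 ≤ Vrob R Q z x - Vrob R Q z (rs z x l) := by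
          intro l
          have h1 := Vrob_le_mid hR z (rs z x l) (hkeep l).1 (hkeep l).2
          rw [Vrob_mid z x hf hc hs]
          have h2 : hm (hd (rs z x l) z) / R.r ≤ hm (hd x z) / R.r := by
            apply div_le_div_of_nonneg_right (hm_mono (rs_le z x l)) hR.r_pos.le
          linarith
        have hsum : ∑ i : Idx P, (if x i = z i then (0 : ℝ) else 1 / (hd x z : ℝ)) ≤
            ∑ i : Idx P, pr R x (Sum.inl i) * (Vrob R Q z x - Vrob R Q z (rs z x (Sum.inl i))) := by
          refine Finset.sum_le_sum fun i _ => ?_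
          split
          · exact mul_nonneg (pr_nonneg hR x _) (hV _)
          · rename_i hi
            have hnC : ∀ c : CI P, i ≠ Sum.inr (Sum.inr (Sum.inr c)) := by
              rintro c rfl
              exact hi (hnc c)
            have h1 := Vrob_le_mid hR z (rs z x (Sum.inl i)) (hkeep _).1 (hkeep _).2
            have h2 : hd (rs z x (Sum.inl i)) z + 1 = hd x z := by
              rw [rs_wrong z x i hi]; exact hd_sg_wrong x z i hi
            have h3 := hm_sub h2
            have h4 := rt_nonC_ge hR x hf i hnC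
            have h5 : pr R x (Sum.inl i) = rt R x i := rfl
            rw [h5, Vrob_mid z x hf hc hs]
            have h6 : 1 / (hd x z : ℝ) / R.r ≤ hm (hd x z) / R.r - Vrob R Q z (rs z x (Sum.inl i)) := by
              rw [← h3, sub_div]
              linarith
            have hr := hR.r_pos
            calc 1 / (hd x z : ℝ) = R.r * (1 / (hd x z : ℝ) / R.r) := by
                  field_simp
              _ ≤ rt R x i * (1 / (hd x z : ℝ) / R.r) := by
                  apply mul_le_mul_of_nonneg_right h4; positivity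
              _ ≤ _ := mul_le_mul_of_nonneg_left h6 (rt_nonneg hR x i)
        rw [sum_wrong, mul_one_div_cancel hw'.ne'] at hsum
        rw [Fintype.sum_sum_type]
        have h7 : 0 ≤ ∑ l : Fin P.Nb ⊕ Bool, pr R x (Sum.inr l) * (Vrob R Q z x - Vrob R Q z (rs z x (Sum.inr l))) :=
          Finset.sum_nonneg fun l _ => mul_nonneg (pr_nonneg hR x _) (hV _)
        linarith
      · -- all S-bits right
        have hs0 : wS z x = 0 := by omega
        have hxS : x ∘ Sum.inr = z ∘ Sum.inr := hd_eq_zero _ _ hs0
        have hwA : 1 ≤ wA z x := by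
          by_contra h
          apply hx
          apply hd_eq_zero
          rw [hd_eq]; omega
        have hw' : (0 : ℝ) < (wA z x : ℝ) := by exact_mod_cast hwA
        rw [sum_Mv]
        have h1 : ∑ l : Fin P.Nb ⊕ Bool, pr R x (Sum.inr l) * (Vrob R Q z x - Vrob R Q z (rs z x (Sum.inr l))) = 0 := by
          refine Finset.sum_eq_zero fun l _ => ?_
          by_cases hp : pr R x (Sum.inr l) = 0
          · rw [hp, zero_mul]
          · rw [rej hR.l1 z x hs0 l hp, sub_self, mul_zero]
        have h2 : ∑ s : SI P, pr R x (Sum.inl (Sum.inr s)) *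
            (Vrob R Q z x - Vrob R Q z (rs z x (Sum.inl (Sum.inr s)))) = 0 := by
          refine Finset.sum_eq_zero fun s _ => ?_
          rw [rs_right z x _ (congrFun hxS s), sub_self, mul_zero]
        have h3 : ∑ a : AI P, (if (x ∘ Sum.inl) a = (z ∘ Sum.inl) a then (0 : ℝ) else 1 / (wA z x : ℝ)) ≤
            ∑ a : AI P, pr R x (Sum.inl (Sum.inl a)) *
            (Vrob R Q z x - Vrob R Q z (rs z x (Sum.inl (Sum.inl a)))) := by
          refine Finset.sum_le_sum fun a _ => ?_
          split
          · rename_i ha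
            rw [rs_right z x _ ha, sub_self, mul_zero]
          · rename_i ha
            have ha' : x (Sum.inl a) ≠ z (Sum.inl a) := ha
            have hk : ∀ c : CI P, (Sum.inl (Sum.inl a) : Mv P) ≠ Sum.inl (Sum.inr (Sum.inr (Sum.inr c))) := by
              intro c; simp
            have e1 : wA z (rs z x (Sum.inl (Sum.inl a))) + 1 = wA z x := by
              rw [rs_wrong z x _ ha']
              unfold wA
              rw [fx_sg_inl_inl]
              exact hd_sg_wrong _ _ a ha
            have e2 : wS z (rs z x (Sum.inl (Sum.inl a))) = 0 := by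
              rw [rs_wrong z x _ ha']
              unfold wS
              rw [fx_sg_inl_inr]
              exact hs0
            rw [Vrob_low z x hf hs0, Vrob_low z _ ((keep_flg z x _ hk).mpr hf) e2, ← mul_sub, hm_sub e1]
            have h5 : pr R x (Sum.inl (Sum.inl a)) = R.ρN := by
              simp only [pr, rt]; rw [if_pos hf]
            rw [h5]
            have := hR.cA_ρN
            calc 1 / (wA z x : ℝ) = 1 * (1 / (wA z x : ℝ)) := by ring
              _ ≤ (Q.cA * R.ρN) * (1 / (wA z x : ℝ)) := by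
                  apply mul_le_mul_of_nonneg_right this; positivity
              _ = _ := by ring
        rw [sum_wrong] at h3
        have h4 : ((hd (x ∘ Sum.inl) (z ∘ Sum.inl) : ℕ) : ℝ) * (1 / (wA z x : ℝ)) = 1 := by
          change (wA z x : ℝ) * (1 / (wA z x : ℝ)) = 1
          exact mul_one_div_cancel hw'.ne'
        rw [h4] at h3
        rw [h1, h2]
        linarith
  · -- unflagged
    rw [sum_Mv]
    have h1 : ∑ l : Fin P.Nb ⊕ Bool, pr R x (Sum.inr l) * (Vrob R Q z x - Vrob R Q z (rs z x (Sum.inr l))) = 0 := by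
      refine Finset.sum_eq_zero fun l _ => ?_
      have : pr R x (Sum.inr l) = 0 := by
        rcases l with j | b
        · simp only [pr]; rw [if_neg (fun h => hf h.1)]
        · cases b
          · simp only [pr]; rw [if_neg (fun h => hf h.1)]
          · simp only [pr]; rw [if_neg (fun h => hf h.1)]
      rw [this, zero_mul]
    rw [h1, add_zero]
    have hA : ∑ a : AI P, (if (x ∘ Sum.inl) a = (z ∘ Sum.inl) a then (0 : ℝ) else 1 / (wA z x : ℝ)) ≤
        ∑ a : AI P, pr R x (Sum.inl (Sum.inl a)) *
        (Vrob R Q z x - Vrob R Q z (rs z x (Sum.inl (Sum.inl a)))) := by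
      refine Finset.sum_le_sum fun a _ => ?_
      split
      · rename_i ha
        rw [rs_right z x _ ha, sub_self, mul_zero]
      · rename_i ha
        have ha' : x (Sum.inl a) ≠ z (Sum.inl a) := ha
        have hk : ∀ c : CI P, (Sum.inl (Sum.inl a) : Mv P) ≠ Sum.inl (Sum.inr (Sum.inr (Sum.inr c))) := by
          intro c; simp
        have e1 : wA z (rs z x (Sum.inl (Sum.inl a))) + 1 = wA z x := by
          rw [rs_wrong z x _ ha']
          unfold wA
          rw [fx_sg_inl_inl]
          exact hd_sg_wrong _ _ a ha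
        have e2 : wS z (rs z x (Sum.inl (Sum.inl a))) = wS z x := by
          rw [rs_wrong z x _ ha']
          unfold wS
          rw [fx_sg_inl_inr]
        have hnf : ¬ flg (rs z x (Sum.inl (Sum.inl a))) := fun h => hf ((keep_flg z x _ hk).mp h)
        rw [Vrob_unfl z x hf, Vrob_unfl z _ hnf]
        unfold V3
        rw [e2]
        have h5 : pr R x (Sum.inl (Sum.inl a)) = R.aN := by
          simp only [pr, rt]; rw [if_neg hf]
        rw [h5]
        have h6 := hm_sub e1
        have := hR.cA_aN
        calc 1 / (wA z x : ℝ) = 1 * (1 / (wA z x : ℝ)) := by ring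
          _ ≤ (Q.cA * R.aN) * (1 / (wA z x : ℝ)) := by
              apply mul_le_mul_of_nonneg_right this; positivity
          _ = R.aN * (Q.cA * (hm (wA z x) - hm (wA z (rs z x (Sum.inl (Sum.inl a)))))) := by
              rw [h6]; ring
          _ = _ := by ring
    rw [sum_wrong] at hA
    have hA' : ((hd (x ∘ Sum.inl) (z ∘ Sum.inl) : ℕ) : ℝ) * (1 / (wA z x : ℝ)) = (wA z x : ℝ) * (1 / (wA z x : ℝ)) := rfl
    rw [hA'] at hA
    by_cases hs0 : wS z x = 0
    · have hxS : x ∘ Sum.inr = z ∘ Sum.inr := hd_eq_zero _ _ hs0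
      have hwA : 1 ≤ wA z x := by
        by_contra h
        apply hx
        apply hd_eq_zero
        rw [hd_eq]; omega
      have hw' : (0 : ℝ) < (wA z x : ℝ) := by exact_mod_cast hwA
      have h2 : ∑ s : SI P, pr R x (Sum.inl (Sum.inr s)) *
          (Vrob R Q z x - Vrob R Q z (rs z x (Sum.inl (Sum.inr s)))) = 0 := by
        refine Finset.sum_eq_zero fun s _ => ?_
        rw [rs_right z x _ (congrFun hxS s), sub_self, mul_zero]
      rw [mul_one_div_cancel hw'.ne'] at hA
      rw [h2]
      linarith
    · have hA0 : 0 ≤ ∑ a : AI P, pr R x (Sum.inl (Sum.inl a)) *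
          (Vrob R Q z x - Vrob R Q z (rs z x (Sum.inl (Sum.inl a)))) := by
        refine le_trans ?_ hA
        positivity
      have hwS : 1 ≤ wS z x := by omega
      -- facts about flipping a wrong S-bit
      have hA1 : ∀ s : SI P, x (Sum.inr s) ≠ z (Sum.inr s) →
          wA z (rs z x (Sum.inl (Sum.inr s))) = wA z x ∧ wS z (rs z x (Sum.inl (Sum.inr s))) + 1 = wS z x := by
        intro s hs
        rw [rs_wrong z x _ hs]
        constructor
        · unfold wA; rw [fx_sg_inr_inl]
        · unfold wS; rw [fx_sg_inr_inr]; exact hd_sg_wrong _ _ s hs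
      have hVx : Vrob R Q z x = Q.cA * hm (wA z x) + Q.E8 + Q.D * hm (wS z x) := by
        rw [Vrob_unfl z x hf]; unfold V3; rw [if_pos hwS]
      have hDp := hR.D_pos
      have hE := hR.E8_pos
      have hcA := hR.cA_pos
      have haN := hR.aN_pos
      have haS := hR.aS_pos
      have hZ0 : 0 ≤ Q.Z0 := (Bc_nonneg hR z).trans hR.Z0_Bc
      have hDaS := hR.D_aS
      have hZN : 0 ≤ R.aN * Q.Z0 := mul_nonneg haN.le hZ0
      by_cases hs1 : wS z x = 1
      · have hterm : ∀ s : SI P, x (Sum.inr s) ≠ z (Sum.inr s) → 1 ≤ pr R x (Sum.inl (Sum.inr s)) *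
          (Vrob R Q z x - Vrob R Q z (rs z x (Sum.inl (Sum.inr s)))) := by
          intro s hs
          have h5 := hA1 s hs
          have h6 : wS z (rs z x (Sum.inl (Sum.inr s))) = 0 := by omega
          have h7 : Vrob R Q z (rs z x (Sum.inl (Sum.inr s))) = Q.cA * hm (wA z x) := by
            by_cases hff : flg (rs z x (Sum.inl (Sum.inr s)))
            · rw [Vrob_low z _ hff h6, h5.1]
            · rw [Vrob_unfl z _ hff]
              unfold V3
              rw [h6, h5.1, if_neg (by omega), hm_zero]; ring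
          rw [h7, hVx, hs1]
          have h8 : hm 1 = 1 := by rw [show (1 : ℕ) = 0 + 1 from rfl, hm_succ, hm_zero]; norm_num
          rw [h8]
          have h9 : Q.cA * hm (wA z x) + Q.E8 + Q.D * 1 - Q.cA * hm (wA z x) = Q.E8 + Q.D := by ring
          rw [h9]
          simp only [pr, rt]
          rw [if_neg hf]
          split
          · have := hR.E8_aN
            nlinarith
          · nlinarith
        obtain ⟨s, hs⟩ := hd_exists _ _ hwS
        have hall : ∀ s ∈ (Finset.univ : Finset (SI P)), 0 ≤ pr R x (Sum.inl (Sum.inr s)) *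
          (Vrob R Q z x - Vrob R Q z (rs z x (Sum.inl (Sum.inr s)))) := by
          intro s _
          by_cases hs : x (Sum.inr s) = z (Sum.inr s)
          · rw [rs_right z x _ hs, sub_self, mul_zero]
          · linarith [hterm s hs]
        have := Finset.single_le_sum hall (Finset.mem_univ s)
        have h10 := hterm s hs
        linarith
      · have hw2 : 2 ≤ wS z x := by omega
        have hw2' : (2 : ℝ) ≤ (wS z x : ℝ) := by exact_mod_cast hw2
        have hpos : (0 : ℝ) < (wS z x : ℝ) := by linarith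
        set c1 : ℝ := R.aS * Q.D / (wS z x : ℝ) with hc1
        have hc1p : 0 ≤ c1 := by positivity
        have hterm : ∀ s : SI P, (if (x ∘ Sum.inr) s = (z ∘ Sum.inr) s then (0 : ℝ) else c1)
            - (if flg (fx x (sg (Sum.inr s))) then (c1 + R.aN * Q.Z0) else 0) ≤
            pr R x (Sum.inl (Sum.inr s)) *
            (Vrob R Q z x - Vrob R Q z (rs z x (Sum.inl (Sum.inr s)))) := by
          intro s
          by_cases hs : x (Sum.inr s) = z (Sum.inr s)
          · rw [rs_right z x _ hs, sub_self, mul_zero, if_pos (by exact hs)]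
            split
            · linarith
            · linarith
          · rw [if_neg (by exact hs)]
            have h5 := hA1 s hs
            by_cases hff : flg (fx x (sg (Sum.inr s)))
            · rw [if_pos hff]
              simp only [pr, rt]
              rw [if_neg hf, if_pos hff]
              have h6 : Vrob R Q z (rs z x (Sum.inl (Sum.inr s))) ≤ Q.Z0 := by
                have hff' : flg (rs z x (Sum.inl (Sum.inr s))) := by rwa [rs_wrong z x _ hs]
                by_cases hcc : Cb z (rs z x (Sum.inl (Sum.inr s)))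
                · rw [Vrob_Cb z _ hff' hcc]; exact hR.Z0_Bc
                · exact (Vrob_le_mid hR z _ hff' hcc).trans (hR.Z0_r _ _)
              have h7 : 0 ≤ Vrob R Q z x := Vrob_nonneg hR z x
              nlinarith
            · rw [if_neg hff]
              simp only [pr, rt]
              rw [if_neg hf, if_neg hff]
              have hff' : ¬ flg (rs z x (Sum.inl (Sum.inr s))) := by rwa [rs_wrong z x _ hs]
              have h6 : Vrob R Q z x - Vrob R Q z (rs z x (Sum.inl (Sum.inr s))) = Q.D * (1 / (wS z x : ℝ)) := by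
                rw [hVx, Vrob_unfl z _ hff']
                unfold V3
                rw [h5.1, if_pos (by omega), ← hm_sub h5.2]
                ring
              rw [h6, hc1, sub_zero]
              apply le_of_eq
              ring
        have hsum := Finset.sum_le_sum (fun s (_ : s ∈ (Finset.univ : Finset (SI P))) => hterm s)
        rw [Finset.sum_sub_distrib, sum_wrong] at hsum
        have hone : ∑ s : SI P, (if flg (fx x (sg (Sum.inr s))) then (c1 + R.aN * Q.Z0) else 0)
            ≤ c1 + R.aN * Q.Z0 := by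
          by_cases hex : ∃ s : SI P, flg (fx x (sg (Sum.inr s)))
          · obtain ⟨s0, hs0⟩ := hex
            rw [Finset.sum_eq_single s0]
            · rw [if_pos hs0]
            · intro s _ hne
              rw [if_neg]
              intro h
              exact hne (reflag_unique x hf s s0 h hs0)
            · intro h
              exact absurd (Finset.mem_univ s0) h
          · push Not at hex
            rw [Finset.sum_eq_zero]
            · linarith
            · intro s _
              rw [if_neg (hex s)]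
        have hw3 : ((hd (x ∘ Sum.inr) (z ∘ Sum.inr) : ℕ) : ℝ) * c1 = R.aS * Q.D := by
          change (wS z x : ℝ) * c1 = R.aS * Q.D
          rw [hc1]; field_simp
        rw [hw3] at hsum
        have hc2 : c1 ≤ R.aS * Q.D / 2 := by
          rw [hc1]
          apply div_le_div_of_nonneg_left (by positivity) (by norm_num) hw2'
        linarith

end moves

end Pool.Agent.Helper84.OneMax
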