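import Pool.Agent.Helper84.OneMaxGood

set_option autoImplicit false
set_option linter.unusedSectionVars false
set_option linter.unusedVariables false

/-!
Scanning transitions: results of the T, F and reset moves.
-/

namespace Pool.Agent.Helper84.OneMax

variable {P : NP} {R : RP} {Q : Pot}

lemma rs_acc (z x : Sta P) (l : Mv P) (h : hd (fx x (fl x l)) z ≤ hd x z) : rs z x l = fx x (fl x l) :=
  if_pos h

lemma rs_rej (z x : Sta P) (l : Mv P) (h : ¬ hd (fx x (fl x l)) z ≤ hd x z) : rs z x l = x :=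
  if_neg h

/-- Reset. -/
lemma scan_reset (hG : HG P R Q) (z x : Sta P) (j t h : ℕ) (hm : mem x = some (j, t, h))
    (hS : GoodScan z x j t h) (hp : t = 0 ∧ P.b < h) :
    V R Q z (rs z x (Sum.inr (Sum.inr true))) ≤
      val Q (tt (z ∘ Sum.inl) (x ∘ Sum.inl) j t h - 8)
        (Q.Bc * Phi (z ∘ Sum.inl) (x ∘ Sum.inl) j t h) := by
  obtain ⟨hj, ht, hh⟩ := P.dec_some _ _ _ _ hm
  set y := fx x (fl2 x (fun _ => false) (fun i => decide (P.b ≤ i ∧ i < h)) (P.enc (some (j, t, P.b)))) with hydef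
  have hy : fx x (fl x (Sum.inr (Sum.inr true))) = y := by
    simp only [fl, hm, flT]
    rw [if_pos hp]
  have hfr : ∀ i, (decide (P.b ≤ i ∧ i < h)) = true ↔ ¬ ((i < h) ↔ (i < P.b)) := by
    intro i
    rw [decide_eq_true_iff]
    omega
  obtain ⟨g1, g2, g3, g4, g5, g6⟩ := fl2_good hG.nr2b z x j t h hS (fun _ => false)
    (fun i => decide (P.b ≤ i ∧ i < h)) (P.enc (some (j, t, P.b))) P.b hh (by omega) hfr
  rw [← hydef] at g1 g2 g3 g4 g5 g6
  have hyA : y ∘ Sum.inl = x ∘ Sum.inl := by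
    rw [hydef, fl2_inl]
    funext a
    simp [fx]
  have hwA : wA z y = wA z x := by unfold wA; rw [hyA]
  have hacc : hd (fx x (fl x (Sum.inr (Sum.inr true)))) z ≤ hd x z := by
    rw [hy, hd_eq, hd_eq, hwA]; omega
  rw [rs_acc z x _ hacc, hy]
  have hmy : mem y = some (j, t, P.b) := by
    rw [hydef, fl2_mem, P.dec_enc _ _ _ hj ht (by omega)]
  have hSy : GoodScan z y j t P.b := by
    refine ⟨g1, g2, g3, g4, g5, ?_, Or.inl hp.1⟩
    intro a ha
    have := congrFun hyA a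
    simp only [Function.comp] at this
    rw [this]
    exact hS.2.2.2.2.2.1 a ha
  refine (V_le_scan z y j t P.b hmy hSy).trans ?_
  unfold Vs
  rw [hyA]
  have hB := Bc_nn hG z
  have hnp : ¬ (t = 0 ∧ P.b < P.b) := by omega
  apply val_mono hG (tt_nonneg _ _ _ _ _ hj ht)
  · have h1 : st (z ∘ Sum.inl) (x ∘ Sum.inl) j t P.b ≤ 256 := by
      unfold st; rw [if_neg hnp]; split <;> norm_num
    have h2 : st (z ∘ Sum.inl) (x ∘ Sum.inl) j t h = 264 := by
      unfold st; rw [if_pos hp]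
    unfold tt
    rw [h2]
    linarith
  · exact mul_nonneg hB (Phi_nonneg _ _ _ _ _)
  · apply mul_le_mul_of_nonneg_left _ hB
    rw [Phi_compare (z ∘ Sum.inl) (x ∘ Sum.inl) (x ∘ Sum.inl) j t h t P.b hj (fun _ _ => rfl)]
    have e1 : coef P t h = 1 := by unfold coef; rw [if_pos hp]
    have e2 : coef P t P.b = 1 := by
      rw [coef_np hnp]; field_simp
    rw [e1, e2]
    linarith

section T
variable (z x : Sta P) (j t h : ℕ)

/-- T with a wrong bit. -/
lemma scan_T_wrong (hG : HG P R Q) (hm : mem x = some (j, t, h))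
    (hS : GoodScan z x j t h) (hnp : ¬ (t = 0 ∧ P.b < h))
    (haw : aw (z ∘ Sum.inl) (x ∘ Sum.inl) j t) :
    V R Q z (rs z x (Sum.inr (Sum.inr true))) ≤
      val Q (tt (z ∘ Sum.inl) (x ∘ Sum.inl) j t h - 128)
        (Q.Bc * (Phi (z ∘ Sum.inl) (x ∘ Sum.inl) j t h
          - 3 / 31 * (coef P t h * cur (z ∘ Sum.inl) (x ∘ Sum.inl) j t))) := by
  obtain ⟨hj, ht, hh⟩ := P.dec_some _ _ _ _ hm
  have hbt := good_h z x hS hnp
  set y := fx x (fl2 x (eA j t) (fun i => decide (i = h)) (P.enc (nxt P j t (h + 1)))) with hydef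
  have hy : fx x (fl x (Sum.inr (Sum.inr true))) = y := by
    simp only [fl, hm, flT]
    rw [if_neg hnp]
  have hfr : ∀ i, (decide (i = h)) = true ↔ ¬ ((i < h) ↔ (i < h + 1)) := by
    intro i
    rw [decide_eq_true_iff]
    omega
  obtain ⟨g1, g2, g3, g4, g5, g6⟩ := fl2_good hG.nr2b z x j t h hS (eA j t)
    (fun i => decide (i = h)) (P.enc (nxt P j t (h + 1))) (h + 1) hh (by omega) hfr
  rw [← hydef] at g1 g2 g3 g4 g5 g6
  have hyA : y ∘ Sum.inl = fx (x ∘ Sum.inl) (sg (pt hj ht)) := by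
    rw [hydef, fl2_inl, eA_eq hj ht]
  have hwr : (x ∘ Sum.inl) (pt hj ht) ≠ (z ∘ Sum.inl) (pt hj ht) := (aw_iff _ _ (pt hj ht)).mp haw
  have hwA : wA z y + 1 = wA z x := by
    unfold wA; rw [hyA]; exact hd_sg_wrong _ _ _ hwr
  have hacc : hd (fx x (fl x (Sum.inr (Sum.inr true)))) z ≤ hd x z := by
    rw [hy, hd_eq, hd_eq]; omega
  rw [rs_acc z x _ hacc, hy]
  have hB := Bc_nn hG z
  have hya : ∀ a : AI P, (a.1.val < j ∨ (a.1.val = j ∧ a.2.val < t + 1)) → y (Sum.inl a) = z (Sum.inl a) := by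
    intro a ha
    have h1 := congrFun hyA a
    simp only [Function.comp] at h1
    rw [h1]
    by_cases he : a = pt hj ht
    · rw [he, fx_sg_self]
      revert hwr
      simp only [Function.comp]
      cases x (Sum.inl (pt hj ht)) <;> cases z (Sum.inl (pt hj ht)) <;> simp
    · rw [fx_sg_ne _ _ _ he]
      apply hS.2.2.2.2.2.1 a
      rcases ha with ha | ha
      · exact Or.inl ha
      · right
        refine ⟨ha.1, ?_⟩
        have : a.2.val ≠ t := by
          intro e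
          exact he (Prod.ext (Fin.ext ha.1) (Fin.ext e))
        omega
  have hst := st_np_wrong (z ∘ Sum.inl) (x ∘ Sum.inl) hnp haw
  have htt : tt (z ∘ Sum.inl) (x ∘ Sum.inl) j t h =
      392 * (((P.m * P.b : ℕ) : ℝ) - ((j * P.b + t : ℕ) : ℝ)) := by
    unfold tt; rw [hst]; ring
  have hT0 := tt_ge (z ∘ Sum.inl) (x ∘ Sum.inl) j t h hj ht
  rw [hst] at hT0
  have hpsi := psi_le_Phi (z ∘ Sum.inl) (x ∘ Sum.inl) j t h ⟨j, hj⟩
  have hpsi2 : psi (z ∘ Sum.inl) (x ∘ Sum.inl) j t h j = coef P t h * cur (z ∘ Sum.inl) (x ∘ Sum.inl) j t := by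
    unfold psi; rw [if_neg (by omega), if_pos rfl]
  have hpsi3 : coef P t h * cur (z ∘ Sum.inl) (x ∘ Sum.inl) j t ≤ Phi (z ∘ Sum.inl) (x ∘ Sum.inl) j t h := by
    rw [← hpsi2]; exact hpsi
  have hu0 : 0 < coef P t h * cur (z ∘ Sum.inl) (x ∘ Sum.inl) j t := mul_pos (coef_pos _ _) (cur_pos _ _ _ _)
  have hcs := cur_succ (z ∘ Sum.inl) (x ∘ Sum.inl) j t ht
  have hth : th (z ∘ Sum.inl) (x ∘ Sum.inl) j t = 31 / 56 := by unfold th; rw [if_pos haw]
  rw [hth] at hcs
  have hcoef : coef P t h = 2 ^ P.b / 2 ^ h := coef_np hnp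
  have hcur' : cur (z ∘ Sum.inl) (y ∘ Sum.inl) j (t + 1) = cur (z ∘ Sum.inl) (x ∘ Sum.inl) j (t + 1) := by
    rw [hyA]
    exact cur_sg _ _ (pt hj ht) j (t + 1) (Or.inr (by simp [pt]))
  have hcuro : ∀ j', j' ≠ j → cur (z ∘ Sum.inl) (y ∘ Sum.inl) j' 0 = cur (z ∘ Sum.inl) (x ∘ Sum.inl) j' 0 := by
    intro j' hne
    rw [hyA]
    exact cur_sg _ _ (pt hj ht) j' 0 (Or.inl hne)
  by_cases c1 : t + 1 < P.b
  · -- inside the batch
    have hmy : mem y = some (j, t + 1, h + 1) := by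
      rw [hydef, fl2_mem]
      unfold nxt
      rw [if_pos c1, P.dec_enc _ _ _ hj c1 (by omega)]
    have hSy : GoodScan z y j (t + 1) (h + 1) :=
      ⟨g1, g2, g3, g4, g5, hya, Or.inr (by omega)⟩
    refine (V_le_scan z y _ _ _ hmy hSy).trans ?_
    unfold Vs
    apply val_mono hG (tt_nonneg _ _ _ _ _ hj c1)
    · rw [htt]
      unfold tt
      have := st_le (z ∘ Sum.inl) (y ∘ Sum.inl) j (t + 1) (h + 1)
      push_cast
      linarith
    · exact mul_nonneg hB (Phi_nonneg _ _ _ _ _)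
    · apply mul_le_mul_of_nonneg_left _ hB
      rw [Phi_compare (z ∘ Sum.inl) (x ∘ Sum.inl) (y ∘ Sum.inl) j t h (t + 1) (h + 1) hj hcuro, hcur',
        coef_np (by omega : ¬ (t + 1 = 0 ∧ P.b < h + 1)), hcoef, hcs, pow_succ]
      apply le_of_eq
      field_simp
      ring
  · have hb1 : t + 1 = P.b := by omega
    have hcb : cur (z ∘ Sum.inl) (x ∘ Sum.inl) j (t + 1) = 1 := by rw [hb1]; exact cur_end _ _ _
    rw [hcb, mul_one] at hcs
    by_cases c2 : j + 1 < P.m
    · have hmy : mem y = some (j + 1, 0, h + 1) := by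
        rw [hydef, fl2_mem]
        unfold nxt
        rw [if_neg c1, if_pos c2, P.dec_enc _ _ _ c2 (by omega) (by omega)]
      by_cases c3 : P.b ≤ h + 1
      · have hSy : GoodScan z y (j + 1) 0 (h + 1) := by
          refine ⟨g1, g2, g3, g4, g5, ?_, Or.inl rfl⟩
          intro a ha
          apply hya
          have := a.2.2
          rcases ha with ha | ha
          · by_cases e : a.1.val = j
            · right; exact ⟨e, by omega⟩
            · left; omega
          · omega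
        refine (V_le_scan z y _ _ _ hmy hSy).trans ?_
        unfold Vs
        apply val_mono hG (tt_nonneg _ _ _ _ _ c2 (by omega))
        · rw [htt]
          unfold tt
          have := st_le (z ∘ Sum.inl) (y ∘ Sum.inl) (j + 1) 0 (h + 1)
          have e1 : (j + 1) * P.b + 0 = j * P.b + t + 1 := by
            rw [← hb1]; ring
          rw [e1]
          push_cast
          linarith
        · exact mul_nonneg hB (Phi_nonneg _ _ _ _ _)
        · apply mul_le_mul_of_nonneg_left _ hB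
          have hc : coef P 0 (h + 1) ≤ 1 := by
            unfold coef
            split
            · exact le_rfl
            · rename_i hh3
              have : h + 1 = P.b := by omega
              rw [this, div_self (by positivity)]
          have := Phi_next (z ∘ Sum.inl) (x ∘ Sum.inl) (y ∘ Sum.inl) j t h (h + 1) hj hcuro hc
          linarith
      · -- too few bank bits: use the robust bound
        refine (V_le_rob z y).trans ?_
        rw [Vrob_Cb z y g1 g3]
        refine le_trans ?_ (val_ge_G hG ?_ ?_)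
        · have h1 : (1 : ℝ) ≤ Phi (z ∘ Sum.inl) (x ∘ Sum.inl) j t h
              - 3 / 31 * (coef P t h * cur (z ∘ Sum.inl) (x ∘ Sum.inl) j t) := by
            have h2 : (1 : ℝ) ≤ 28 / 31 * (coef P t h * cur (z ∘ Sum.inl) (x ∘ Sum.inl) j t) := by
              rw [hcoef, hcs]
              have h3 : (2 : ℝ) ^ (h + 1) ≤ 2 ^ P.b := pow_le_pow_right₀ (by norm_num) (by omega)
              have h4 : (0 : ℝ) < 2 ^ h := by positivity
              have e : 28 / 31 * ((2 : ℝ) ^ P.b / 2 ^ h * (31 / 56)) = 2 ^ P.b / 2 ^ (h + 1) := by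
                rw [pow_succ]
                field_simp
                ring
              rw [e, le_div_iff₀ (by positivity), one_mul]
              exact h3
            linarith
          nlinarith
        · linarith
        · apply mul_nonneg hB
          linarith
    · have hmy : mem y = none := by
        rw [hydef, fl2_mem]
        unfold nxt
        rw [if_neg c1, if_neg c2, P.dec_enc_none]
      have hSy : GoodEnd z y := by
        refine ⟨g1, g2, g3, ?_⟩
        intro a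
        apply hya
        have h1 := a.2.2
        have h2 := a.1.2
        by_cases e : a.1.val = j
        · right; exact ⟨e, by omega⟩
        · left; omega
      refine (V_le_end z y hmy hSy).trans (val_ge_Be hG ?_ ?_)
      · linarith
      · apply mul_nonneg hB
        linarith

/-- T with a right bit is rejected. -/
lemma scan_T_right (hG : HG P R Q) (hm : mem x = some (j, t, h))
    (hS : GoodScan z x j t h) (hnp : ¬ (t = 0 ∧ P.b < h))
    (haw : ¬ aw (z ∘ Sum.inl) (x ∘ Sum.inl) j t) :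
    rs z x (Sum.inr (Sum.inr true)) = x := by
  obtain ⟨hj, ht, hh⟩ := P.dec_some _ _ _ _ hm
  have hbt := good_h z x hS hnp
  set y := fx x (fl2 x (eA j t) (fun i => decide (i = h)) (P.enc (nxt P j t (h + 1)))) with hydef
  have hy : fx x (fl x (Sum.inr (Sum.inr true))) = y := by
    simp only [fl, hm, flT]
    rw [if_neg hnp]
  have hfr : ∀ i, (decide (i = h)) = true ↔ ¬ ((i < h) ↔ (i < h + 1)) := by
    intro i
    rw [decide_eq_true_iff]
    omega
  obtain ⟨g1, g2, g3, g4, g5, g6⟩ := fl2_good hG.nr2b z x j t h hS (eA j t)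
    (fun i => decide (i = h)) (P.enc (nxt P j t (h + 1))) (h + 1) hh (by omega) hfr
  rw [← hydef] at g1 g2 g3 g4 g5 g6
  have hyA : y ∘ Sum.inl = fx (x ∘ Sum.inl) (sg (pt hj ht)) := by
    rw [hydef, fl2_inl, eA_eq hj ht]
  have hri : (x ∘ Sum.inl) (pt hj ht) = (z ∘ Sum.inl) (pt hj ht) := by
    by_contra hne
    exact haw ((aw_iff _ _ (pt hj ht)).mpr hne)
  have hwA : wA z y = wA z x + 1 := by
    unfold wA; rw [hyA]; exact hd_sg_right _ _ _ hri
  apply rs_rej
  rw [hy, hd_eq, hd_eq]; omega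

/-- F with a wrong bit. -/
lemma scan_F_wrong (hG : HG P R Q) (hm : mem x = some (j, t, h)) (h1 : 1 ≤ h)
    (hS : GoodScan z x j t h) (hnp : ¬ (t = 0 ∧ P.b < h))
    (haw : aw (z ∘ Sum.inl) (x ∘ Sum.inl) j t) :
    V R Q z (rs z x (Sum.inr (Sum.inr false))) ≤
      val Q (tt (z ∘ Sum.inl) (x ∘ Sum.inl) j t h + 256)
        (Q.Bc * (Phi (z ∘ Sum.inl) (x ∘ Sum.inl) j t h
          + 3 * (coef P t h * cur (z ∘ Sum.inl) (x ∘ Sum.inl) j t))) := by
  obtain ⟨hj, ht, hh⟩ := P.dec_some _ _ _ _ hm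
  have hbt := good_h z x hS hnp
  set y := fx x (fl2 x (eA j t) (fun i => decide (i + 1 = h)) (P.enc (some (j, t, h - 1)))) with hydef
  have hy : fx x (fl x (Sum.inr (Sum.inr false))) = y := by
    simp only [fl, hm, flF]
    rfl
  have hfr : ∀ i, (decide (i + 1 = h)) = true ↔ ¬ ((i < h) ↔ (i < h - 1)) := by
    intro i
    rw [decide_eq_true_iff]
    omega
  obtain ⟨g1, g2, g3, g4, g5, g6⟩ := fl2_good hG.nr2b z x j t h hS (eA j t)
    (fun i => decide (i + 1 = h)) (P.enc (some (j, t, h - 1))) (h - 1) hh (by omega) hfr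
  rw [← hydef] at g1 g2 g3 g4 g5 g6
  have hyA : y ∘ Sum.inl = fx (x ∘ Sum.inl) (sg (pt hj ht)) := by
    rw [hydef, fl2_inl, eA_eq hj ht]
  have hwr : (x ∘ Sum.inl) (pt hj ht) ≠ (z ∘ Sum.inl) (pt hj ht) := (aw_iff _ _ (pt hj ht)).mp haw
  have hwA : wA z y + 1 = wA z x := by
    unfold wA; rw [hyA]; exact hd_sg_wrong _ _ _ hwr
  have hacc : hd (fx x (fl x (Sum.inr (Sum.inr false)))) z ≤ hd x z := by
    rw [hy, hd_eq, hd_eq]; omega
  rw [rs_acc z x _ hacc, hy]
  have hB := Bc_nn hG z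
  have hnp' : ¬ (t = 0 ∧ P.b < h - 1) := by omega
  have hmy : mem y = some (j, t, h - 1) := by
    rw [hydef, fl2_mem, P.dec_enc _ _ _ hj ht (by omega)]
  have hya : ∀ a : AI P, (a.1.val < j ∨ (a.1.val = j ∧ a.2.val < t)) → y (Sum.inl a) = z (Sum.inl a) := by
    intro a ha
    have h1 := congrFun hyA a
    simp only [Function.comp] at h1
    rw [h1, fx_sg_ne]
    · exact hS.2.2.2.2.2.1 a ha
    · rintro rfl
      simp [pt] at ha
  have hSy : GoodScan z y j t (h - 1) := ⟨g1, g2, g3, g4, g5, hya, Or.inr (by omega)⟩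
  have hnaw : ¬ aw (z ∘ Sum.inl) (y ∘ Sum.inl) j t := by
    rw [hyA]
    intro h2
    exact (aw_sg_self _ _ (pt hj ht)).mp h2 haw
  refine (V_le_scan z y _ _ _ hmy hSy).trans ?_
  unfold Vs
  apply val_mono hG (tt_nonneg _ _ _ _ _ hj ht)
  · unfold tt
    rw [st_np_wrong _ _ hnp haw, st_np_right _ _ hnp' hnaw]
    linarith
  · exact mul_nonneg hB (Phi_nonneg _ _ _ _ _)
  · apply mul_le_mul_of_nonneg_left _ hB
    have hcuro : ∀ j', j' ≠ j → cur (z ∘ Sum.inl) (y ∘ Sum.inl) j' 0 = cur (z ∘ Sum.inl) (x ∘ Sum.inl) j' 0 := by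
      intro j' hne
      rw [hyA]
      exact cur_sg _ _ (pt hj ht) j' 0 (Or.inl hne)
    have hcur' : cur (z ∘ Sum.inl) (y ∘ Sum.inl) j (t + 1) = cur (z ∘ Sum.inl) (x ∘ Sum.inl) j (t + 1) := by
      rw [hyA]
      exact cur_sg _ _ (pt hj ht) j (t + 1) (Or.inr (by simp [pt]))
    rw [Phi_compare (z ∘ Sum.inl) (x ∘ Sum.inl) (y ∘ Sum.inl) j t h t (h - 1) hj hcuro,
      coef_np hnp, coef_np hnp', cur_succ _ _ _ _ ht, cur_succ (z ∘ Sum.inl) (y ∘ Sum.inl) j t ht, hcur']
    have e1 : th (z ∘ Sum.inl) (x ∘ Sum.inl) j t = 31 / 56 := by unfold th; rw [if_pos haw]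
    have e2 : th (z ∘ Sum.inl) (y ∘ Sum.inl) j t = 31 / 28 := by unfold th; rw [if_neg hnaw]
    rw [e1, e2]
    obtain ⟨h', rfl⟩ : ∃ h', h = h' + 1 := ⟨h - 1, by omega⟩
    rw [Nat.add_sub_cancel, pow_succ]
    apply le_of_eq
    field_simp
    ring

/-- F with a right bit. -/
lemma scan_F_right (hG : HG P R Q) (hm : mem x = some (j, t, h)) (h1 : 1 ≤ h)
    (hS : GoodScan z x j t h) (hnp : ¬ (t = 0 ∧ P.b < h))
    (haw : ¬ aw (z ∘ Sum.inl) (x ∘ Sum.inl) j t) :
    V R Q z (rs z x (Sum.inr (Sum.inr false))) ≤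
      val Q (tt (z ∘ Sum.inl) (x ∘ Sum.inl) j t h - 256)
        (Q.Bc * Phi (z ∘ Sum.inl) (x ∘ Sum.inl) j t h) := by
  obtain ⟨hj, ht, hh⟩ := P.dec_some _ _ _ _ hm
  have hbt := good_h z x hS hnp
  set y := fx x (fl2 x (eA j t) (fun i => decide (i + 1 = h)) (P.enc (some (j, t, h - 1)))) with hydef
  have hy : fx x (fl x (Sum.inr (Sum.inr false))) = y := by
    simp only [fl, hm, flF]
    rfl
  have hfr : ∀ i, (decide (i + 1 = h)) = true ↔ ¬ ((i < h) ↔ (i < h - 1)) := by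
    intro i
    rw [decide_eq_true_iff]
    omega
  obtain ⟨g1, g2, g3, g4, g5, g6⟩ := fl2_good hG.nr2b z x j t h hS (eA j t)
    (fun i => decide (i + 1 = h)) (P.enc (some (j, t, h - 1))) (h - 1) hh (by omega) hfr
  rw [← hydef] at g1 g2 g3 g4 g5 g6
  have hyA : y ∘ Sum.inl = fx (x ∘ Sum.inl) (sg (pt hj ht)) := by
    rw [hydef, fl2_inl, eA_eq hj ht]
  have hri : (x ∘ Sum.inl) (pt hj ht) = (z ∘ Sum.inl) (pt hj ht) := by
    by_contra hne
    exact haw ((aw_iff _ _ (pt hj ht)).mpr hne)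
  have hwA : wA z y = wA z x + 1 := by
    unfold wA; rw [hyA]; exact hd_sg_right _ _ _ hri
  have hacc : hd (fx x (fl x (Sum.inr (Sum.inr false)))) z ≤ hd x z := by
    rw [hy, hd_eq, hd_eq]; omega
  rw [rs_acc z x _ hacc, hy]
  have hB := Bc_nn hG z
  have hnp' : ¬ (t = 0 ∧ P.b < h - 1) := by omega
  have hmy : mem y = some (j, t, h - 1) := by
    rw [hydef, fl2_mem, P.dec_enc _ _ _ hj ht (by omega)]
  have hya : ∀ a : AI P, (a.1.val < j ∨ (a.1.val = j ∧ a.2.val < t)) → y (Sum.inl a) = z (Sum.inl a) := by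
    intro a ha
    have h1 := congrFun hyA a
    simp only [Function.comp] at h1
    rw [h1, fx_sg_ne]
    · exact hS.2.2.2.2.2.1 a ha
    · rintro rfl
      simp [pt] at ha
  have hSy : GoodScan z y j t (h - 1) := ⟨g1, g2, g3, g4, g5, hya, Or.inr (by omega)⟩
  have hnaw : aw (z ∘ Sum.inl) (y ∘ Sum.inl) j t := by
    rw [hyA]
    exact (aw_sg_self _ _ (pt hj ht)).mpr haw
  refine (V_le_scan z y _ _ _ hmy hSy).trans ?_
  unfold Vs
  apply val_mono hG (tt_nonneg _ _ _ _ _ hj ht)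
  · unfold tt
    rw [st_np_right _ _ hnp haw, st_np_wrong _ _ hnp' hnaw]
    linarith
  · exact mul_nonneg hB (Phi_nonneg _ _ _ _ _)
  · apply mul_le_mul_of_nonneg_left _ hB
    have hcuro : ∀ j', j' ≠ j → cur (z ∘ Sum.inl) (y ∘ Sum.inl) j' 0 = cur (z ∘ Sum.inl) (x ∘ Sum.inl) j' 0 := by
      intro j' hne
      rw [hyA]
      exact cur_sg _ _ (pt hj ht) j' 0 (Or.inl hne)
    have hcur' : cur (z ∘ Sum.inl) (y ∘ Sum.inl) j (t + 1) = cur (z ∘ Sum.inl) (x ∘ Sum.inl) j (t + 1) := by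
      rw [hyA]
      exact cur_sg _ _ (pt hj ht) j (t + 1) (Or.inr (by simp [pt]))
    rw [Phi_compare (z ∘ Sum.inl) (x ∘ Sum.inl) (y ∘ Sum.inl) j t h t (h - 1) hj hcuro,
      coef_np hnp, coef_np hnp', cur_succ _ _ _ _ ht, cur_succ (z ∘ Sum.inl) (y ∘ Sum.inl) j t ht, hcur']
    have e1 : th (z ∘ Sum.inl) (x ∘ Sum.inl) j t = 31 / 28 := by unfold th; rw [if_neg haw]
    have e2 : th (z ∘ Sum.inl) (y ∘ Sum.inl) j t = 31 / 56 := by unfold th; rw [if_pos hnaw]
    rw [e1, e2]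
    obtain ⟨h', rfl⟩ : ∃ h', h = h' + 1 := ⟨h - 1, by omega⟩
    rw [Nat.add_sub_cancel, pow_succ]
    apply le_of_eq
    field_simp
    ring

end T

/-- the drift of the special moves in a good scanning state -/
lemma scan_specials (hG : HG P R Q) (z x : Sta P) (j t h : ℕ) (hm : mem x = some (j, t, h))
    (hS : GoodScan z x j t h) (hV : V R Q z x = Vs Q z x j t h) (hlt : Vs Q z x j t h < Q.Bc) :
    4 + 4 * (Q.Bc * Phi (z ∘ Sum.inl) (x ∘ Sum.inl) j t h) / Q.Vm ≤
      pr R x (Sum.inr (Sum.inr true)) * (V R Q z x - V R Q z (rs z x (Sum.inr (Sum.inr true)))) +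
      pr R x (Sum.inr (Sum.inr false)) * (V R Q z x - V R Q z (rs z x (Sum.inr (Sum.inr false)))) := by
  obtain ⟨hj, ht, hh⟩ := P.dec_some _ _ _ _ hm
  have hB := Bc_nn hG z
  have hVm := Vm_pos hG
  have h1 := h_pos hG z x hm hlt
  have hPhi := Phi_nonneg (z ∘ Sum.inl) (x ∘ Sum.inl) j t h
  set T := tt (z ∘ Sum.inl) (x ∘ Sum.inl) j t h with hT
  set Φ := Phi (z ∘ Sum.inl) (x ∘ Sum.inl) j t h with hΦ
  have hprT : pr R x (Sum.inr (Sum.inr true)) = pT P (some (j, t, h)) := by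
    simp only [pr]; rw [if_pos ⟨hS.1, hS.2.1⟩, hm]
  have hprF : pr R x (Sum.inr (Sum.inr false)) = pF P (some (j, t, h)) := by
    simp only [pr]; rw [if_pos ⟨hS.1, hS.2.1⟩, hm]
  have hVx : V R Q z x = Q.Be + T + Q.Bc * Φ + T * (Q.Bc * Φ) / Q.Vm := by
    rw [hV]; rfl
  rw [hprT, hprF, hVx]
  by_cases hp : t = 0 ∧ P.b < h
  · have e1 : pT P (some (j, t, h)) = 1 / 2 := by simp only [pT]; rw [if_pos hp]
    have e2 : pF P (some (j, t, h)) = 0 := by simp only [pF]; rw [if_pos (Or.inl hp)]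
    have h2 := scan_reset hG z x j t h hm hS hp
    rw [← hT, ← hΦ] at h2
    unfold val at h2
    rw [e1, e2]
    have e3 : (T - 8) * (Q.Bc * Φ) / Q.Vm = T * (Q.Bc * Φ) / Q.Vm - 8 * ((Q.Bc * Φ) / Q.Vm) := by ring
    rw [e3] at h2
    have e4 : 4 * (Q.Bc * Φ) / Q.Vm = 4 * ((Q.Bc * Φ) / Q.Vm) := by ring
    rw [e4]
    linarith
  · have hbt := good_h z x hS hp
    have hu0 : 0 < coef P t h * cur (z ∘ Sum.inl) (x ∘ Sum.inl) j t := mul_pos (coef_pos _ _) (cur_pos _ _ _ _)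
    have hpsi := psi_le_Phi (z ∘ Sum.inl) (x ∘ Sum.inl) j t h ⟨j, hj⟩
    have hpsi2 : psi (z ∘ Sum.inl) (x ∘ Sum.inl) j t h j = coef P t h * cur (z ∘ Sum.inl) (x ∘ Sum.inl) j t := by
      unfold psi; rw [if_neg (by omega), if_pos rfl]
    have hpsi3 : coef P t h * cur (z ∘ Sum.inl) (x ∘ Sum.inl) j t ≤ Φ := by
      rw [← hpsi2]; exact hpsi
    have e1 : pT P (some (j, t, h)) = 31 / 64 := by
      simp only [pT]; rw [if_neg hp, if_pos (by omega)]
    have e2 : pF P (some (j, t, h)) = 1 / 64 := by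
      simp only [pF]; rw [if_neg]
      rintro (h | h)
      · exact hp h
      · omega
    rw [e1, e2]
    by_cases haw : aw (z ∘ Sum.inl) (x ∘ Sum.inl) j t
    · have hTw := scan_T_wrong z x j t h hG hm hS hp haw
      have hFw := scan_F_wrong z x j t h hG hm h1 hS hp haw
      rw [← hT, ← hΦ] at hTw hFw
      set u := coef P t h * cur (z ∘ Sum.inl) (x ∘ Sum.inl) j t with hu
      unfold val at hTw hFw
      set B := Q.Bc with hBd
      set W := Q.Vm with hW
      have e3 : (T - 128) * (B * (Φ - 3 / 31 * u)) / W =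
          T * (B * Φ) / W - 3 / 31 * (T * (B * u) / W) - 128 * ((B * Φ) / W) + 384 / 31 * ((B * u) / W) := by
        field_simp
        ring
      have e4 : (T + 256) * (B * (Φ + 3 * u)) / W =
          T * (B * Φ) / W + 3 * (T * (B * u) / W) + 256 * ((B * Φ) / W) + 768 * ((B * u) / W) := by
        field_simp
        ring
      have e5 : 4 * (B * Φ) / W = 4 * ((B * Φ) / W) := by ring
      rw [e3] at hTw
      rw [e4] at hFw
      rw [e5]
      have h5 : (B * u) / W ≤ (B * Φ) / W := by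
        apply div_le_div_of_nonneg_right _ hVm.le
        exact mul_le_mul_of_nonneg_left hpsi3 hB
      have h6 : 0 ≤ (B * u) / W := by positivity
      linarith
    · have hTr := scan_T_right z x j t h hG hm hS hp haw
      have hFr := scan_F_right z x j t h hG hm h1 hS hp haw
      rw [hTr, hVx]
      rw [← hT, ← hΦ] at hFr
      unfold val at hFr
      have e3 : (T - 256) * (Q.Bc * Φ) / Q.Vm = T * (Q.Bc * Φ) / Q.Vm - 256 * ((Q.Bc * Φ) / Q.Vm) := by ring
      rw [e3] at hFr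
      have e4 : 4 * (Q.Bc * Φ) / Q.Vm = 4 * ((Q.Bc * Φ) / Q.Vm) := by ring
      rw [e4]
      linarith

end Pool.Agent.Helper84.OneMax
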